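import Pool.Agent.Lib.MP_1c1c61_pr.Lower

open Filter Topology NormedSpace Function

namespace Pool.Agent.Lib.MP_1c1c61_pr

set_option linter.unusedSectionVars false

section single

variable {V : Type*} [Fintype V] [DecidableEq V] {q : ℕ} {θ Δ : ℝ}

/-- mixing time from a deterministic state -/
noncomputable def tm (K : Kern V θ Δ) (μ : (V → Fin q) → ℝ) (x0 : V → Fin q) (ε : ℝ) : ℝ :=
  sInf {t : ℝ | 0 ≤ t ∧ tv (pt K t x0) μ ≤ ε}

lemma tm_nonempty [NeZero q] [Nonempty V] (K : Kern V θ Δ) (hθ0 : 0 < θ) (hθ1 : θ ≤ 1)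
    {μ : (V → Fin q) → ℝ} (hμ : IsStat K μ) (x0 : V → Fin q) {ε : ℝ} (hε : 0 < ε) :
    {t : ℝ | 0 ≤ t ∧ tv (pt K t x0) μ ≤ ε}.Nonempty := by
  have hlim : Tendsto (fun t : ℝ => Real.exp (-(θ * t)) * ∑ v, K.d v) atTop
      (𝓝 (0 * ∑ v, K.d v)) := by
    refine Tendsto.mul_const _ ?_
    refine Real.tendsto_exp_atBot.comp (tendsto_neg_atTop_atBot.comp ?_)
    exact tendsto_id.const_mul_atTop hθ0
  rw [zero_mul] at hlim
  have h1 := hlim.eventually (gt_mem_nhds hε)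
  obtain ⟨t, ht1, ht2⟩ := (h1.and (eventually_ge_atTop (0 : ℝ))).exists
  exact ⟨t, ht2, (tv_conv K hθ0 hθ1 hμ x0 ht2).trans ht1.le⟩

lemma tm_bddBelow (K : Kern V θ Δ) (μ : (V → Fin q) → ℝ) (x0 : V → Fin q) (ε : ℝ) :
    BddBelow {t : ℝ | 0 ≤ t ∧ tv (pt K t x0) μ ≤ ε} := ⟨0, fun _ h => h.1⟩

lemma tm_nonneg (K : Kern V θ Δ) (μ : (V → Fin q) → ℝ) (x0 : V → Fin q) (ε : ℝ) :
    0 ≤ tm K μ x0 ε := Real.sInf_nonneg fun _ h => h.1

lemma tv_le_of_tm_lt [NeZero q] [Nonempty V] (K : Kern V θ Δ) (hθ0 : 0 < θ) (hθ1 : θ ≤ 1)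
    {μ : (V → Fin q) → ℝ} (hμ : IsStat K μ) (x0 : V → Fin q) {ε t : ℝ} (hε : 0 < ε)
    (ht : tm K μ x0 ε < t) : tv (pt K t x0) μ ≤ ε := by
  obtain ⟨s, hs, hst⟩ := exists_lt_of_csInf_lt (tm_nonempty K hθ0 hθ1 hμ x0 hε) ht
  have h1 := tv_mono K hθ0 hμ x0 (t := s) (s := t - s) (by linarith)
  rw [add_sub_cancel] at h1
  exact h1.trans hs.2

lemma tm_le_of (K : Kern V θ Δ) {μ : (V → Fin q) → ℝ} (x0 : V → Fin q) {ε t : ℝ}
    (ht : 0 ≤ t) (h : tv (pt K t x0) μ ≤ ε) : tm K μ x0 ε ≤ t :=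
  csInf_le (tm_bddBelow K μ x0 ε) ⟨ht, h⟩

lemma tm_boost [NeZero q] [Nonempty V] (K : Kern V θ Δ) (hθ0 : 0 < θ) (hθ1 : θ ≤ 1)
    (hΔ : 1 ≤ Δ) {μ : (V → Fin q) → ℝ} (hμ : IsStat K μ) (x0 : V → Fin q) {s ε ε' : ℝ}
    (hs : 1 ≤ s) (hε : 0 < ε) (hε1 : ε < 1) (hε' : 0 < ε')
    (hη : Cv q θ Δ (Fintype.card V) / θ * Real.exp (-(θ * s)) ≤ (ε' * (1 - ε)) ^ 2) :
    tm K μ x0 ε' ≤ tm K μ x0 ε + 1 + s := by
  have h0 := tm_nonneg K μ x0 ε
  have h1 : tv (pt K (tm K μ x0 ε + 1) x0) μ ≤ ε :=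
    tv_le_of_tm_lt K hθ0 hθ1 hμ x0 hε (by linarith)
  have h2 : tv (pt K (tm K μ x0 ε + 1) x0) μ ≤ 1 - (1 - ε) := by linarith
  have h3 := boost K hθ0 hθ1 hΔ hμ x0 (by linarith : 0 ≤ tm K μ x0 ε + 1) hs
    (by linarith : 0 < 1 - ε) (by have : 0 < 1 - ε := by linarith
                                  positivity) hη h2
  have h4 : ε' * (1 - ε) / (1 - ε) = ε' := by
    have : (1 - ε) ≠ 0 := by linarith
    field_simp
  rw [h4] at h3
  exact tm_le_of K x0 (by linarith) h3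

/-- a stationary law exists -/
lemma exists_stat [NeZero q] [Nonempty V] (K : Kern V θ Δ) (hθ0 : 0 < θ) (hθ1 : θ ≤ 1) :
    ∃ μ : (V → Fin q) → ℝ, IsStat K μ := by
  have : Nonempty (V → Fin q) := ⟨fun _ => 0⟩
  obtain ⟨x0⟩ := ‹Nonempty (V → Fin q)›
  -- Cauchy estimate
  have hC : ∀ (f : (V → Fin q) → ℝ) (c : ℝ), 0 < c → (∀ x, |f x| ≤ c) → ∀ t s : ℝ, 0 ≤ t → 0 ≤ s →
      |exp ((s + t) • Lg K) f x0 - exp (t • Lg K) f x0| ≤
        2 * c * (Real.exp (-(θ * t)) * ∑ v, K.d v) := by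
    intro f c hc hf t s ht hs
    have hM := isMarkov_exp (eventually_Lstep (q := q) K hθ0.le) hs
    rw [exp_add', mul_apply_eq_comp]
    have h1 : exp (s • Lg K) (exp (t • Lg K) f) x0 - exp (t • Lg K) f x0 =
        exp (s • Lg K) (exp (t • Lg K) f - fun _ => exp (t • Lg K) f x0) x0 := by
      rw [map_sub, Pi.sub_apply, hM.map_const]
    rw [h1]
    refine hM.abs_le (fun y => ?_) x0
    rw [Pi.sub_apply]
    exact abs_osc_bound K hθ0.le hθ1 ht f hc hf y x0
  have hzero : ∀ c : ℝ, Tendsto (fun t : ℝ => 2 * c * (Real.exp (-(θ * t)) * ∑ v, K.d v)) atTop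
      (𝓝 0) := by
    intro c
    have hlim : Tendsto (fun t : ℝ => 2 * c * (Real.exp (-(θ * t)) * ∑ v, K.d v)) atTop
        (𝓝 (2 * c * (0 * ∑ v, K.d v))) := by
      refine Tendsto.const_mul _ (Tendsto.mul_const _ ?_)
      refine Real.tendsto_exp_atBot.comp (tendsto_neg_atTop_atBot.comp ?_)
      exact tendsto_id.const_mul_atTop hθ0
    simpa using hlim
  have hbd : ∀ f : (V → Fin q) → ℝ, ∃ c : ℝ, 0 < c ∧ ∀ x, |f x| ≤ c := by
    intro f
    refine ⟨‖f‖ + 1, by positivity, fun x => ?_⟩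
    have := norm_le_pi_norm f x
    rw [Real.norm_eq_abs] at this
    linarith
  have hlimex : ∀ f : (V → Fin q) → ℝ, ∃ l : ℝ,
      Tendsto (fun n : ℕ => exp ((n : ℝ) • Lg K) f x0) atTop (𝓝 l) := by
    intro f
    obtain ⟨c, hc, hf⟩ := hbd f
    refine cauchySeq_tendsto_of_complete ?_
    refine cauchySeq_of_le_tendsto_0' (fun n : ℕ => 2 * c * (Real.exp (-(θ * n)) * ∑ v, K.d v))
      (fun n m hnm => ?_) ((hzero c).comp tendsto_natCast_atTop_atTop)
    have h1 := hC f c hc hf n (m - n) (by positivity) (by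
      have : (n : ℝ) ≤ m := by exact_mod_cast hnm
      linarith)
    rw [sub_add_cancel] at h1
    rw [Real.dist_eq, abs_sub_comm]
    exact h1
  choose l hl using hlimex
  refine ⟨fun y => l (Pi.single y 1), ?_, ?_, ?_⟩
  · intro y
    refine ge_of_tendsto (hl (Pi.single y 1)) (Eventually.of_forall fun n => ?_)
    exact pt_nonneg K hθ0.le (by positivity) x0 y
  · have h1 : Tendsto (fun n : ℕ => ∑ y, pt K n x0 y) atTop (𝓝 (∑ y, l (Pi.single y 1))) :=
      tendsto_finsetSum _ fun y _ => hl (Pi.single y 1)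
    have h2 : (fun n : ℕ => ∑ y, pt K n x0 y) = fun _ => 1 := by
      ext n; exact sum_pt_one K hθ0.le (by positivity) x0
    rw [h2] at h1
    exact tendsto_nhds_unique h1 tendsto_const_nhds
  · intro t ht f
    have hsum : ∀ f : (V → Fin q) → ℝ, Tendsto (fun n : ℕ => exp ((n : ℝ) • Lg K) f x0) atTop
        (𝓝 (∑ y, l (Pi.single y 1) * f y)) := by
      intro f
      have h1 : Tendsto (fun n : ℕ => ∑ y, pt K n x0 y * f y) atTop
          (𝓝 (∑ y, l (Pi.single y 1) * f y)) :=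
        tendsto_finsetSum _ fun y _ => (hl (Pi.single y 1)).mul_const (f y)
      refine h1.congr fun n => sum_pt K n x0 f
    have h1 := hsum (exp (t • Lg K) f)
    have h2 := hsum f
    obtain ⟨c, hc, hf⟩ := hbd f
    have h3 : Tendsto (fun n : ℕ => exp ((n : ℝ) • Lg K) (exp (t • Lg K) f) x0 -
        exp ((n : ℝ) • Lg K) f x0) atTop (𝓝 0) := by
      refine squeeze_zero_norm (fun n => ?_) ((hzero c).comp tendsto_natCast_atTop_atTop)
      rw [Real.norm_eq_abs, ← mul_apply_eq_comp, ← exp_add', add_comm]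
      exact hC f c hc hf n t (by positivity) ht
    have h4 := tendsto_nhds_unique (h1.sub h2) h3
    linarith

end single

section sequences

variable {V : ℕ → Type*} [∀ n, Fintype (V n)] [∀ n, DecidableEq (V n)] {q : ℕ} {θ Δ : ℝ}

theorem cutoff_main (hq : 2 ≤ q) (hθ0 : 0 < θ) (hθ1 : θ ≤ 1) (hΔ : 1 ≤ Δ)
    [∀ n, Nonempty (V n)] (K : ∀ n, Kern (V n) θ Δ)
    (hcard : Tendsto (fun n => Fintype.card (V n)) atTop atTop)
    (μ : ∀ n, (V n → Fin q) → ℝ) (hμ : ∀ n, IsStat (K n) (μ n)) (x0 : ∀ n, V n → Fin q)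
    {ε : ℝ} (hε : 0 < ε) (hε1 : ε < 1) :
    Tendsto (fun n => tm (K n) (μ n) (x0 n) ε / tm (K n) (μ n) (x0 n) (1 / 2)) atTop (𝓝 1) := by
  have : NeZero q := ⟨by omega⟩
  set T : ℝ → ℕ → ℝ := fun ε n => tm (K n) (μ n) (x0 n) ε with hT
  set N : ℕ → ℝ := fun n => (Fintype.card (V n) : ℝ) with hN
  have hNlim : Tendsto N atTop atTop := tendsto_natCast_atTop_atTop.comp hcard
  have hN1 : ∀ n, 1 ≤ N n := fun n => card_pos_or (V n)
  set X : ℕ → ℝ := fun n => Real.log (1 + N n) with hX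
  have hXlim : Tendsto X atTop atTop :=
    Real.tendsto_log_atTop.comp (tendsto_const_nhds.add_atTop hNlim)
  have hXsqrt : Tendsto (fun n => Real.sqrt (X n)) atTop atTop :=
    Real.tendsto_sqrt_atTop.comp hXlim
  -- decay of the variance bound at time sqrt X
  have hdecay : Tendsto (fun n => Cv q θ Δ (N n) / θ * Real.exp (-(θ * Real.sqrt (X n)))) atTop
      (𝓝 0) := by
    -- as a function of y = sqrt X
    obtain ⟨a, b, hab⟩ : ∃ a b : ℝ, ∀ n, Cv q θ Δ (N n) / θ = a + b * X n := by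
      refine ⟨2 * (q + 2) * (Δ * (Real.exp ((1 - θ) * (1 + Δ)) * (2 / θ))) * Real.exp θ / θ,
        2 * (q + 2) * (Δ * (Real.exp ((1 - θ) * (1 + Δ)) * ((1 - θ) * (1 + Δ) * (2 / θ)))) *
          Real.exp θ / θ, fun n => ?_⟩
      simp only [Cv, Xs, hX]
      ring
    have hφ : Tendsto (fun y : ℝ => (a + b * y ^ 2) * Real.exp (-(θ * y))) atTop (𝓝 0) := by
      have h1 : ∀ k : ℕ, Tendsto (fun y : ℝ => y ^ k * Real.exp (-(θ * y))) atTop (𝓝 0) := by
        intro k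
        have h2 := Real.tendsto_pow_mul_exp_neg_atTop_nhds_zero k
        have h3 : Tendsto (fun y : ℝ => θ * y) atTop atTop := tendsto_id.const_mul_atTop hθ0
        have h4 := (h2.comp h3).const_mul ((θ⁻¹) ^ k)
        rw [mul_zero] at h4
        refine h4.congr fun y => ?_
        simp only [Function.comp_apply, mul_pow, inv_pow]
        field_simp
      have h5 := ((h1 0).const_mul a).add ((h1 2).const_mul b)
      simp only [mul_zero, add_zero, pow_zero, one_mul] at h5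
      refine h5.congr fun y => ?_
      ring
    refine (hφ.comp hXsqrt).congr fun n => ?_
    simp only [Function.comp_apply]
    rw [hab, Real.sq_sqrt (Real.log_nonneg (by linarith [hN1 n]))]
  -- comparison of mixing times
  have hcomp : ∀ ε ε' : ℝ, 0 < ε → ε < 1 → 0 < ε' →
      ∀ᶠ n in atTop, T ε' n ≤ T ε n + 1 + Real.sqrt (X n) := by
    intro ε ε' h0 h1 h2
    have h3 : 0 < (ε' * (1 - ε)) ^ 2 := by
      have : 0 < 1 - ε := by linarith
      positivity
    filter_upwards [hdecay.eventually (gt_mem_nhds h3), hXsqrt.eventually_ge_atTop 1] with n hn hn1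
    exact tm_boost (K n) hθ0 hθ1 hΔ (hμ n) (x0 n) hn1 h0 h1 h2 hn.le
  -- lower bound
  set c : ℝ := 2 * (1 + Δ) with hc
  have hcpos : 0 < c := by positivity
  set A : ℝ := 32 * q ^ 2 * Δ ^ 2 / θ with hA
  have hq0 : (0 : ℝ) < q := by exact_mod_cast (by omega : 0 < q)
  have hApos : 0 < A := by positivity
  have hlow : ∀ n, X n ≤ (Real.log 2 + Real.log A + c) + c * T (1 / 2) n := by
    intro n
    have h0 := tm_nonneg (K n) (μ n) (x0 n) (1 / 2)
    have h1 : tv (pt (K n) (T (1 / 2) n + 1) (x0 n)) (μ n) ≤ 1 / 2 :=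
      tv_le_of_tm_lt (K n) hθ0 hθ1 (hμ n) (x0 n) (by norm_num) (by simp only [hT]; linarith)
    have h2 := lower hq (K n) hθ0 hθ1 hΔ (hμ n) (x0 n)
      (by simp only [hT]; linarith : 0 ≤ T (1 / 2) n + 1) h1
    have h3 : Real.log (N n) ≤ Real.log A + c * (T (1 / 2) n + 1) := by
      have := Real.log_le_log (by linarith [hN1 n]) h2
      rwa [Real.log_mul hApos.ne' (Real.exp_pos _).ne', Real.log_exp] at this
    have h4 : X n ≤ Real.log 2 + Real.log (N n) := by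
      simp only [hX]
      rw [← Real.log_mul (by norm_num) (by linarith [hN1 n])]
      exact Real.log_le_log (by linarith [hN1 n]) (by linarith [hN1 n])
    linarith
  set B : ℝ := Real.log 2 + Real.log A + c with hB
  have hlow2 : ∀ᶠ n in atTop, X n / (2 * c) ≤ T (1 / 2) n := by
    filter_upwards [hXlim.eventually_ge_atTop (2 * B)] with n hn
    have := hlow n
    rw [div_le_iff₀ (by positivity)]
    linarith
  -- conclusion
  have hratio : Tendsto (fun n => (1 + Real.sqrt (X n)) / (X n / (2 * c))) atTop (𝓝 0) := by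
    have hφ : Tendsto (fun y : ℝ => (2 * c) * (y⁻¹ ^ 2 + y⁻¹)) atTop (𝓝 0) := by
      have h1 : Tendsto (fun y : ℝ => (2 * c) * (y⁻¹ ^ 2 + y⁻¹)) atTop
          (𝓝 ((2 * c) * (0 ^ 2 + 0))) :=
        ((tendsto_inv_atTop_zero.pow 2).add tendsto_inv_atTop_zero).const_mul _
      simpa using h1
    refine (hφ.comp hXsqrt).congr' ?_
    filter_upwards [hXlim.eventually_ge_atTop 1] with n hn
    simp only [Function.comp_apply]
    have h2 : 0 < Real.sqrt (X n) := Real.sqrt_pos.mpr (by linarith)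
    have h3 : X n = Real.sqrt (X n) ^ 2 := (Real.sq_sqrt (by linarith)).symm
    set y := Real.sqrt (X n) with hy
    rw [h3]
    field_simp
  have hdiff : Tendsto (fun n => T ε n / T (1 / 2) n - 1) atTop (𝓝 0) := by
    refine squeeze_zero_norm' ?_ hratio
    filter_upwards [hcomp ε (1 / 2) hε hε1 (by norm_num), hcomp (1 / 2) ε (by norm_num)
      (by norm_num) hε, hlow2, hXlim.eventually_ge_atTop 1] with n h1 h2 h3 h4
    have h5 : 0 < X n / (2 * c) := by positivity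
    have h6 : 0 < T (1 / 2) n := by linarith
    have h7 : T ε n / T (1 / 2) n - 1 = (T ε n - T (1 / 2) n) / T (1 / 2) n := by
      field_simp
    rw [h7, norm_div, Real.norm_of_nonneg h6.le]
    have h8 : ‖T ε n - T (1 / 2) n‖ ≤ 1 + Real.sqrt (X n) := by
      rw [Real.norm_eq_abs, abs_le]; constructor <;> linarith
    have h9 : 0 ≤ 1 + Real.sqrt (X n) := by positivity
    calc ‖T ε n - T (1 / 2) n‖ / T (1 / 2) n ≤ (1 + Real.sqrt (X n)) / T (1 / 2) n := by gcongr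
      _ ≤ (1 + Real.sqrt (X n)) / (X n / (2 * c)) := by gcongr
  have := hdiff.add_const 1
  simpa [hT] using this

end sequences

end Pool.Agent.Lib.MP_1c1c61_pr
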