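import Pool.Agent.Lib.MP_1c1c61_pr.Noise

open Filter Topology NormedSpace Function

namespace Pool.Agent.Lib.MP_1c1c61_pr

set_option linter.unusedSectionVars false

/-- copy rates together with a (sub)invariant weight -/
structure Kern (V : Type*) [Fintype V] (θ Δ : ℝ) where
  κ : V → V → ℝ
  d : V → ℝ
  nonneg : ∀ v w, 0 ≤ κ v w
  row : ∀ v, ∑ w, κ v w = 1 - θ
  one_le : ∀ v, 1 ≤ d v
  le_del : ∀ v, d v ≤ Δ
  inv : ∀ w, ∑ v, d v * κ v w ≤ (1 - θ) * d w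

variable {V : Type*} [Fintype V] [DecidableEq V] {q : ℕ} {θ Δ : ℝ}

/-- the copying part of the generator -/
noncomputable def Cpart (K : Kern V θ Δ) : Op (V → Fin q) :=
  ∑ v, ∑ w, K.κ v w • (Cp v w - 1)

/-- the noise part of the generator -/
noncomputable def Npart (V : Type*) [Fintype V] [DecidableEq V] (θ : ℝ) : Op (V → Fin q) :=
  ∑ v : V, θ • (E v - 1)

/-- the generator -/
noncomputable def Lg (K : Kern V θ Δ) : Op (V → Fin q) := Npart V θ + Cpart K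

lemma psi_Cpart (K : Kern V θ Δ) (Ψ : ((V → Fin q) → ℝ) →ₗ[ℝ] ℝ) (f : (V → Fin q) → ℝ) :
    Ψ (Cpart K f) = ∑ v, ∑ w, K.κ v w * Ψ (Cp v w f) - (1 - θ) * Fintype.card V * Ψ f := by
  unfold Cpart
  have h1 : (∑ v, ∑ w, K.κ v w • (Cp v w - 1) : Op (V → Fin q)) f =
      ∑ v, ∑ w, K.κ v w • (Cp v w f - f) := by
    rw [_root_.sum_apply]
    refine Finset.sum_congr rfl fun v _ => ?_
    rw [_root_.sum_apply]
    refine Finset.sum_congr rfl fun w _ => ?_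
    simp
  rw [h1, map_sum]
  have h2 : ∀ v, Ψ (∑ w, K.κ v w • (Cp v w f - f)) =
      ∑ w, K.κ v w * Ψ (Cp v w f) - (1 - θ) * Ψ f := by
    intro v
    rw [map_sum, ← K.row v, Finset.sum_mul, ← Finset.sum_sub_distrib]
    refine Finset.sum_congr rfl fun w _ => ?_
    rw [map_smul, map_sub, smul_eq_mul]; ring
  simp_rw [h2]
  rw [Finset.sum_sub_distrib, Finset.sum_const, Finset.card_univ, nsmul_eq_mul]
  ring

lemma psi_Npart (Ψ : ((V → Fin q) → ℝ) →ₗ[ℝ] ℝ) (f : (V → Fin q) → ℝ) :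
    Ψ (Npart V θ f) = θ * ∑ v, Ψ (E v f) - θ * Fintype.card V * Ψ f := by
  unfold Npart
  have h1 : (∑ v, θ • (E v - 1) : Op (V → Fin q)) f = ∑ v, θ • (E v f - f) := by
    rw [_root_.sum_apply]
    refine Finset.sum_congr rfl fun v _ => ?_
    simp
  rw [h1, map_sum]
  have h2 : ∀ v, Ψ (θ • (E v f - f)) = θ * Ψ (E v f) - θ * Ψ f := by
    intro v
    rw [map_smul, map_sub, smul_eq_mul]; ring
  simp_rw [h2]
  rw [Finset.sum_sub_distrib, Finset.sum_const, Finset.card_univ, nsmul_eq_mul, ← Finset.mul_sum]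
  ring

/-! ### phase two -/

lemma sum_cpSet_le (v w : V) (A : Finset V) (g : V → ℝ) (hg : ∀ u, 0 ≤ g u) :
    ∑ u ∈ cpSet v w A, g u ≤ ∑ u ∈ A, g u + (if v ∈ A then g w - g v else 0) := by
  unfold cpSet
  split_ifs with h
  · have h1 : ∑ u ∈ insert w (A.erase v), g u ≤ g w + ∑ u ∈ A.erase v, g u := by
      by_cases hw : w ∈ A.erase v
      · rw [Finset.insert_eq_of_mem hw]; linarith [hg w]
      · rw [Finset.sum_insert hw]
    have h2 := Finset.add_sum_erase A g h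
    linarith
  · simp

lemma phase2_step [NeZero q] (K : Kern V θ Δ) (hθ0 : 0 ≤ θ) (Ψ : ((V → Fin q) → ℝ) →ₗ[ℝ] ℝ)
    {κ0 : ℝ} {g : V → ℝ} (hg : ∀ v, 0 ≤ g v)
    (H : ∀ (A : Finset V) (f : (V → Fin q) → ℝ), (∀ x, |f x| ≤ 1) → DependsOn f A →
      Ψ f ≤ κ0 + ∑ v ∈ A, g v) {δ : ℝ} (hδ : 0 ≤ δ) (hδ1 : δ * Fintype.card V ≤ 1)
    (A : Finset V) (f : (V → Fin q) → ℝ) (hf : ∀ x, |f x| ≤ 1) (hfA : DependsOn f A) :
    Ψ ((1 + δ • Lg K : Op (V → Fin q)) f) ≤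
      κ0 + ∑ v ∈ A, ((1 - δ) * g v + δ * ∑ w, K.κ v w * g w) := by
  set n : ℝ := (Fintype.card V : ℝ) with hn
  have e1 : Ψ ((1 + δ • Lg K : Op (V → Fin q)) f) =
      (1 - δ * n) * Ψ f + δ * (θ * ∑ v, Ψ (E v f) + ∑ v, ∑ w, K.κ v w * Ψ (Cp v w f)) := by
    have : (1 + δ • Lg K : Op (V → Fin q)) f = f + δ • (Npart V θ f + Cpart K f) := by
      simp [Lg]
    rw [this, map_add, map_smul, map_add, psi_Npart, psi_Cpart, smul_eq_mul, ← hn]
    ring
  have hE : ∀ v, Ψ (E v f) ≤ κ0 + ∑ u ∈ A, g u - (if v ∈ A then g v else 0) := by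
    intro v
    have h1 := H (A.erase v) (E v f) ((isMarkov_E v).abs_le hf) (dependsOn_E_erase hfA v)
    split_ifs with h
    · have h2 := Finset.add_sum_erase A g h
      linarith
    · rw [Finset.erase_eq_of_notMem h] at h1; linarith
  have hC : ∀ v w, Ψ (Cp v w f) ≤ κ0 + ∑ u ∈ A, g u + (if v ∈ A then g w - g v else 0) := by
    intro v w
    have h1 := H (cpSet v w A) (Cp v w f) ((isMarkov_Cp v w).abs_le hf) (dependsOn_Cp hfA v w)
    have h2 := sum_cpSet_le v w A g hg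
    linarith
  have h0 := H A f hf hfA
  set S := ∑ u ∈ A, g u with hS
  have hE' : ∑ v, Ψ (E v f) ≤ n * (κ0 + S) - S := by
    calc ∑ v, Ψ (E v f) ≤ ∑ v, (κ0 + S - (if v ∈ A then g v else 0)) :=
          Finset.sum_le_sum fun v _ => hE v
      _ = n * (κ0 + S) - S := by
          rw [Finset.sum_sub_distrib, Finset.sum_const, Finset.card_univ, nsmul_eq_mul,
            Finset.sum_ite_mem, Finset.univ_inter]
  have hC' : ∑ v, ∑ w, K.κ v w * Ψ (Cp v w f) ≤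
      (1 - θ) * n * (κ0 + S) + ∑ v ∈ A, (∑ w, K.κ v w * g w - (1 - θ) * g v) := by
    have h3 : ∀ v, ∑ w, K.κ v w * Ψ (Cp v w f) ≤ (1 - θ) * (κ0 + S) +
        (if v ∈ A then ∑ w, K.κ v w * g w - (1 - θ) * g v else 0) := by
      intro v
      calc ∑ w, K.κ v w * Ψ (Cp v w f)
          ≤ ∑ w, K.κ v w * (κ0 + S + (if v ∈ A then g w - g v else 0)) :=
            Finset.sum_le_sum fun w _ => mul_le_mul_of_nonneg_left (hC v w) (K.nonneg v w)
        _ = (∑ w, K.κ v w) * (κ0 + S) +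
            (if v ∈ A then ∑ w, K.κ v w * g w - (∑ w, K.κ v w) * g v else 0) := by
            split_ifs
            · rw [Finset.sum_mul, Finset.sum_mul, ← Finset.sum_sub_distrib,
                ← Finset.sum_add_distrib]
              exact Finset.sum_congr rfl fun w _ => by ring
            · simp only [add_zero]
              rw [Finset.sum_mul]
        _ = _ := by rw [K.row v]
    calc ∑ v, ∑ w, K.κ v w * Ψ (Cp v w f)
        ≤ ∑ v, ((1 - θ) * (κ0 + S) +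
          (if v ∈ A then ∑ w, K.κ v w * g w - (1 - θ) * g v else 0)) :=
          Finset.sum_le_sum fun v _ => h3 v
      _ = _ := by
          rw [Finset.sum_add_distrib, Finset.sum_const, Finset.card_univ, nsmul_eq_mul,
            Finset.sum_ite_mem, Finset.univ_inter]
          ring
  rw [e1]
  have h4 : (1 - δ * n) * Ψ f ≤ (1 - δ * n) * (κ0 + S) :=
    mul_le_mul_of_nonneg_left h0 (by linarith)
  have h5 : δ * (θ * ∑ v, Ψ (E v f) + ∑ v, ∑ w, K.κ v w * Ψ (Cp v w f)) ≤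
      δ * (θ * (n * (κ0 + S) - S) + ((1 - θ) * n * (κ0 + S) +
        ∑ v ∈ A, (∑ w, K.κ v w * g w - (1 - θ) * g v))) := by
    refine mul_le_mul_of_nonneg_left (add_le_add (mul_le_mul_of_nonneg_left hE' hθ0) hC') hδ
  have h6 : ∑ v ∈ A, ((1 - δ) * g v + δ * ∑ w, K.κ v w * g w) =
      (1 - δ) * S + δ * ∑ v ∈ A, ∑ w, K.κ v w * g w := by
    rw [Finset.sum_add_distrib, ← Finset.mul_sum, ← Finset.mul_sum]
  have h7 : ∑ v ∈ A, (∑ w, K.κ v w * g w - (1 - θ) * g v) =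
      ∑ v ∈ A, ∑ w, K.κ v w * g w - (1 - θ) * S := by
    rw [Finset.sum_sub_distrib, ← Finset.mul_sum]
  rw [h7] at h5
  rw [h6]
  linarith

/-- iterated step function for phase two -/
noncomputable def g2 (K : Kern V θ Δ) (δ : ℝ) (g : V → ℝ) : V → ℝ :=
  fun v => (1 - δ) * g v + δ * ∑ w, K.κ v w * g w

lemma g2_nonneg (K : Kern V θ Δ) {δ : ℝ} (hδ : 0 ≤ δ) (hδ1 : δ ≤ 1) {g : V → ℝ}
    (hg : ∀ v, 0 ≤ g v) (v : V) : 0 ≤ g2 K δ g v := by
  unfold g2
  have h1 : 0 ≤ ∑ w, K.κ v w * g w :=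
    Finset.sum_nonneg fun w _ => mul_nonneg (K.nonneg v w) (hg w)
  have h2 := hg v
  have : 0 ≤ 1 - δ := by linarith
  positivity

lemma g2_pot (K : Kern V θ Δ) {δ : ℝ} (hδ : 0 ≤ δ) {g : V → ℝ} (hg : ∀ v, 0 ≤ g v) :
    ∑ v, K.d v * g2 K δ g v ≤ (1 - θ * δ) * ∑ v, K.d v * g v := by
  unfold g2
  have h1 : ∑ v, K.d v * ((1 - δ) * g v + δ * ∑ w, K.κ v w * g w) =
      (1 - δ) * ∑ v, K.d v * g v + δ * ∑ w, (∑ v, K.d v * K.κ v w) * g w := by
    rw [Finset.mul_sum, Finset.mul_sum]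
    have : ∑ w, δ * ((∑ v, K.d v * K.κ v w) * g w) = ∑ v, δ * (K.d v * ∑ w, K.κ v w * g w) := by
      rw [← Finset.mul_sum, ← Finset.mul_sum]
      congr 1
      simp_rw [Finset.sum_mul, Finset.mul_sum]
      rw [Finset.sum_comm]
      exact Finset.sum_congr rfl fun v _ => Finset.sum_congr rfl fun w _ => by ring
    rw [this, ← Finset.sum_add_distrib]
    exact Finset.sum_congr rfl fun v _ => by ring
  rw [h1]
  have h2 : ∑ w, (∑ v, K.d v * K.κ v w) * g w ≤ (1 - θ) * ∑ w, K.d w * g w := by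
    rw [Finset.mul_sum]
    refine Finset.sum_le_sum fun w _ => ?_
    rw [← mul_assoc]
    exact mul_le_mul_of_nonneg_right (K.inv w) (hg w)
  have h3 := mul_le_mul_of_nonneg_left h2 hδ
  linarith

lemma card_pos_or (V : Type*) [Fintype V] [Nonempty V] : (1 : ℝ) ≤ Fintype.card V := by
  exact_mod_cast Fintype.card_pos

/-- phase two, iterated -/
lemma phase2_ex [NeZero q] [Nonempty V] (K : Kern V θ Δ) (hθ0 : 0 ≤ θ) (hθ1 : θ ≤ 1)
    (Ψ : ((V → Fin q) → ℝ) →ₗ[ℝ] ℝ) {κ0 : ℝ} {g : V → ℝ} (hg : ∀ v, 0 ≤ g v)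
    (H : ∀ (A : Finset V) (f : (V → Fin q) → ℝ), (∀ x, |f x| ≤ 1) → DependsOn f A →
      Ψ f ≤ κ0 + ∑ v ∈ A, g v) {δ : ℝ} (hδ : 0 ≤ δ) (hδ1 : δ * Fintype.card V ≤ 1) (m : ℕ) :
    ∃ a : V → ℝ, (∀ v, 0 ≤ a v) ∧
      (∑ v, K.d v * a v ≤ (1 - θ * δ) ^ m * ∑ v, K.d v * g v) ∧
      (∀ (A : Finset V) (f : (V → Fin q) → ℝ), (∀ x, |f x| ≤ 1) → DependsOn f A →
        Ψ (((1 + δ • Lg K : Op (V → Fin q)) ^ m) f) ≤ κ0 + ∑ v ∈ A, a v) := by
  have hcard := card_pos_or V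
  have hδ2 : δ ≤ 1 := by nlinarith
  have hθδ : 0 ≤ 1 - θ * δ := by nlinarith
  induction m with
  | zero => exact ⟨g, by simpa using hg, by simp, by simpa using H⟩
  | succ m ih =>
    obtain ⟨a, i1, i2, i3⟩ := ih
    refine ⟨g2 K δ a, ?_, ?_, ?_⟩
    · intro v
      exact g2_nonneg K hδ hδ2 i1 v
    · refine (g2_pot K hδ i1).trans ?_
      rw [pow_succ']
      rw [mul_assoc]
      exact mul_le_mul_of_nonneg_left i2 hθδ
    · intro A f hf hfA
      have := phase2_step K hθ0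
        (Ψ ∘ₗ (((1 + δ • Lg K : Op (V → Fin q)) ^ m : Op (V → Fin q)) :
          ((V → Fin q) → ℝ) →ₗ[ℝ] ((V → Fin q) → ℝ))) i1 (by
          intro A f hf hfA
          exact i3 A f hf hfA) hδ hδ1 A f hf hfA
      rw [pow_succ, mul_apply_eq_comp]
      exact this

lemma phase2 [NeZero q] [Nonempty V] (K : Kern V θ Δ) (hθ0 : 0 ≤ θ) (hθ1 : θ ≤ 1)
    (Ψ : ((V → Fin q) → ℝ) →ₗ[ℝ] ℝ) {κ0 : ℝ} {g : V → ℝ} (hg : ∀ v, 0 ≤ g v)
    (H : ∀ (A : Finset V) (f : (V → Fin q) → ℝ), (∀ x, |f x| ≤ 1) → DependsOn f A →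
      Ψ f ≤ κ0 + ∑ v ∈ A, g v) {δ : ℝ} (hδ : 0 ≤ δ) (hδ1 : δ * Fintype.card V ≤ 1) (m : ℕ)
    (f : (V → Fin q) → ℝ) (hf : ∀ x, |f x| ≤ 1) :
    Ψ (((1 + δ • Lg K : Op (V → Fin q)) ^ m) f) ≤ κ0 + (1 - θ * δ) ^ m * ∑ v, K.d v * g v := by
  obtain ⟨a, i1, i2, i3⟩ := phase2_ex K hθ0 hθ1 Ψ hg H hδ hδ1 m
  have h1 := i3 Finset.univ f hf (fun x y hxy => by
    have : x = y := funext fun i => hxy i (by simp)
    rw [this])
  refine h1.trans ?_
  have h2 : ∑ v, a v ≤ ∑ v, K.d v * a v := by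
    refine Finset.sum_le_sum fun v _ => ?_
    have := K.one_le v
    nlinarith [i1 v]
  linarith

/-! ### phase one -/

/-- the class of functions `T_a k` with `k` bounded by one and depending on `A` only -/
def Cl (l : List V) (r : ℝ) (A : Finset V) (a : V → ℕ) (f : (V → Fin q) → ℝ) : Prop :=
  ∃ k : (V → Fin q) → ℝ, (∀ x, |k x| ≤ 1) ∧ DependsOn k A ∧
    f = (Tl l (fun v => r ^ a v) : Op (V → Fin q)) k

/-- reset the ages of `v` and `w` -/
def reset (a : V → ℕ) (v w : V) : V → ℕ := fun u => if u = v ∨ u = w then 0 else a u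

lemma Cl_zero (l : List V) (r : ℝ) {A : Finset V} {f : (V → Fin q) → ℝ} (hf : ∀ x, |f x| ≤ 1)
    (hfA : DependsOn f A) : Cl l r A (fun _ => 0) f := by
  refine ⟨f, hf, hfA, ?_⟩
  have : ∀ l : List V, (Tl l (fun _ => r ^ 0) : Op (V → Fin q)) = 1 := by
    intro l
    induction l with
    | nil => rfl
    | cons u l ih => rw [Tl_cons, ih, pow_zero, N_one, one_mul]
  rw [this]; rfl

lemma Cl_noise [NeZero q] (l : List V) {r : ℝ} {A : Finset V} {a : V → ℕ}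
    {f : (V → Fin q) → ℝ} (hf : Cl l r A a f) :
    Cl l r A (fun u => a u + 1) ((Tl l (fun _ => r) : Op (V → Fin q)) f) := by
  obtain ⟨k, hk, hkA, rfl⟩ := hf
  refine ⟨k, hk, hkA, ?_⟩
  rw [← mul_apply_eq_comp, Tl_mul]
  congr 2
  ext v
  rw [pow_succ']

lemma Cl_copy [NeZero q] (l : List V) {r : ℝ} (hr0 : 0 ≤ r) (hr1 : r ≤ 1) {A : Finset V}
    {a : V → ℕ} {f : (V → Fin q) → ℝ} (hf : Cl l r A a f) (v w : V) :
    Cl l r (cpSet v w A) (reset a v w) (Cp v w f) := by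
  obtain ⟨k, hk, hkA, rfl⟩ := hf
  set ρon : V → ℝ := fun u => if u = v ∨ u = w then r ^ a u else 1 with hon
  set ρoff : V → ℝ := fun u => r ^ (reset a v w u) with hoff
  have h1 : (fun u => r ^ a u) = fun u => ρoff u * ρon u := by
    ext u
    simp only [hon, hoff, reset]
    split_ifs <;> simp
  have h2 : (Tl l (fun u => r ^ a u) : Op (V → Fin q)) = Tl l ρoff * Tl l ρon := by
    rw [Tl_mul, h1]
  have hv : ρoff v = 1 := by simp [hoff, reset]
  have hw : ρoff w = 1 := by simp [hoff, reset]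
  have hρ0 : ∀ u, 0 ≤ ρon u := by
    intro u; simp only [hon]; split_ifs <;> positivity
  have hρ1 : ∀ u, ρon u ≤ 1 := by
    intro u; simp only [hon]; split_ifs
    · exact pow_le_one₀ hr0 hr1
    · exact le_rfl
  refine ⟨Cp v w ((Tl l ρon : Op (V → Fin q)) k), ?_, ?_, ?_⟩
  · exact (isMarkov_Cp v w).abs_le ((isMarkov_Tl l hρ0 hρ1).abs_le hk)
  · exact dependsOn_Cp (dependsOn_Tl l ρon hkA) v w
  · rw [h2, mul_apply_eq_comp, ← mul_apply_eq_comp, ← (Tl_Cp_comm l ρoff hv hw).eq]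
    rfl

lemma sum_cpSet_age_le (v w : V) (A : Finset V) (a : V → ℕ) (γ : V → ℕ → ℝ)
    (hγ : ∀ u j, 0 ≤ γ u j) :
    ∑ u ∈ cpSet v w A, γ u (reset a v w u + 1) ≤ ∑ u ∈ A, γ u (a u + 1) +
      ((if v ∈ A then γ w 1 else 0) + (if w ∈ A then γ w 1 else 0)) := by
  have hle : ∀ u, u ≠ w → u ≠ v → γ u (reset a v w u + 1) = γ u (a u + 1) := by
    intro u h1 h2
    simp [reset, h1, h2]
  have hrw : γ w (reset a v w w + 1) = γ w 1 := by simp [reset]
  -- bound sum over any B ⊆ A \ {v}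
  have key : ∀ B : Finset V, B ⊆ A → v ∉ B → w ∉ B →
      ∑ u ∈ B, γ u (reset a v w u + 1) ≤ ∑ u ∈ A, γ u (a u + 1) := by
    intro B hB hv hw
    calc ∑ u ∈ B, γ u (reset a v w u + 1) = ∑ u ∈ B, γ u (a u + 1) :=
          Finset.sum_congr rfl fun u hu => hle u (fun h => hw (h ▸ hu)) (fun h => hv (h ▸ hu))
      _ ≤ ∑ u ∈ A, γ u (a u + 1) :=
          Finset.sum_le_sum_of_subset_of_nonneg hB fun u _ _ => hγ u _
  unfold cpSet
  by_cases hvA : v ∈ A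
  · rw [if_pos hvA, if_pos hvA]
    have h0 : 0 ≤ (if w ∈ A then γ w 1 else 0) := by
      split_ifs
      · exact hγ _ _
      · exact le_rfl
    have h1 : ∑ u ∈ insert w (A.erase v), γ u (reset a v w u + 1) =
        γ w 1 + ∑ u ∈ (A.erase v).erase w, γ u (reset a v w u + 1) := by
      have : insert w (A.erase v) = insert w ((A.erase v).erase w) := by
        ext u; simp only [Finset.mem_insert, Finset.mem_erase]; tauto
      rw [this, Finset.sum_insert (Finset.notMem_erase _ _), hrw]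
    rw [h1]
    have h2 := key ((A.erase v).erase w)
      ((Finset.erase_subset _ _).trans (Finset.erase_subset _ _))
      (fun h => by simp at h) (Finset.notMem_erase _ _)
    linarith
  · rw [if_neg hvA, if_neg hvA]
    by_cases hwA : w ∈ A
    · rw [if_pos hwA]
      have h1 : ∑ u ∈ A, γ u (reset a v w u + 1) =
          γ w 1 + ∑ u ∈ A.erase w, γ u (reset a v w u + 1) := by
        rw [← Finset.add_sum_erase A _ hwA, hrw]
      rw [h1]
      have h2 := key (A.erase w) (Finset.erase_subset _ _)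
        (fun h => hvA (Finset.mem_of_mem_erase h)) (Finset.notMem_erase _ _)
      linarith
    · rw [if_neg hwA]
      have h2 := key A subset_rfl hvA hwA
      linarith

/-- one discretised step: noise, then copying -/
noncomputable def Md (K : Kern V θ Δ) (l : List V) (δ : ℝ) : Op (V → Fin q) :=
  Tl l (fun _ => 1 - θ * δ) * (1 + δ • Cpart K)

/-- step function for phase one -/
noncomputable def g1 (K : Kern V θ Δ) (δ : ℝ) (γ : V → ℕ → ℝ) : V → ℕ → ℝ :=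
  fun v j => γ v (j + 1) + δ * (∑ w, K.κ v w * γ w 1 + γ v 1 * ∑ u, K.κ u v)

lemma phase1_step [NeZero q] (K : Kern V θ Δ) (l : List V) (hθ0 : 0 ≤ θ) (hθ1 : θ ≤ 1)
    (Ψ : ((V → Fin q) → ℝ) →ₗ[ℝ] ℝ) {κ0 : ℝ} {γ : V → ℕ → ℝ} (hγ : ∀ v j, 0 ≤ γ v j)
    {δ : ℝ} (hδ : 0 ≤ δ) (hδ1 : δ * Fintype.card V ≤ 1) (hδ2 : δ ≤ 1)
    (H : ∀ (A : Finset V) (a : V → ℕ) (f : (V → Fin q) → ℝ), Cl l (1 - θ * δ) A a f →
      Ψ f ≤ κ0 + ∑ v ∈ A, γ v (a v))
    (A : Finset V) (a : V → ℕ) (f : (V → Fin q) → ℝ) (hf : Cl l (1 - θ * δ) A a f) :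
    Ψ ((Md K l δ : Op (V → Fin q)) f) ≤ κ0 + ∑ v ∈ A, g1 K δ γ v (a v) := by
  set n : ℝ := (Fintype.card V : ℝ) with hn
  set r : ℝ := 1 - θ * δ with hr
  have hr0 : 0 ≤ r := by rw [hr]; nlinarith
  have hr1 : r ≤ 1 := by rw [hr]; nlinarith
  set Ψ' : ((V → Fin q) → ℝ) →ₗ[ℝ] ℝ := Ψ ∘ₗ ((Tl l (fun _ => r) : Op (V → Fin q)) :
    ((V → Fin q) → ℝ) →ₗ[ℝ] ((V → Fin q) → ℝ)) with hΨ'
  have hΨ'a : ∀ f, Ψ' f = Ψ ((Tl l (fun _ => r) : Op (V → Fin q)) f) := fun f => rfl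
  have e1 : Ψ ((Md K l δ : Op (V → Fin q)) f) =
      (1 - δ * ((1 - θ) * n)) * Ψ' f + δ * ∑ v, ∑ w, K.κ v w * Ψ' (Cp v w f) := by
    have h1 : (Md K l δ : Op (V → Fin q)) f =
        (Tl l (fun _ => r) : Op (V → Fin q)) (f + δ • Cpart K f) := by
      unfold Md
      rw [mul_apply_eq_comp]
      simp [hr]
    rw [h1, ← hΨ'a, map_add, map_smul, psi_Cpart, smul_eq_mul, ← hn]
    ring
  set S := ∑ u ∈ A, γ u (a u + 1) with hS
  have h0 : Ψ' f ≤ κ0 + S := by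
    rw [hΨ'a]; exact H A _ _ (Cl_noise l hf)
  have hC : ∀ v w, Ψ' (Cp v w f) ≤ κ0 + S + ((if v ∈ A then γ w 1 else 0) +
      (if w ∈ A then γ w 1 else 0)) := by
    intro v w
    rw [hΨ'a]
    have h1 := H _ _ _ (Cl_noise l (Cl_copy l hr0 hr1 hf v w))
    have h2 := sum_cpSet_age_le v w A a γ hγ
    linarith
  have hC' : ∑ v, ∑ w, K.κ v w * Ψ' (Cp v w f) ≤
      (1 - θ) * n * (κ0 + S) + (∑ v ∈ A, ∑ w, K.κ v w * γ w 1
        + ∑ w ∈ A, γ w 1 * ∑ v, K.κ v w) := by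
    calc ∑ v, ∑ w, K.κ v w * Ψ' (Cp v w f)
        ≤ ∑ v, ∑ w, K.κ v w * (κ0 + S + ((if v ∈ A then γ w 1 else 0) +
            (if w ∈ A then γ w 1 else 0))) :=
          Finset.sum_le_sum fun v _ => Finset.sum_le_sum fun w _ =>
            mul_le_mul_of_nonneg_left (hC v w) (K.nonneg v w)
      _ = ∑ v, ((∑ w, K.κ v w) * (κ0 + S)) + (∑ v, (if v ∈ A then ∑ w, K.κ v w * γ w 1 else 0)
            + ∑ v, ∑ w, K.κ v w * (if w ∈ A then γ w 1 else 0)) := by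
          rw [← Finset.sum_add_distrib, ← Finset.sum_add_distrib]
          refine Finset.sum_congr rfl fun v _ => ?_
          split_ifs
          · rw [Finset.sum_mul, ← Finset.sum_add_distrib, ← Finset.sum_add_distrib]
            exact Finset.sum_congr rfl fun w _ => by ring
          · rw [Finset.sum_mul, zero_add, ← Finset.sum_add_distrib]
            exact Finset.sum_congr rfl fun w _ => by ring
      _ = _ := by
          simp_rw [K.row]
          rw [Finset.sum_const, Finset.card_univ, nsmul_eq_mul, Finset.sum_ite_mem,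
            Finset.univ_inter]
          congr 1
          · ring
          congr 1
          rw [Finset.sum_comm]
          have : ∀ w, ∑ v, K.κ v w * (if w ∈ A then γ w 1 else 0) =
              if w ∈ A then γ w 1 * ∑ v, K.κ v w else 0 := by
            intro w
            split_ifs
            · rw [Finset.mul_sum]; exact Finset.sum_congr rfl fun v _ => by ring
            · simp
          simp_rw [this]
          rw [Finset.sum_ite_mem, Finset.univ_inter]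
  rw [e1]
  have hn0 : 0 ≤ n := by positivity
  have h3 : 0 ≤ 1 - δ * ((1 - θ) * n) := by
    have : δ * ((1 - θ) * n) = (1 - θ) * (δ * n) := by ring
    rw [this]
    nlinarith [mul_nonneg hδ hn0]
  have h4 := mul_le_mul_of_nonneg_left h0 h3
  have h5 := mul_le_mul_of_nonneg_left hC' hδ
  have h6 : ∑ v ∈ A, g1 K δ γ v (a v) = S + δ * (∑ v ∈ A, ∑ w, K.κ v w * γ w 1
        + ∑ w ∈ A, γ w 1 * ∑ v, K.κ v w) := by
    unfold g1
    rw [Finset.sum_add_distrib, ← Finset.mul_sum, Finset.sum_add_distrib]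
  rw [h6]
  linarith

lemma g1_nonneg (K : Kern V θ Δ) {δ : ℝ} (hδ : 0 ≤ δ) {γ : V → ℕ → ℝ}
    (hγ : ∀ v j, 0 ≤ γ v j) (v : V) (j : ℕ) : 0 ≤ g1 K δ γ v j := by
  unfold g1
  have h1 : 0 ≤ ∑ w, K.κ v w * γ w 1 :=
    Finset.sum_nonneg fun w _ => mul_nonneg (K.nonneg v w) (hγ w 1)
  have h2 : 0 ≤ ∑ u, K.κ u v := Finset.sum_nonneg fun u _ => K.nonneg u v
  have h3 := hγ v (j + 1)
  have h4 := hγ v 1
  positivity

lemma g1_pot (K : Kern V θ Δ) (hθ1 : θ ≤ 1) {δ : ℝ} (hδ : 0 ≤ δ) {γ : V → ℕ → ℝ}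
    (hγ : ∀ v j, 0 ≤ γ v j) (j : ℕ) :
    ∑ v, K.d v * g1 K δ γ v j ≤ ∑ v, K.d v * γ v (j + 1) +
      δ * ((1 - θ) * (1 + Δ)) * ∑ v, K.d v * γ v 1 := by
  unfold g1
  have h1 : ∑ v, K.d v * (γ v (j + 1) + δ * (∑ w, K.κ v w * γ w 1 + γ v 1 * ∑ u, K.κ u v)) =
      ∑ v, K.d v * γ v (j + 1) + δ * (∑ w, (∑ v, K.d v * K.κ v w) * γ w 1 +
        ∑ v, (K.d v * γ v 1) * ∑ u, K.κ u v) := by
    have e1 : ∑ w, (∑ v, K.d v * K.κ v w) * γ w 1 = ∑ v, K.d v * ∑ w, K.κ v w * γ w 1 := by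
      simp_rw [Finset.sum_mul, Finset.mul_sum]
      rw [Finset.sum_comm]
      exact Finset.sum_congr rfl fun v _ => Finset.sum_congr rfl fun w _ => by ring
    rw [e1, mul_add, Finset.mul_sum, Finset.mul_sum, ← Finset.sum_add_distrib,
      ← Finset.sum_add_distrib]
    exact Finset.sum_congr rfl fun v _ => by ring
  rw [h1]
  have h2 : ∑ w, (∑ v, K.d v * K.κ v w) * γ w 1 ≤ (1 - θ) * ∑ w, K.d w * γ w 1 := by
    rw [Finset.mul_sum]
    refine Finset.sum_le_sum fun w _ => ?_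
    rw [← mul_assoc]
    exact mul_le_mul_of_nonneg_right (K.inv w) (hγ w 1)
  have h3 : ∑ v, (K.d v * γ v 1) * ∑ u, K.κ u v ≤ (1 - θ) * Δ * ∑ v, K.d v * γ v 1 := by
    rw [Finset.mul_sum]
    refine Finset.sum_le_sum fun v _ => ?_
    have hcol : ∑ u, K.κ u v ≤ (1 - θ) * Δ := by
      calc ∑ u, K.κ u v ≤ ∑ u, K.d u * K.κ u v := by
            refine Finset.sum_le_sum fun u _ => ?_
            have := K.one_le u
            nlinarith [K.nonneg u v]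
        _ ≤ (1 - θ) * K.d v := K.inv v
        _ ≤ (1 - θ) * Δ := mul_le_mul_of_nonneg_left (K.le_del v) (by linarith)
    have hd0 : 0 ≤ K.d v * γ v 1 := mul_nonneg (by linarith [K.one_le v]) (hγ v 1)
    calc K.d v * γ v 1 * ∑ u, K.κ u v ≤ K.d v * γ v 1 * ((1 - θ) * Δ) :=
          mul_le_mul_of_nonneg_left hcol hd0
      _ = (1 - θ) * Δ * (K.d v * γ v 1) := by ring
  have h4 := mul_le_mul_of_nonneg_left (add_le_add h2 h3) hδ
  linarith

/-- phase one, iterated -/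
lemma phase1 [NeZero q] [Nonempty V] (K : Kern V θ Δ) (l : List V) (hθ0 : 0 ≤ θ) (hθ1 : θ ≤ 1)
    (hΔ : 0 ≤ Δ)
    (Ψ : ((V → Fin q) → ℝ) →ₗ[ℝ] ℝ) {κ0 : ℝ} {γ : V → ℕ → ℝ} (hγ : ∀ v j, 0 ≤ γ v j)
    {δ : ℝ} (hδ : 0 ≤ δ) (hδ1 : δ * Fintype.card V ≤ 1)
    (H : ∀ (A : Finset V) (a : V → ℕ) (f : (V → Fin q) → ℝ), Cl l (1 - θ * δ) A a f →
      Ψ f ≤ κ0 + ∑ v ∈ A, γ v (a v))
    {B0 : ℝ} {χ : ℕ → ℝ} (hB0 : 0 ≤ B0) (hχ : ∀ j, 0 ≤ χ j)
    (hpot : ∀ j, ∑ v, K.d v * γ v j ≤ B0 * χ j) (m : ℕ) :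
    ∃ g : V → ℝ, (∀ v, 0 ≤ g v) ∧
      (∑ v, K.d v * g v ≤ B0 * ((1 + δ * ((1 - θ) * (1 + Δ))) ^ m *
        (χ m + δ * ((1 - θ) * (1 + Δ)) * ∑ i ∈ Finset.range m, χ (i + 1)))) ∧
      (∀ (A : Finset V) (f : (V → Fin q) → ℝ), (∀ x, |f x| ≤ 1) → DependsOn f A →
        Ψ (((Md K l δ : Op (V → Fin q)) ^ m) f) ≤ κ0 + ∑ v ∈ A, g v) := by
  have hcard := card_pos_or V
  have hδ2 : δ ≤ 1 := by nlinarith
  set C : ℝ := δ * ((1 - θ) * (1 + Δ)) with hC
  have hC0 : 0 ≤ C := by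
    have : 0 ≤ 1 - θ := by linarith
    positivity
  have main : ∀ m : ℕ, (∀ v j, 0 ≤ (g1 K δ)^[m] γ v j) ∧
      (∀ j, ∑ v, K.d v * (g1 K δ)^[m] γ v j ≤ B0 * ((1 + C) ^ m *
        (χ (m + j) + C * ∑ i ∈ Finset.range m, χ (i + 1)))) ∧
      (∀ (A : Finset V) (a : V → ℕ) (f : (V → Fin q) → ℝ), Cl l (1 - θ * δ) A a f →
        Ψ (((Md K l δ : Op (V → Fin q)) ^ m) f) ≤ κ0 + ∑ v ∈ A, (g1 K δ)^[m] γ v (a v)) := by
    intro m
    induction m with
    | zero => exact ⟨by simpa using hγ, fun j => by simpa using hpot j, by simpa using H⟩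
    | succ m ih =>
      obtain ⟨i1, i2, i3⟩ := ih
      refine ⟨?_, ?_, ?_⟩
      · intro v j
        rw [iterate_succ_apply']
        exact g1_nonneg K hδ i1 v j
      · intro j
        rw [iterate_succ_apply']
        refine (g1_pot K hθ1 hδ i1 j).trans ?_
        rw [← hC]
        have a1 := i2 (j + 1)
        have a2 := mul_le_mul_of_nonneg_left (i2 1) hC0
        refine (add_le_add a1 a2).trans ?_
        rw [Finset.sum_range_succ, pow_succ]
        set X := ∑ i ∈ Finset.range m, χ (i + 1) with hX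
        have hX0 : 0 ≤ X := Finset.sum_nonneg fun i _ => hχ _
        have e1 : m + (j + 1) = m + 1 + j := by ring
        rw [e1]
        have hP : 0 ≤ B0 * (1 + C) ^ m := by positivity
        have : (B0 * (1 + C) ^ m) * ((χ (m + 1 + j) + C * X) + C * (χ (m + 1) + C * X)) ≤
            (B0 * (1 + C) ^ m) * ((1 + C) * (χ (m + 1 + j) + C * (X + χ (m + 1)))) := by
          refine mul_le_mul_of_nonneg_left ?_ hP
          have b1 := hχ (m + 1 + j)
          have b2 := hχ (m + 1)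
          have b3 : 0 ≤ C * χ (m + 1 + j) := mul_nonneg hC0 b1
          have b4 : 0 ≤ C * (C * χ (m + 1)) := by positivity
          nlinarith
        calc B0 * ((1 + C) ^ m * (χ (m + 1 + j) + C * X)) +
              C * (B0 * ((1 + C) ^ m * (χ (m + 1) + C * X)))
            = (B0 * (1 + C) ^ m) * ((χ (m + 1 + j) + C * X) + C * (χ (m + 1) + C * X)) := by ring
          _ ≤ _ := this
          _ = _ := by ring
      · intro A a f hf
        have := phase1_step K l hθ0 hθ1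
          (Ψ ∘ₗ (((Md K l δ : Op (V → Fin q)) ^ m : Op (V → Fin q)) :
            ((V → Fin q) → ℝ) →ₗ[ℝ] ((V → Fin q) → ℝ))) i1 hδ hδ1 hδ2 (by
            intro A a f hf
            exact i3 A a f hf) A a f hf
        rw [pow_succ, mul_apply_eq_comp]
        rw [iterate_succ_apply']
        exact this
  obtain ⟨i1, i2, i3⟩ := main m
  refine ⟨fun v => (g1 K δ)^[m] γ v 0, fun v => i1 v 0, ?_, ?_⟩
  · simpa using i2 0
  · intro A f hf hfA
    exact i3 A (fun _ => 0) f (Cl_zero l _ hf hfA)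

end Pool.Agent.Lib.MP_1c1c61_pr
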