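import Pool.Agent.Lib.MP_1c1c61_pr.Grad

open Filter Topology NormedSpace Function

namespace Pool.Agent.Lib.MP_1c1c61_pr

set_option linter.unusedSectionVars false

variable {V : Type*} [Fintype V] [DecidableEq V] {q : ℕ} {θ Δ : ℝ}

/-- evaluation functional -/
noncomputable def ev (x : V → Fin q) : ((V → Fin q) → ℝ) →ₗ[ℝ] ℝ := LinearMap.proj x

@[simp] lemma ev_apply (x : V → Fin q) (f : (V → Fin q) → ℝ) : ev x f = f x := rfl

lemma Cpart_apply (K : Kern V θ Δ) (f : (V → Fin q) → ℝ) (x : V → Fin q) :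
    Cpart K f x = ∑ v, ∑ w, K.κ v w * f (update x v (x w)) - (1 - θ) * Fintype.card V * f x := by
  have := psi_Cpart K (ev x) f
  simpa using this

lemma Npart_apply (f : (V → Fin q) → ℝ) (x : V → Fin q) :
    Npart V θ f x = θ * ∑ v, E v f x - θ * Fintype.card V * f x := by
  have := psi_Npart (θ := θ) (ev x) f
  simpa using this

lemma sum_row (K : Kern V θ Δ) : ∑ v, ∑ w, K.κ v w = (1 - θ) * Fintype.card V := by
  simp_rw [K.row]
  rw [Finset.sum_const, Finset.card_univ, nsmul_eq_mul]; ring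

lemma isMarkov_Cstep [NeZero q] (K : Kern V θ Δ) (hθ0 : 0 ≤ θ) {δ : ℝ}
    (hδ : 0 ≤ δ) (hδ1 : δ * Fintype.card V ≤ 1) :
    IsMarkov (1 + δ • Cpart K : Op (V → Fin q)) := by
  refine ⟨?_, fun f hf x => ?_⟩
  · ext x
    have h1 : (1 + δ • Cpart K : Op (V → Fin q)) (fun _ => 1) x =
        1 + δ * Cpart K (fun _ => 1) x := by simp
    rw [h1, Cpart_apply]
    simp only [mul_one]
    rw [sum_row]; ring
  · have h1 : (1 + δ • Cpart K : Op (V → Fin q)) f x = f x + δ * Cpart K f x := by simp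
    rw [h1, Cpart_apply]
    have h2 : 0 ≤ ∑ v, ∑ w, K.κ v w * f (update x v (x w)) :=
      Finset.sum_nonneg fun v _ => Finset.sum_nonneg fun w _ => mul_nonneg (K.nonneg v w) (hf _)
    have h3 : 0 ≤ 1 - δ * ((1 - θ) * Fintype.card V) := by
      have : δ * ((1 - θ) * Fintype.card V) = (1 - θ) * (δ * Fintype.card V) := by ring
      rw [this]
      have : 0 ≤ δ * Fintype.card V := by positivity
      nlinarith
    have h4 := mul_nonneg h3 (hf x)
    have h5 := mul_nonneg hδ h2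
    nlinarith

lemma isMarkov_Lstep [NeZero q] (K : Kern V θ Δ) (hθ0 : 0 ≤ θ) {δ : ℝ}
    (hδ : 0 ≤ δ) (hδ1 : δ * Fintype.card V ≤ 1) :
    IsMarkov (1 + δ • Lg K : Op (V → Fin q)) := by
  have hE : ∀ v, IsMarkov (E v : Op (V → Fin q)) := fun v => isMarkov_E v
  refine ⟨?_, fun f hf x => ?_⟩
  · ext x
    have h1 : (1 + δ • Lg K : Op (V → Fin q)) (fun _ => 1) x =
        1 + δ * (Npart V θ (fun _ => 1) x + Cpart K (fun _ => 1) x) := by simp [Lg]; ring
    rw [h1, Cpart_apply, Npart_apply]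
    have h2 : ∀ v, E v (fun _ => (1 : ℝ)) x = 1 := fun v => congrFun (hE v).map_one x
    simp_rw [h2]
    simp only [mul_one]
    rw [sum_row, Finset.sum_const, Finset.card_univ, nsmul_eq_mul]; ring
  · have h1 : (1 + δ • Lg K : Op (V → Fin q)) f x =
        f x + δ * (Npart V θ f x + Cpart K f x) := by simp [Lg]; ring
    rw [h1, Cpart_apply, Npart_apply]
    have h2 : 0 ≤ ∑ v, ∑ w, K.κ v w * f (update x v (x w)) :=
      Finset.sum_nonneg fun v _ => Finset.sum_nonneg fun w _ => mul_nonneg (K.nonneg v w) (hf _)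
    have h2' : 0 ≤ θ * ∑ v, E v f x :=
      mul_nonneg hθ0 (Finset.sum_nonneg fun v _ => (hE v).nonneg f hf x)
    have h3 : 0 ≤ 1 - δ * Fintype.card V := by linarith
    have h4 := mul_nonneg h3 (hf x)
    have h5 := mul_nonneg hδ h2
    have h6 := mul_nonneg hδ h2'
    nlinarith

lemma eventually_Lstep [NeZero q] [Nonempty V] (K : Kern V θ Δ) (hθ0 : 0 ≤ θ) :
    ∀ᶠ δ in 𝓝[>] (0 : ℝ), IsMarkov (1 + δ • Lg K : Op (V → Fin q)) := by
  have hcard := card_pos_or V
  have h1 : Set.Ioo (0 : ℝ) (1 / Fintype.card V) ∈ 𝓝[>] (0 : ℝ) :=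
    Ioo_mem_nhdsGT (by positivity)
  filter_upwards [h1] with δ hδ
  refine isMarkov_Lstep K hθ0 hδ.1.le ?_
  have := hδ.2.le
  rwa [le_div_iff₀ (by linarith)] at this

lemma isMarkov_Md [NeZero q] (K : Kern V θ Δ) (hθ0 : 0 ≤ θ) (hθ1 : θ ≤ 1) (l : List V) {δ : ℝ}
    (hδ : 0 ≤ δ) (hδ1 : δ * Fintype.card V ≤ 1) (hδ2 : δ ≤ 1) :
    IsMarkov (Md K l δ : Op (V → Fin q)) := by
  unfold Md
  refine IsMarkov.mul (isMarkov_Tl l (fun _ => ?_) (fun _ => ?_)) (isMarkov_Cstep K hθ0 hδ hδ1)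
  · nlinarith
  · nlinarith

lemma hasDerivAt_Tl [NeZero q] (l : List V) :
    HasDerivAt (fun δ : ℝ => (Tl l (fun _ => 1 - θ * δ) : Op (V → Fin q)))
      (l.map fun v => θ • (E v - 1)).sum 0 := by
  induction l with
  | nil => simpa using hasDerivAt_const (0 : ℝ) (1 : Op (V → Fin q))
  | cons v l ih =>
    have h1 : HasDerivAt (fun δ : ℝ => (N v (1 - θ * δ) : Op (V → Fin q))) (θ • (E v - 1)) 0 := by
      have e1 : (fun δ : ℝ => (N v (1 - θ * δ) : Op (V → Fin q))) =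
          fun δ : ℝ => 1 + δ • (θ • (E v - 1)) := by
        ext1 δ
        unfold N
        module
      rw [e1]
      have := ((hasDerivAt_id (0 : ℝ)).smul_const (θ • (E v - 1) : Op (V → Fin q))).const_add
        (1 : Op (V → Fin q))
      simpa using this
    have h2 := h1.fun_mul ih
    have e0 : (Tl l (fun _ => 1 - θ * 0) : Op (V → Fin q)) = 1 := by
      clear h2 ih
      induction l with
      | nil => rfl
      | cons u l ih => rw [Tl_cons, ih, mul_zero, sub_zero, N_one, one_mul]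
    have e2 : (N v (1 - θ * 0) : Op (V → Fin q)) = 1 := by rw [mul_zero, sub_zero, N_one]
    simp only [e0, e2, mul_one, one_mul] at h2
    simpa [Tl_cons] using h2

lemma Md_zero [NeZero q] (K : Kern V θ Δ) (l : List V) : (Md K l 0 : Op (V → Fin q)) = 1 := by
  unfold Md
  rw [zero_smul, add_zero, mul_one]
  induction l with
  | nil => rfl
  | cons u l ih => rw [Tl_cons, ih, mul_zero, sub_zero, N_one, one_mul]

lemma hasDerivAt_Md [NeZero q] (K : Kern V θ Δ) :
    HasDerivAt (fun δ : ℝ => (Md K Finset.univ.toList δ : Op (V → Fin q))) (Lg K) 0 := by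
  have h1 := hasDerivAt_Tl (q := q) (θ := θ) (Finset.univ : Finset V).toList
  have h2 : HasDerivAt (fun δ : ℝ => (1 + δ • Cpart K : Op (V → Fin q))) (Cpart K) 0 := by
    have := ((hasDerivAt_id (0 : ℝ)).smul_const (Cpart K : Op (V → Fin q))).const_add
        (1 : Op (V → Fin q))
    simpa using this
  have h3 := h1.fun_mul h2
  have e0 : (Tl (Finset.univ : Finset V).toList (fun _ => 1 - θ * 0) : Op (V → Fin q)) = 1 := by
    have := Md_zero (q := q) K (Finset.univ : Finset V).toList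
    unfold Md at this
    rwa [zero_smul, add_zero, mul_one] at this
  have e1 : ((Finset.univ : Finset V).toList.map fun v => θ • (E v - 1 : Op (V → Fin q))).sum =
      Npart V θ := by
    unfold Npart
    rw [Finset.sum_map_toList]
  rw [e0, e1] at h3
  simpa [Lg, Md] using h3

lemma tendsto_Md [NeZero q] [Nonempty V] (K : Kern V θ Δ) (hθ0 : 0 ≤ θ) (hθ1 : θ ≤ 1) :
    Tendsto (fun m : ℕ => (Md K Finset.univ.toList (1 / m) : Op (V → Fin q)) ^ m) atTop
      (𝓝 (exp ((1 : ℝ) • Lg K))) := by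
  have hcard := card_pos_or V
  refine chernoff (A := fun δ => (Md K Finset.univ.toList δ : Op (V → Fin q))) ?_
    (Md_zero K _) (hasDerivAt_Md K) zero_le_one
  have h1 : Set.Ioo (0 : ℝ) (1 / Fintype.card V) ∈ 𝓝[>] (0 : ℝ) :=
    Ioo_mem_nhdsGT (by positivity)
  filter_upwards [h1] with δ hδ
  have h2 : δ * Fintype.card V ≤ 1 := by
    have := hδ.2.le
    rwa [le_div_iff₀ (by linarith)] at this
  refine (isMarkov_Md K hθ0 hθ1 _ hδ.1.le h2 ?_).norm_le_one
  nlinarith [hδ.1.le]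

lemma tendsto_Lstep [NeZero q] [Nonempty V] (K : Kern V θ Δ) (hθ0 : 0 ≤ θ) {t : ℝ} (ht : 0 ≤ t) :
    Tendsto (fun m : ℕ => (1 + (t / m) • Lg K : Op (V → Fin q)) ^ m) atTop
      (𝓝 (exp (t • Lg K))) := by
  refine chernoff (A := fun δ => (1 + δ • Lg K : Op (V → Fin q))) ?_ (by simp) ?_ ht
  · exact (eventually_Lstep K hθ0).mono fun δ h => h.norm_le_one
  · have := ((hasDerivAt_id (0 : ℝ)).smul_const (Lg K : Op (V → Fin q))).const_add
        (1 : Op (V → Fin q))
    simpa using this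

/-! ### the base inequality -/

/-- the gradient functional -/
noncomputable def Psi (b : V → ℝ) (c : V → Fin q) (x : V → Fin q) :
    ((V → Fin q) → ℝ) →ₗ[ℝ] ℝ :=
  ∑ v, b v • (ev (update x v (c v)) - ev x)

lemma Psi_apply (b : V → ℝ) (c : V → Fin q) (x : V → Fin q) (f : (V → Fin q) → ℝ) :
    Psi b c x f = ∑ v, b v * (f (update x v (c v)) - f x) := by
  simp [Psi]

/-- the weight -/
noncomputable def chi (r n : ℝ) (j : ℕ) : ℝ := (1 - r ^ j + 1 / n)⁻¹

lemma base_ineq [NeZero q] [Nonempty V] {r : ℝ} (hr0 : 0 ≤ r) (hr1 : r ≤ 1) (b : V → ℝ)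
    (c : V → Fin q) (x : V → Fin q) {lam : ℝ} (hlam : 0 < lam) (A : Finset V) (a : V → ℕ)
    (f : (V → Fin q) → ℝ) (hf : Cl Finset.univ.toList r A a f) :
    Psi b c x f ≤ (q + 2) / lam +
      ∑ v ∈ A, lam / 2 * b v ^ 2 * chi r (Fintype.card V) (a v) := by
  have hq : (0 : ℝ) < q := by exact_mod_cast Nat.pos_of_ne_zero (NeZero.ne q)
  have hcard := card_pos_or V
  set n : ℝ := (Fintype.card V : ℝ) with hn
  obtain ⟨k, hk, hkA, hfk⟩ := hf
  have hρ0 : ∀ v, 0 ≤ r ^ a v := fun v => pow_nonneg hr0 _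
  have hρ1 : ∀ v, r ^ a v ≤ 1 := fun v => pow_le_one₀ hr0 hr1
  have hM : IsMarkov (Tl (Finset.univ : Finset V).toList (fun v => r ^ a v) : Op (V → Fin q)) :=
    isMarkov_Tl _ hρ0 hρ1
  have hfA : DependsOn f A := by rw [hfk]; exact dependsOn_Tl _ _ hkA
  have hf1 : ∀ y, |f y| ≤ 1 := by rw [hfk]; exact hM.abs_le hk
  have hgr := grad_Tl (Finset.univ : Finset V).toList (Finset.nodup_toList _) hρ0 hρ1 k c x
  rw [← hfk, Finset.sum_map_toList] at hgr
  have hk2 : (Tl (Finset.univ : Finset V).toList (fun v => r ^ a v) : Op (V → Fin q))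
      (fun y => k y ^ 2) x ≤ 1 := by
    have := hM.mono (f := fun y => k y ^ 2) (g := fun _ => 1)
      (fun y => by
        have := hk y
        rw [← sq_abs]
        nlinarith [abs_nonneg (k y)]) x
    rwa [hM.map_const] at this
  set D : V → ℝ := fun v => f (update x v (c v)) - f x with hD
  have hD2 : ∀ v, D v ^ 2 ≤ 4 := by
    intro v
    have h1 := abs_le.mp (hf1 (update x v (c v)))
    have h2 := abs_le.mp (hf1 x)
    have h3 : |D v| ≤ 2 := by rw [abs_le]; constructor <;> simp only [hD] <;> linarith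
    rw [← sq_abs]; nlinarith [abs_nonneg (D v)]
  have hw : ∑ v, (1 - r ^ a v + 1 / n) * D v ^ 2 ≤ 2 * (q : ℝ) + 4 := by
    have h1 : ∑ v, (1 - r ^ a v) * D v ^ 2 ≤ 2 * (q : ℝ) := by
      have h2 : ∑ v, (1 - r ^ a v) / (2 * (q : ℝ)) * D v ^ 2 ≤ 1 := by
        refine hgr.trans ?_
        nlinarith [sq_nonneg (f x)]
      have h3 : ∑ v, (1 - r ^ a v) * D v ^ 2 =
          (2 * (q : ℝ)) * ∑ v, (1 - r ^ a v) / (2 * (q : ℝ)) * D v ^ 2 := by
        rw [Finset.mul_sum]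
        refine Finset.sum_congr rfl fun v _ => ?_
        field_simp
      rw [h3]
      nlinarith
    have h4 : ∑ v, 1 / n * D v ^ 2 ≤ 4 := by
      calc ∑ v, 1 / n * D v ^ 2 ≤ ∑ _v : V, 1 / n * 4 :=
            Finset.sum_le_sum fun v _ => mul_le_mul_of_nonneg_left (hD2 v) (by positivity)
        _ = 4 := by
            rw [Finset.sum_const, Finset.card_univ, nsmul_eq_mul, ← hn]; field_simp
    calc ∑ v, (1 - r ^ a v + 1 / n) * D v ^ 2
        = ∑ v, (1 - r ^ a v) * D v ^ 2 + ∑ v, 1 / n * D v ^ 2 := by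
          rw [← Finset.sum_add_distrib]; exact Finset.sum_congr rfl fun v _ => by ring
      _ ≤ 2 * (q : ℝ) + 4 := by linarith
  have hwpos : ∀ v, 0 < 1 - r ^ a v + 1 / n := by
    intro v
    have := hρ1 v
    have : 0 < 1 / n := by positivity
    linarith
  rw [Psi_apply]
  have hzero : ∀ v, v ∉ A → D v = 0 := by
    intro v hv
    simp only [hD]
    rw [sub_eq_zero]
    refine hfA fun i hi => ?_
    have : i ≠ v := fun h => hv (h ▸ hi)
    rw [update_of_ne this]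
  have hsum : ∑ v, b v * (f (update x v (c v)) - f x) = ∑ v ∈ A, b v * D v := by
    symm
    refine Finset.sum_subset (Finset.subset_univ A) fun v _ hv => ?_
    rw [hzero v hv, mul_zero]
  rw [hsum]
  have hterm : ∀ v, b v * D v ≤ lam / 2 * b v ^ 2 * chi r n (a v) +
      1 / (2 * lam) * ((1 - r ^ a v + 1 / n) * D v ^ 2) := by
    intro v
    set w := 1 - r ^ a v + 1 / n with hwdef
    have hw0 := hwpos v
    have hchi : chi r n (a v) = w⁻¹ := rfl
    rw [hchi]
    have h1 : 0 ≤ (lam * b v - w * D v) ^ 2 / (2 * lam * w) := by positivity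
    have h2 : (lam * b v - w * D v) ^ 2 / (2 * lam * w) =
        lam / 2 * b v ^ 2 * w⁻¹ + 1 / (2 * lam) * (w * D v ^ 2) - b v * D v := by
      have hw0' : w ≠ 0 := hw0.ne'
      field_simp
      ring
    linarith
  calc ∑ v ∈ A, b v * D v
      ≤ ∑ v ∈ A, (lam / 2 * b v ^ 2 * chi r n (a v) +
          1 / (2 * lam) * ((1 - r ^ a v + 1 / n) * D v ^ 2)) :=
        Finset.sum_le_sum fun v _ => hterm v
    _ = ∑ v ∈ A, lam / 2 * b v ^ 2 * chi r n (a v) +
        1 / (2 * lam) * ∑ v ∈ A, (1 - r ^ a v + 1 / n) * D v ^ 2 := by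
        rw [Finset.sum_add_distrib, ← Finset.mul_sum]
    _ ≤ ∑ v ∈ A, lam / 2 * b v ^ 2 * chi r n (a v) + 1 / (2 * lam) * (2 * (q : ℝ) + 4) := by
        have h1 : ∑ v ∈ A, (1 - r ^ a v + 1 / n) * D v ^ 2 ≤
            ∑ v, (1 - r ^ a v + 1 / n) * D v ^ 2 :=
          Finset.sum_le_sum_of_subset_of_nonneg (Finset.subset_univ A)
            fun v _ _ => mul_nonneg (hwpos v).le (sq_nonneg _)
        have h2 : 0 ≤ 1 / (2 * lam) := by positivity
        have := mul_le_mul_of_nonneg_left (h1.trans hw) h2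
        linarith
    _ = (q + 2) / lam + ∑ v ∈ A, lam / 2 * b v ^ 2 * chi r n (a v) := by
        field_simp; ring

/-! ### bounding the harmonic sum -/

lemma one_sub_pow_lower {y : ℝ} (hy0 : 0 ≤ y) (hy1 : y ≤ 1) (j : ℕ) (hj : y * j ≤ 1) :
    y * j / 2 ≤ 1 - (1 - y) ^ j := by
  have h1 : 1 + (j : ℝ) * y ≤ (1 + y) ^ j := one_add_mul_le_pow (by linarith) j
  have h2 : (1 - y) ^ j * (1 + y) ^ j ≤ 1 := by
    rw [← mul_pow]
    refine pow_le_one₀ ?_ ?_
    · nlinarith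
    · nlinarith
  have h3 : 0 ≤ (1 - y) ^ j := pow_nonneg (by linarith) j
  have h4 : (1 - y) ^ j * (1 + j * y) ≤ 1 := by nlinarith
  have hjy : 0 ≤ (j : ℝ) * y := by positivity
  nlinarith

lemma chi_le {θ n : ℝ} (hθ0 : 0 < θ) (hθ1 : θ ≤ 1) (hn : 0 < n) {m : ℕ} (hm : 0 < m) (j : ℕ)
    (hj : j ≤ m) : chi (1 - θ * (1 / m)) n j ≤ (θ * j / (2 * m) + 1 / n)⁻¹ := by
  unfold chi
  have hm' : (0 : ℝ) < m := by exact_mod_cast hm
  have hj' : (j : ℝ) ≤ m := by exact_mod_cast hj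
  refine inv_anti₀ (by positivity) ?_
  have h1 := one_sub_pow_lower (y := θ * (1 / m)) (by positivity) (by
    rw [mul_one_div, div_le_one hm']
    have : (1 : ℝ) ≤ m := by exact_mod_cast hm
    linarith) j (by
    rw [mul_one_div, div_mul_eq_mul_div, div_le_one hm']
    nlinarith)
  have h2 : θ * (1 / m) * j / 2 = θ * j / (2 * m) := by field_simp
  rw [h2] at h1
  linarith

lemma sum_chi_le {θ n : ℝ} (hθ0 : 0 < θ) (hθ1 : θ ≤ 1) (hn : 1 ≤ n) {m : ℕ} (hm : 0 < m) :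
    (1 / m : ℝ) * ∑ i ∈ Finset.range m, chi (1 - θ * (1 / m)) n (i + 1) ≤
      2 / θ * Real.log (1 + n) := by
  have hm' : (0 : ℝ) < m := by exact_mod_cast hm
  have hn0 : 0 < n := by linarith
  set z : ℕ → ℝ := fun i => θ * i / (2 * m) + 1 / n with hz
  have hzpos : ∀ i, 0 < z i := fun i => by simp only [hz]; positivity
  have hstep : ∀ i : ℕ, (1 / m : ℝ) * (z (i + 1))⁻¹ ≤
      2 / θ * (Real.log (z (i + 1)) - Real.log (z i)) := by
    intro i
    have h1 := Real.one_sub_inv_le_log_of_pos (div_pos (hzpos (i + 1)) (hzpos i))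
    rw [Real.log_div (hzpos _).ne' (hzpos _).ne', inv_div] at h1
    have h2 : 1 - z i / z (i + 1) = θ / (2 * m) * (z (i + 1))⁻¹ := by
      have h3 : z (i + 1) - z i = θ / (2 * m) := by
        simp only [hz]; push_cast; field_simp; ring
      have h4 := (hzpos (i + 1)).ne'
      field_simp
      have h5 : θ / (2 * m) * (2 * m) = θ := by field_simp
      have h6 : (z (i + 1) - z i) * (2 * m) = θ := by rw [h3, h5]
      linarith
    rw [h2] at h1
    have h7 : (1 / m : ℝ) * (z (i + 1))⁻¹ = 2 / θ * (θ / (2 * m) * (z (i + 1))⁻¹) := by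
      field_simp
    rw [h7]
    exact mul_le_mul_of_nonneg_left h1 (by positivity)
  calc (1 / m : ℝ) * ∑ i ∈ Finset.range m, chi (1 - θ * (1 / m)) n (i + 1)
      ≤ (1 / m : ℝ) * ∑ i ∈ Finset.range m, (z (i + 1))⁻¹ := by
        refine mul_le_mul_of_nonneg_left (Finset.sum_le_sum fun i hi => ?_) (by positivity)
        exact chi_le hθ0 hθ1 hn0 hm (i + 1) (Finset.mem_range.mp hi)
    _ = ∑ i ∈ Finset.range m, (1 / m : ℝ) * (z (i + 1))⁻¹ := by rw [Finset.mul_sum]
    _ ≤ ∑ i ∈ Finset.range m, 2 / θ * (Real.log (z (i + 1)) - Real.log (z i)) :=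
        Finset.sum_le_sum fun i _ => hstep i
    _ = 2 / θ * (Real.log (z m) - Real.log (z 0)) := by
        rw [← Finset.mul_sum, Finset.sum_range_sub (fun i => Real.log (z i))]
    _ = 2 / θ * Real.log (θ * n / 2 + 1) := by
        congr 1
        rw [← Real.log_div (hzpos _).ne' (hzpos _).ne']
        congr 1
        simp only [hz]
        push_cast
        field_simp
        ring
    _ ≤ 2 / θ * Real.log (1 + n) := by
        refine mul_le_mul_of_nonneg_left ?_ (by positivity)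
        refine Real.log_le_log (by positivity) ?_
        nlinarith

/-! ### the gradient bound -/

/-- the constant in the gradient bound -/
noncomputable def Xs (θ Δ n : ℝ) : ℝ :=
  Real.exp ((1 - θ) * (1 + Δ)) * (2 / θ + (1 - θ) * (1 + Δ) * (2 / θ * Real.log (1 + n)))

lemma Xs_nonneg {θ Δ n : ℝ} (hθ0 : 0 < θ) (hθ1 : θ ≤ 1) (hΔ : 0 ≤ Δ) (hn : 1 ≤ n) :
    0 ≤ Xs θ Δ n := by
  unfold Xs
  have h1 : 0 ≤ Real.log (1 + n) := Real.log_nonneg (by linarith)
  have h2 : 0 ≤ 1 - θ := by linarith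
  positivity

lemma Xs_pos {θ Δ n : ℝ} (hθ0 : 0 < θ) (hθ1 : θ ≤ 1) (hΔ : 0 ≤ Δ) (hn : 1 ≤ n) :
    0 < Xs θ Δ n := by
  unfold Xs
  have h1 : 0 ≤ Real.log (1 + n) := Real.log_nonneg (by linarith)
  have h2 : 0 ≤ 1 - θ := by linarith
  positivity

lemma tendsto_apply_of {Ω : Type*} [Fintype Ω] {Tn : ℕ → Op Ω} {T : Op Ω}
    (h : Tendsto Tn atTop (𝓝 T)) (Ψ : (Ω → ℝ) →ₗ[ℝ] ℝ) (f : Ω → ℝ) :
    Tendsto (fun n => Ψ (Tn n f)) atTop (𝓝 (Ψ (T f))) := by
  have h1 : Continuous (fun S : Op Ω => Ψ (S f)) :=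
    (LinearMap.continuous_of_finiteDimensional Ψ).comp
      (ContinuousLinearMap.apply ℝ (Ω → ℝ) f).continuous
  exact (h1.tendsto T).comp h

lemma psi_bound_m [NeZero q] [Nonempty V] (K : Kern V θ Δ) (hθ0 : 0 < θ) (hθ1 : θ ≤ 1)
    (hΔ : 0 ≤ Δ) (b : V → ℝ) (c : V → Fin q) (x : V → Fin q) {lam : ℝ} (hlam : 0 < lam)
    {t : ℝ} (ht : 0 ≤ t) (g : (V → Fin q) → ℝ) (hg : ∀ x, |g x| ≤ 1) {m : ℕ} (hm : 0 < m)
    (hm1 : (Fintype.card V : ℝ) ≤ m) :
    Psi b c x (((Md K Finset.univ.toList (1 / m) : Op (V → Fin q)) ^ m) (exp (t • Lg K) g)) ≤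
      (q + 2) / lam + Real.exp (-(θ * t)) *
        ((lam / 2 * ∑ v, K.d v * b v ^ 2) * Xs θ Δ (Fintype.card V)) := by
  have hcard := card_pos_or V
  set n : ℝ := (Fintype.card V : ℝ) with hn
  have hm' : (0 : ℝ) < m := by exact_mod_cast hm
  have hm1' : (1 : ℝ) ≤ m := by linarith
  set δ : ℝ := 1 / m with hδdef
  have hδ : 0 ≤ δ := by positivity
  have hδ1 : δ * n ≤ 1 := by
    rw [hδdef, one_div, inv_mul_le_iff₀ hm']; linarith
  have hδ2 : δ ≤ 1 := by nlinarith
  have hr0 : 0 ≤ 1 - θ * δ := by nlinarith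
  have hr1 : 1 - θ * δ ≤ 1 := by nlinarith
  have hchi0 : ∀ j, 0 ≤ chi (1 - θ * δ) n j := by
    intro j
    unfold chi
    have : (1 - θ * δ) ^ j ≤ 1 := pow_le_one₀ hr0 hr1
    have h2 : 0 < 1 / n := by positivity
    exact inv_nonneg.mpr (by linarith)
  have hd0 : ∀ v, 0 ≤ K.d v := fun v => by linarith [K.one_le v]
  set B0 : ℝ := lam / 2 * ∑ v, K.d v * b v ^ 2 with hB0
  have hB0' : 0 ≤ B0 := by
    have : 0 ≤ ∑ v, K.d v * b v ^ 2 := Finset.sum_nonneg fun v _ => mul_nonneg (hd0 v) (sq_nonneg _)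
    positivity
  obtain ⟨g', hg'0, hg'pot, hg'⟩ := phase1 (q := q) K Finset.univ.toList hθ0.le hθ1 hΔ (Psi b c x)
    (κ0 := (q + 2) / lam) (γ := fun v j => lam / 2 * b v ^ 2 * chi (1 - θ * δ) n j)
    (fun v j => mul_nonneg (by positivity) (hchi0 j)) hδ hδ1
    (fun A a f hf => base_ineq hr0 hr1 b c x hlam A a f hf) hB0' hchi0
    (fun j => by
      rw [hB0, Finset.mul_sum, Finset.sum_mul]
      exact le_of_eq (Finset.sum_congr rfl fun v _ => by ring)) m
  have hpot : ∑ v, K.d v * g' v ≤ B0 * Xs θ Δ n := by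
    refine hg'pot.trans (mul_le_mul_of_nonneg_left ?_ hB0')
    unfold Xs
    have h1θ : 0 ≤ 1 - θ := by linarith
    have hC1 : 0 ≤ (1 - θ) * (1 + Δ) := by positivity
    have hsum0 : 0 ≤ ∑ i ∈ Finset.range m, chi (1 - θ * δ) n (i + 1) :=
      Finset.sum_nonneg fun i _ => hchi0 _
    refine mul_le_mul ?_ ?_ ?_ (Real.exp_nonneg _)
    · have h1 : 1 + δ * ((1 - θ) * (1 + Δ)) ≤ Real.exp (δ * ((1 - θ) * (1 + Δ))) := by
        have := Real.add_one_le_exp (δ * ((1 - θ) * (1 + Δ)))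
        linarith
      calc (1 + δ * ((1 - θ) * (1 + Δ))) ^ m ≤ Real.exp (δ * ((1 - θ) * (1 + Δ))) ^ m :=
            pow_le_pow_left₀ (by positivity) h1 m
        _ = Real.exp ((1 - θ) * (1 + Δ)) := by
            rw [← Real.exp_nat_mul]
            congr 1
            rw [hδdef]; field_simp
    · have h1 : chi (1 - θ * δ) n m ≤ 2 / θ := by
        refine (chi_le hθ0 hθ1 (by linarith) hm m le_rfl).trans ?_
        have h2 : θ / 2 ≤ θ * m / (2 * m) + 1 / n := by
          have : θ * m / (2 * m) = θ / 2 := by field_simp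
          rw [this]
          have : 0 < 1 / n := by positivity
          linarith
        calc (θ * m / (2 * m) + 1 / n)⁻¹ ≤ (θ / 2)⁻¹ := inv_anti₀ (by positivity) h2
          _ = 2 / θ := by rw [inv_div]
      have h2 := sum_chi_le hθ0 hθ1 hcard hm
      have h3 : δ * ((1 - θ) * (1 + Δ)) * ∑ i ∈ Finset.range m, chi (1 - θ * δ) n (i + 1) =
          ((1 - θ) * (1 + Δ)) * (1 / m * ∑ i ∈ Finset.range m, chi (1 - θ * (1 / m)) n (i + 1)) := by
        rw [hδdef]; ring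
      rw [h3]
      have h4 := mul_le_mul_of_nonneg_left h2 hC1
      linarith
    · have := hchi0 m
      positivity
  -- phase two for the composed functional
  set Ψ' : ((V → Fin q) → ℝ) →ₗ[ℝ] ℝ := (Psi b c x) ∘ₗ
    (((Md K Finset.univ.toList δ : Op (V → Fin q)) ^ m : Op (V → Fin q)) :
      ((V → Fin q) → ℝ) →ₗ[ℝ] ((V → Fin q) → ℝ)) with hΨ'
  have hlimit := tendsto_apply_of (tendsto_Lstep (q := q) K hθ0.le ht) Ψ' g
  refine le_of_tendsto hlimit ?_
  have hev : ∀ᶠ k : ℕ in atTop, (t * n) ≤ k := by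
    exact tendsto_natCast_atTop_atTop.eventually_ge_atTop (t * n)
  filter_upwards [hev, eventually_gt_atTop 0] with k hk hk0
  have hk' : (0 : ℝ) < k := by exact_mod_cast hk0
  have h1 : t / k * n ≤ 1 := by
    rw [div_mul_eq_mul_div, div_le_one hk']; exact hk
  have h2 := phase2 K hθ0.le hθ1 Ψ' hg'0 hg' (δ := t / k) (by positivity) h1 k g hg
  refine h2.trans ?_
  have h3 : (1 - θ * (t / k)) ^ k ≤ Real.exp (-(θ * t)) := by
    have h4 : 0 ≤ 1 - θ * (t / k) := by
      have : t / k ≤ 1 := by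
        have h0 : 0 ≤ t / k := by positivity
        nlinarith
      have h0 : 0 ≤ t / k := by positivity
      nlinarith
    have h5 : 1 - θ * (t / k) ≤ Real.exp (-(θ * (t / k))) := by
      have := Real.add_one_le_exp (-(θ * (t / k)))
      linarith
    calc (1 - θ * (t / k)) ^ k ≤ Real.exp (-(θ * (t / k))) ^ k := pow_le_pow_left₀ h4 h5 k
      _ = Real.exp (-(θ * t)) := by
          rw [← Real.exp_nat_mul]
          congr 1
          field_simp
  have h6 : 0 ≤ ∑ v, K.d v * g' v := Finset.sum_nonneg fun v _ => mul_nonneg (hd0 v) (hg'0 v)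
  have h7 : (1 - θ * (t / k)) ^ k * ∑ v, K.d v * g' v ≤
      Real.exp (-(θ * t)) * (B0 * Xs θ Δ n) :=
    mul_le_mul h3 hpot h6 (Real.exp_nonneg _)
  linarith

/-- dimension free gradient bound -/
theorem grad_bound [NeZero q] [Nonempty V] (K : Kern V θ Δ) (hθ0 : 0 < θ) (hθ1 : θ ≤ 1)
    (hΔ : 1 ≤ Δ) {t : ℝ} (ht : 0 ≤ t) (g : (V → Fin q) → ℝ) (hg : ∀ x, |g x| ≤ 1)
    (c : V → Fin q) (x : V → Fin q) :
    ∑ v, (exp ((1 + t) • Lg K) g (update x v (c v)) - exp ((1 + t) • Lg K) g x) ^ 2 ≤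
      2 * (q + 2) * (Real.exp (-(θ * t)) * (Δ * Xs θ Δ (Fintype.card V))) := by
  have hcard := card_pos_or V
  set n : ℝ := (Fintype.card V : ℝ) with hn
  have hX := Xs_pos hθ0 hθ1 (by linarith : 0 ≤ Δ) hcard
  set D : ℝ := Real.exp (-(θ * t)) * (Δ * Xs θ Δ n) with hD
  have hDpos : 0 < D := by positivity
  set b : V → ℝ := fun v =>
    exp ((1 + t) • Lg K) g (update x v (c v)) - exp ((1 + t) • Lg K) g x with hb
  set S : ℝ := ∑ v, b v ^ 2 with hS
  have hS0 : 0 ≤ S := Finset.sum_nonneg fun v _ => sq_nonneg _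
  have key : ∀ lam : ℝ, 0 < lam → S ≤ (q + 2) / lam + lam / 2 * (D * S) := by
    intro lam hlam
    have h1 : Psi b c x (exp ((1 + t) • Lg K) g) = S := by
      rw [Psi_apply, hS]
      exact Finset.sum_congr rfl fun v _ => by simp only [hb]; ring
    have h2 : Psi b c x (exp ((1 : ℝ) • Lg K) (exp (t • Lg K) g)) ≤
        (q + 2) / lam + Real.exp (-(θ * t)) *
          ((lam / 2 * ∑ v, K.d v * b v ^ 2) * Xs θ Δ n) := by
      have hlimit := tendsto_apply_of (tendsto_Md (q := q) K hθ0.le hθ1) (Psi b c x)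
        (exp (t • Lg K) g)
      refine le_of_tendsto hlimit ?_
      have hev : ∀ᶠ k : ℕ in atTop, n ≤ k :=
        tendsto_natCast_atTop_atTop.eventually_ge_atTop n
      filter_upwards [hev, eventually_gt_atTop 0] with m hm hm0
      exact psi_bound_m K hθ0 hθ1 (by linarith) b c x hlam ht g hg hm0 hm
    rw [← h1, exp_add', mul_apply_eq_comp]
    refine h2.trans ?_
    have h3 : ∑ v, K.d v * b v ^ 2 ≤ Δ * S := by
      rw [hS, Finset.mul_sum]
      exact Finset.sum_le_sum fun v _ => mul_le_mul_of_nonneg_right (K.le_del v) (sq_nonneg _)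
    have h4 : Real.exp (-(θ * t)) * ((lam / 2 * ∑ v, K.d v * b v ^ 2) * Xs θ Δ n) ≤
        Real.exp (-(θ * t)) * ((lam / 2 * (Δ * S)) * Xs θ Δ n) := by
      have : lam / 2 * ∑ v, K.d v * b v ^ 2 ≤ lam / 2 * (Δ * S) :=
        mul_le_mul_of_nonneg_left h3 (by positivity)
      have h5 := mul_le_mul_of_nonneg_right this hX.le
      exact mul_le_mul_of_nonneg_left h5 (Real.exp_nonneg _)
    have h6 : Psi b c x (exp ((1 : ℝ) • Lg K) (exp (t • Lg K) g)) = S := by
      rw [← h1, exp_add', mul_apply_eq_comp]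
    have h7 : Real.exp (-(θ * t)) * ((lam / 2 * (Δ * S)) * Xs θ Δ n) = lam / 2 * (D * S) := by
      rw [hD]; ring
    rw [h6, ← h7]
    linarith
  have h1 := key (1 / D) (by positivity)
  have h2 : (q + 2) / (1 / D) + 1 / D / 2 * (D * S) = (q + 2) * D + S / 2 := by
    field_simp
  rw [h2] at h1
  show S ≤ _
  linarith

end Pool.Agent.Lib.MP_1c1c61_pr
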