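import Pool.Agent.Lib.MP_1c1c61_pr.Mixing

open Filter Topology NormedSpace Function

namespace Pool.Agent.Lib.MP_1c1c61_pr

set_option linter.unusedSectionVars false

lemma norm_exp_le_exp_norm' {𝔸 : Type*} [NormedRing 𝔸] [NormedAlgebra ℝ 𝔸] [CompleteSpace 𝔸]
    [NormOneClass 𝔸] (x : 𝔸) : ‖exp x‖ ≤ Real.exp ‖x‖ := by
  have h1 : exp x = ∑' n : ℕ, ((n.factorial : ℝ)⁻¹) • x ^ n := by
    rw [exp_eq_tsum ℝ]
  have h2 : Real.exp ‖x‖ = ∑' n : ℕ, ‖x‖ ^ n / n.factorial := by
    rw [Real.exp_eq_exp_ℝ, exp_eq_tsum_div]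
  rw [h1, h2]
  have h3 : Summable (fun n : ℕ => ‖((n.factorial : ℝ)⁻¹) • x ^ n‖) :=
    norm_expSeries_summable' x
  refine (norm_tsum_le_tsum_norm h3).trans ?_
  refine Summable.tsum_le_tsum (fun n => ?_) h3 (Real.summable_pow_div_factorial _)
  rw [norm_smul, norm_inv, Real.norm_natCast, div_eq_inv_mul]
  exact mul_le_mul_of_nonneg_left (norm_pow_le x n) (by positivity)

variable {V : Type*} [Fintype V] [DecidableEq V] {q : ℕ} {θ Δ : ℝ}

/-- centred indicator of a colour -/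
noncomputable def cen (q : ℕ) (c0 c : Fin q) : ℝ := (if c = c0 then 1 else 0) - (q : ℝ)⁻¹

/-- centred indicator of the colour `c0` at `v` -/
noncomputable def ell (c0 : Fin q) (v : V) (x : V → Fin q) : ℝ := cen q c0 (x v)

/-- linear statistics -/
noncomputable def J (c0 : Fin q) : (V → ℝ) →L[ℝ] ((V → Fin q) → ℝ) :=
  LinearMap.toContinuousLinearMap
    { toFun := fun s x => ∑ v, s v * ell c0 v x
      map_add' := by
        intro f g; ext x
        simp only [Pi.add_apply, add_mul, Finset.sum_add_distrib]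
      map_smul' := by
        intro a f; ext x
        simp only [Pi.smul_apply, smul_eq_mul, RingHom.id_apply, Finset.mul_sum]
        exact Finset.sum_congr rfl fun v _ => by ring }

@[simp] lemma J_apply (c0 : Fin q) (s : V → ℝ) (x : V → Fin q) :
    J c0 s x = ∑ v, s v * ell c0 v x := rfl

/-- generator on linear statistics -/
noncomputable def Bt (K : Kern V θ Δ) : Op V :=
  LinearMap.toContinuousLinearMap
    { toFun := fun s w => -s w + ∑ v, K.κ v w * s v
      map_add' := by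
        intro f g; ext x
        simp only [Pi.add_apply, mul_add, Finset.sum_add_distrib]; ring
      map_smul' := by
        intro a f; ext x
        simp only [Pi.smul_apply, smul_eq_mul, RingHom.id_apply, mul_add, Finset.mul_sum]
        congr 1
        · ring
        · exact Finset.sum_congr rfl fun v _ => by ring }

@[simp] lemma Bt_apply (K : Kern V θ Δ) (s : V → ℝ) (w : V) :
    Bt K s w = -s w + ∑ v, K.κ v w * s v := rfl

lemma cen_abs_le [NeZero q] (c0 c : Fin q) : |cen q c0 c| ≤ 1 := by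
  have hq : (1 : ℝ) ≤ q := by exact_mod_cast Nat.one_le_iff_ne_zero.mpr (NeZero.ne q)
  have h1 : (q : ℝ)⁻¹ ≤ 1 := inv_le_one_of_one_le₀ hq
  have h2 : 0 < (q : ℝ)⁻¹ := by positivity
  unfold cen
  rw [abs_le]
  split_ifs <;> constructor <;> linarith

lemma cen_abs_ge (hq : 2 ≤ q) (c0 c : Fin q) : (q : ℝ)⁻¹ ≤ |cen q c0 c| := by
  have hq' : (2 : ℝ) ≤ q := by exact_mod_cast hq
  have h1 : (q : ℝ)⁻¹ ≤ 1 / 2 := by
    rw [one_div]; exact inv_anti₀ (by norm_num) hq'
  have h2 : 0 < (q : ℝ)⁻¹ := by positivity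
  unfold cen
  split_ifs
  · rw [abs_of_nonneg (by linarith)]; linarith
  · rw [zero_sub, abs_neg, abs_of_pos h2]

lemma sum_cen [NeZero q] (c0 : Fin q) : ∑ c, cen q c0 c = 0 := by
  have hq : (q : ℝ) ≠ 0 := by exact_mod_cast NeZero.ne q
  unfold cen
  rw [Finset.sum_sub_distrib, Finset.sum_const, Finset.card_univ, Fintype.card_fin, nsmul_eq_mul]
  simp [hq]

lemma J_update (c0 : Fin q) (s : V → ℝ) (x : V → Fin q) (v : V) (c : Fin q) :
    J c0 s (update x v c) = J c0 s x + s v * (cen q c0 c - ell c0 v x) := by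
  rw [J_apply, J_apply, ← Finset.add_sum_erase _ _ (Finset.mem_univ v),
    ← Finset.add_sum_erase _ (fun u => s u * ell c0 u x) (Finset.mem_univ v)]
  have h1 : ∑ u ∈ Finset.univ.erase v, s u * ell c0 u (update x v c) =
      ∑ u ∈ Finset.univ.erase v, s u * ell c0 u x := by
    refine Finset.sum_congr rfl fun u hu => ?_
    have : u ≠ v := Finset.ne_of_mem_erase hu
    simp [ell, update_of_ne this]
  rw [h1]
  simp only [ell, update_self]
  ring

lemma intertwine [NeZero q] (K : Kern V θ Δ) (c0 : Fin q) (s : V → ℝ) :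
    Lg K (J c0 s) = J c0 (Bt K s) := by
  have hq : (q : ℝ) ≠ 0 := by exact_mod_cast NeZero.ne q
  ext x
  rw [Lg_apply]
  have hE : ∀ v, E v (J c0 s) x = J c0 s x - s v * ell c0 v x := by
    intro v
    rw [E_apply]
    simp_rw [J_update]
    rw [Finset.sum_add_distrib, ← Finset.mul_sum, Finset.sum_sub_distrib, sum_cen,
      Finset.sum_const, Finset.sum_const, Finset.card_univ, Fintype.card_fin]
    simp only [nsmul_eq_mul]
    field_simp
    ring
  have hC : ∀ v w, J c0 s (update x v (x w)) = J c0 s x + s v * (ell c0 w x - ell c0 v x) := by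
    intro v w
    rw [J_update]; rfl
  simp_rw [hE, hC]
  have h1 : ∑ v, ∑ w, K.κ v w * (J c0 s x + s v * (ell c0 w x - ell c0 v x)) =
      (1 - θ) * Fintype.card V * J c0 s x + ∑ v, ∑ w, K.κ v w * (s v * ell c0 w x)
        - (1 - θ) * J c0 s x := by
    have : ∀ v, ∑ w, K.κ v w * (J c0 s x + s v * (ell c0 w x - ell c0 v x)) =
        (1 - θ) * J c0 s x + ∑ w, K.κ v w * (s v * ell c0 w x) - (1 - θ) * (s v * ell c0 v x) := by
      intro v
      rw [← K.row v, Finset.sum_mul, Finset.sum_mul, ← Finset.sum_add_distrib,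
        ← Finset.sum_sub_distrib]
      exact Finset.sum_congr rfl fun w _ => by ring
    simp_rw [this]
    rw [Finset.sum_sub_distrib, Finset.sum_add_distrib, Finset.sum_const, Finset.card_univ,
      nsmul_eq_mul, ← Finset.mul_sum, ← J_apply]
    ring
  rw [h1, Finset.sum_sub_distrib, Finset.sum_const, Finset.card_univ, nsmul_eq_mul, ← J_apply]
  have h2 : J c0 (Bt K s) x = - J c0 s x + ∑ v, ∑ w, K.κ v w * (s v * ell c0 w x) := by
    rw [J_apply]
    simp_rw [Bt_apply, add_mul, Finset.sum_mul]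
    rw [Finset.sum_add_distrib, Finset.sum_comm, J_apply]
    congr 1
    · rw [← Finset.sum_neg_distrib]; exact Finset.sum_congr rfl fun v _ => by ring
    · exact Finset.sum_congr rfl fun v _ => Finset.sum_congr rfl fun w _ => by ring
  rw [h2]; ring

lemma exp_intertwine [NeZero q] (K : Kern V θ Δ) (c0 : Fin q) (s : V → ℝ) (t : ℝ) :
    exp (t • Lg K) (J c0 s) = J c0 (exp (t • Bt K) s) := by
  set φ : ℝ → ((V → Fin q) → ℝ) := fun r => exp ((t - r) • Lg K) (J c0 (exp (r • Bt K) s)) with hφ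
  have hd : ∀ r, HasDerivAt φ 0 r := by
    intro r
    have h3 : HasDerivAt (fun u : ℝ => t - u) (-1) r := by
      simpa using (hasDerivAt_id r).const_sub t
    have h1 := (hasDerivAt_exp' (Lg K : Op (V → Fin q)) (t - r)).scomp r h3
    have h2 := (hasDerivAt_exp'' (Bt K) r).clm_apply (hasDerivAt_const r s)
    have h4 := ((J c0 : (V → ℝ) →L[ℝ] ((V → Fin q) → ℝ)).hasFDerivAt.comp_hasDerivAt r h2)
    have h5 := h1.clm_apply h4
    have hval : ((-1 : ℝ) • (exp ((t - r) • Lg K) * Lg K : Op (V → Fin q)))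
        (J c0 (exp (r • Bt K) s)) + (exp ((t - r) • Lg K) : Op (V → Fin q))
        (J c0 ((Bt K * exp (r • Bt K)) s + (exp (r • Bt K)) 0)) = 0 := by
      rw [_root_.smul_apply, mul_apply_eq_comp, mul_apply_eq_comp, intertwine, map_zero, add_zero,
        neg_smul, one_smul, neg_add_cancel]
    have h6 : HasDerivAt φ (((-1 : ℝ) • (exp ((t - r) • Lg K) * Lg K : Op (V → Fin q)))
        (J c0 (exp (r • Bt K) s)) + (exp ((t - r) • Lg K) : Op (V → Fin q))
        (J c0 ((Bt K * exp (r • Bt K)) s + (exp (r • Bt K)) 0))) r := h5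
    rwa [hval] at h6
  have hconst := is_const_of_deriv_eq_zero (f := φ) (fun r => (hd r).differentiableAt)
    (fun r => (hd r).deriv) 0 t
  simpa [hφ] using hconst

lemma norm_Bt_le [Nonempty V] (K : Kern V θ Δ) (hθ0 : 0 ≤ θ) (hΔ : 0 ≤ Δ) :
    ‖Bt K‖ ≤ 1 + Δ := by
  refine ContinuousLinearMap.opNorm_le_bound _ (by linarith) (fun s => ?_)
  rw [pi_norm_le_iff_of_nonneg (by positivity)]
  intro w
  rw [Bt_apply]
  have hcol : ∑ u, K.κ u w ≤ Δ := by
    calc ∑ u, K.κ u w ≤ ∑ u, K.d u * K.κ u w := by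
          refine Finset.sum_le_sum fun u _ => ?_
          have := K.one_le u
          nlinarith [K.nonneg u w]
      _ ≤ (1 - θ) * K.d w := K.inv w
      _ ≤ 1 * Δ := mul_le_mul (by linarith) (K.le_del w) (by linarith [K.one_le w]) zero_le_one
      _ = Δ := one_mul _
  have h1 : ‖∑ v, K.κ v w * s v‖ ≤ Δ * ‖s‖ := by
    calc ‖∑ v, K.κ v w * s v‖ ≤ ∑ v, ‖K.κ v w * s v‖ := norm_sum_le _ _
      _ ≤ ∑ v, K.κ v w * ‖s‖ := by
          refine Finset.sum_le_sum fun v _ => ?_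
          rw [norm_mul, Real.norm_of_nonneg (K.nonneg v w)]
          exact mul_le_mul_of_nonneg_left (norm_le_pi_norm s v) (K.nonneg v w)
      _ = (∑ v, K.κ v w) * ‖s‖ := by rw [Finset.sum_mul]
      _ ≤ Δ * ‖s‖ := mul_le_mul_of_nonneg_right hcol (norm_nonneg _)
  calc ‖-s w + ∑ v, K.κ v w * s v‖ ≤ ‖-s w‖ + ‖∑ v, K.κ v w * s v‖ := norm_add_le _ _
    _ ≤ ‖s‖ + Δ * ‖s‖ := by
        rw [norm_neg]; exact add_le_add (norm_le_pi_norm s w) h1
    _ = (1 + Δ) * ‖s‖ := by ring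

/-- gradient of an evolved linear statistic -/
lemma grad_linear [NeZero q] [Nonempty V] (K : Kern V θ Δ) (hθ0 : 0 ≤ θ) (hθ1 : θ ≤ 1)
    (c0 : Fin q) {t : ℝ} (ht : 0 ≤ t) {S : ℝ} (hS0 : 0 ≤ S) (s : V → ℝ) (hs : ∀ v, |s v| ≤ S)
    (y : V → Fin q) (v : V) (c : Fin q) :
    exp (t • Lg K) (J c0 s) (update y v c) - exp (t • Lg K) (J c0 s) y ≤
      2 * S * Δ * Real.exp (-(θ * t)) := by
  have hcard := card_pos_or V
  set n : ℝ := (Fintype.card V : ℝ) with hn
  set Ψ : ((V → Fin q) → ℝ) →ₗ[ℝ] ℝ := ev (update y v c) - ev y with hΨ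
  have hΨa : ∀ f, Ψ f = f (update y v c) - f y := fun f => by simp [hΨ]
  have hlimit := tendsto_apply_of (tendsto_Lstep (q := q) K hθ0 ht) Ψ (J c0 s)
  rw [hΨa] at hlimit
  refine le_of_tendsto hlimit ?_
  have hev : ∀ᶠ k : ℕ in atTop, (t * n) ≤ k :=
    tendsto_natCast_atTop_atTop.eventually_ge_atTop (t * n)
  filter_upwards [hev, eventually_gt_atTop 0] with k hk hk0
  have hk' : (0 : ℝ) < k := by exact_mod_cast hk0
  have h1 : t / k * n ≤ 1 := by
    rw [div_mul_eq_mul_div, div_le_one hk']; exact hk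
  obtain ⟨a, ha0, ha1, ha2⟩ := phase2_ex K hθ0 hθ1 Ψ (κ0 := 0)
    (g := fun u => if u = v then 2 else 0) (fun u => by split_ifs <;> norm_num) (by
    intro A f hf hfA
    rw [hΨa, zero_add]
    by_cases hv : v ∈ A
    · rw [Finset.sum_ite_eq' A v, if_pos hv]
      have h3 := abs_le.mp (hf (update y v c))
      have h4 := abs_le.mp (hf y)
      linarith
    · rw [Finset.sum_ite_eq' A v, if_neg hv]
      have : f (update y v c) = f y := by
        refine hfA fun i hi => ?_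
        have : i ≠ v := fun h => hv (h ▸ hi)
        rw [update_of_ne this]
      rw [this, sub_self]) (δ := t / k) (by positivity) h1 k
  set Q : Op (V → Fin q) := (1 + (t / k) • Lg K) ^ k with hQ
  have hell1 : ∀ u, ∀ x : V → Fin q, |ell c0 u x| ≤ 1 := fun u x => cen_abs_le _ _
  have hellA : ∀ u, DependsOn (ell (q := q) c0 u) (({u} : Finset V) : Set V) := by
    intro u x z hxz
    have : x u = z u := hxz u (by simp)
    simp [ell, this]
  have hb : ∀ u, |Ψ (Q (ell c0 u))| ≤ a u := by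
    intro u
    rw [abs_le]
    constructor
    · have := ha2 {u} (-(ell c0 u)) (fun x => by
        rw [Pi.neg_apply, abs_neg]; exact hell1 u x) (by
          intro x z hxz
          rw [Pi.neg_apply, Pi.neg_apply, hellA u hxz])
      rw [map_neg, map_neg, Finset.sum_singleton] at this
      linarith
    · have := ha2 {u} (ell c0 u) (hell1 u) (hellA u)
      rw [Finset.sum_singleton] at this
      linarith
  have hJ : J c0 s = ∑ u, s u • ell (q := q) c0 u := by
    ext x; rw [Finset.sum_apply]; simp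
  have h3 : Ψ (Q (J c0 s)) ≤ S * ∑ u, a u := by
    rw [hJ, map_sum, map_sum, Finset.mul_sum]
    refine Finset.sum_le_sum fun u _ => ?_
    rw [map_smul, map_smul, smul_eq_mul]
    calc s u * Ψ (Q (ell c0 u)) ≤ |s u * Ψ (Q (ell c0 u))| := le_abs_self _
      _ = |s u| * |Ψ (Q (ell c0 u))| := abs_mul _ _
      _ ≤ S * a u := mul_le_mul (hs u) (hb u) (abs_nonneg _) hS0
  have h4 : ∑ u, a u ≤ ∑ u, K.d u * a u := by
    refine Finset.sum_le_sum fun u _ => ?_
    have := K.one_le u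
    nlinarith [ha0 u]
  have h5 : ∑ u, K.d u * (if u = v then (2 : ℝ) else 0) = 2 * K.d v := by
    simp [mul_comm]
  rw [h5] at ha1
  have h6 : (1 - θ * (t / k)) ^ k ≤ Real.exp (-(θ * t)) := by
    have h0 : 0 ≤ t / k := by positivity
    have h4 : 0 ≤ 1 - θ * (t / k) := by
      have : t / k ≤ 1 := by nlinarith
      nlinarith
    have h5 : 1 - θ * (t / k) ≤ Real.exp (-(θ * (t / k))) := by
      have := Real.add_one_le_exp (-(θ * (t / k)))
      linarith
    calc (1 - θ * (t / k)) ^ k ≤ Real.exp (-(θ * (t / k))) ^ k := pow_le_pow_left₀ h4 h5 k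
      _ = Real.exp (-(θ * t)) := by
          rw [← Real.exp_nat_mul]
          congr 1
          field_simp
  have h7 : (1 - θ * (t / k)) ^ k * (2 * K.d v) ≤ Real.exp (-(θ * t)) * (2 * Δ) := by
    have hd0 : 0 ≤ K.d v := by linarith [K.one_le v]
    have hdΔ := K.le_del v
    exact mul_le_mul h6 (by linarith) (by linarith) (Real.exp_nonneg _)
  calc Ψ (Q (J c0 s)) ≤ S * ∑ u, a u := h3
    _ ≤ S * (Real.exp (-(θ * t)) * (2 * Δ)) :=
        mul_le_mul_of_nonneg_left (h4.trans (ha1.trans h7)) hS0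
    _ = _ := by ring

lemma Gam_linear [NeZero q] [Nonempty V] (K : Kern V θ Δ) (hθ0 : 0 ≤ θ) (hθ1 : θ ≤ 1)
    (c0 : Fin q) {t : ℝ} (ht : 0 ≤ t) {S : ℝ} (hS0 : 0 ≤ S) (s : V → ℝ) (hs : ∀ v, |s v| ≤ S)
    (y : V → Fin q) :
    Gam (Lg K) (exp (t • Lg K) (J c0 s)) y ≤
      (Fintype.card V * (2 * S * Δ) ^ 2) * Real.exp (-(2 * θ * t)) := by
  obtain ⟨c, hc⟩ := Gam_le K hθ0 (exp (t • Lg K) (J c0 s)) y
  refine hc.trans ?_
  have h1 : ∀ v, (exp (t • Lg K) (J c0 s) (update y v (c v)) - exp (t • Lg K) (J c0 s) y) ^ 2 ≤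
      (2 * S * Δ * Real.exp (-(θ * t))) ^ 2 := by
    intro v
    refine sq_le_sq' ?_ (grad_linear K hθ0 hθ1 c0 ht hS0 s hs y v (c v))
    have := grad_linear K hθ0 hθ1 c0 ht hS0 (-s) (fun v => by
      rw [Pi.neg_apply, abs_neg]; exact hs v) y v (c v)
    rw [map_neg, map_neg, Pi.neg_apply, Pi.neg_apply] at this
    linarith
  calc ∑ v, (exp (t • Lg K) (J c0 s) (update y v (c v)) - exp (t • Lg K) (J c0 s) y) ^ 2
      ≤ ∑ _v : V, (2 * S * Δ * Real.exp (-(θ * t))) ^ 2 := Finset.sum_le_sum fun v _ => h1 v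
    _ = _ := by
        have h2 : Real.exp (-(2 * θ * t)) = Real.exp (-(θ * t)) ^ 2 := by
          rw [← Real.exp_nat_mul]
          congr 1
          push_cast; ring
        rw [Finset.sum_const, Finset.card_univ, nsmul_eq_mul, h2]
        ring

lemma stat_gen {K : Kern V θ Δ} {μ : (V → Fin q) → ℝ} (hμ : IsStat K μ) (f : (V → Fin q) → ℝ) :
    ∑ x, μ x * Lg K f x = 0 := by
  set φ : ℝ → ℝ := fun t => ∑ x, μ x * exp (t • Lg K) f x with hφ
  have h1 : HasDerivAt φ (∑ x, μ x * Lg K f x) 0 := by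
    have h2 := (hasDerivAt_exp'' (Lg K : Op (V → Fin q)) 0).clm_apply (hasDerivAt_const (0 : ℝ) f)
    have h3 := hasDerivAt_pi.mp h2
    have h4 := HasDerivAt.fun_sum (u := Finset.univ) fun x _ => (h3 x).const_mul (μ x)
    simpa [hφ] using h4
  have h5 : HasDerivWithinAt φ 0 (Set.Ici 0) 0 := by
    have h6 : ∀ t ∈ Set.Ici (0 : ℝ), φ t = ∑ x, μ x * f x := fun t ht => hμ.inv t ht f
    have h7 : HasDerivWithinAt (fun _ : ℝ => ∑ x, μ x * f x) 0 (Set.Ici 0) 0 :=
      hasDerivWithinAt_const _ _ _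
    exact h7.congr h6 (h6 0 (by simp))
  exact (uniqueDiffWithinAt_Ici (0 : ℝ)).eq_deriv _ h1.hasDerivWithinAt h5

lemma stat_ell [NeZero q] [Nonempty V] {K : Kern V θ Δ} (hθ0 : 0 < θ)
    {μ : (V → Fin q) → ℝ} (hμ : IsStat K μ) (c0 : Fin q) (v : V) :
    ∑ x, μ x * ell c0 v x = 0 := by
  set m : V → ℝ := fun v => ∑ x, μ x * ell c0 v x with hm
  have hrec : ∀ v, m v = ∑ w, K.κ v w * m w := by
    intro v
    have h1 := stat_gen hμ (J c0 (Pi.single v 1))
    rw [intertwine] at h1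
    have h2 : ∀ x, J c0 (Bt K (Pi.single v 1)) x = -ell c0 v x + ∑ w, K.κ v w * ell c0 w x := by
      intro x
      rw [J_apply]
      have : ∀ w, Bt K (Pi.single v 1) w = -(if w = v then 1 else 0) + K.κ v w := by
        intro w
        rw [Bt_apply]
        congr 1
        · simp [Pi.single_apply]
        · simp [Pi.single_apply]
      simp_rw [this, add_mul]
      rw [Finset.sum_add_distrib]
      congr 1
      simp
    simp_rw [h2, mul_add] at h1
    rw [Finset.sum_add_distrib] at h1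
    have h3 : ∑ x, μ x * -ell c0 v x = - m v := by
      rw [hm, ← Finset.sum_neg_distrib]; exact Finset.sum_congr rfl fun x _ => by ring
    have h4 : ∑ x, μ x * ∑ w, K.κ v w * ell c0 w x = ∑ w, K.κ v w * m w := by
      simp_rw [hm, Finset.mul_sum]
      rw [Finset.sum_comm]
      exact Finset.sum_congr rfl fun w _ => Finset.sum_congr rfl fun x _ => by ring
    rw [h3, h4] at h1
    linarith
  obtain ⟨v0, hv0⟩ := Finite.exists_max (fun v => |m v|)
  have h5 : |m v0| ≤ (1 - θ) * |m v0| := by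
    calc |m v0| = |∑ w, K.κ v0 w * m w| := by rw [← hrec v0]
      _ ≤ ∑ w, |K.κ v0 w * m w| := Finset.abs_sum_le_sum_abs _ _
      _ ≤ ∑ w, K.κ v0 w * |m v0| := by
          refine Finset.sum_le_sum fun w _ => ?_
          rw [abs_mul, abs_of_nonneg (K.nonneg v0 w)]
          exact mul_le_mul_of_nonneg_left (hv0 w) (K.nonneg v0 w)
      _ = (1 - θ) * |m v0| := by rw [← Finset.sum_mul, K.row]
  have h6 : |m v0| ≤ 0 := by nlinarith [abs_nonneg (m v0)]
  have h7 := (hv0 v).trans h6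
  exact abs_nonpos_iff.mp h7

/-- lower bound: if the distance is at most one half then time is at least logarithmic -/
theorem lower [NeZero q] [Nonempty V] (hq : 2 ≤ q) (K : Kern V θ Δ) (hθ0 : 0 < θ) (hθ1 : θ ≤ 1)
    (hΔ : 1 ≤ Δ) {μ : (V → Fin q) → ℝ} (hμ : IsStat K μ) (x0 : V → Fin q) {t : ℝ}
    (ht : 0 ≤ t) (htv : tv (pt K t x0) μ ≤ 1 / 2) :
    (Fintype.card V : ℝ) ≤ 32 * q ^ 2 * Δ ^ 2 / θ * Real.exp (2 * (1 + Δ) * t) := by
  have hcard := card_pos_or V
  have hq0 : (0 : ℝ) < q := by exact_mod_cast Nat.pos_of_ne_zero (NeZero.ne q)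
  set n : ℝ := (Fintype.card V : ℝ) with hn
  have c0 : Fin q := 0
  -- the statistic
  set s0 : V → ℝ := fun v => SignType.sign (ell c0 v x0) with hs0
  set s : V → ℝ := exp ((-t) • Bt K) s0 with hs
  set S : ℝ := Real.exp (t * (1 + Δ)) with hS
  have hSpos : 0 < S := Real.exp_pos _
  have hs0norm : ‖s0‖ ≤ 1 := by
    rw [pi_norm_le_iff_of_nonneg zero_le_one]
    intro v
    simp only [hs0]
    rcases lt_trichotomy (ell c0 v x0) 0 with h | h | h
    · simp [h]
    · simp [h]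
    · simp [h]
  have hsS : ∀ v, |s v| ≤ S := by
    intro v
    have h1 : ‖s‖ ≤ S := by
      calc ‖s‖ ≤ ‖(exp ((-t) • Bt K) : Op V)‖ * ‖s0‖ := ContinuousLinearMap.le_opNorm _ _
        _ ≤ Real.exp ‖(-t) • Bt K‖ * 1 := by
            have : Nontrivial (V → ℝ) := Function.nontrivial
            exact mul_le_mul (norm_exp_le_exp_norm' _) hs0norm (norm_nonneg _) (Real.exp_nonneg _)
        _ ≤ S := by
            rw [mul_one, hS, norm_smul, norm_neg, Real.norm_of_nonneg ht]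
            refine Real.exp_le_exp.mpr (mul_le_mul_of_nonneg_left ?_ ht)
            exact norm_Bt_le K hθ0.le (by linarith)
    have h2 := norm_le_pi_norm s v
    rw [Real.norm_eq_abs] at h2
    linarith
  have hinv : exp (t • Bt K) s = s0 := by
    rw [hs, ← mul_apply_eq_comp, ← exp_add']
    simp
  set F : (V → Fin q) → ℝ := J c0 s with hF
  set C : ℝ := n * (2 * S * Δ) ^ 2 with hC
  have hC0 : 0 ≤ C := by positivity
  have hG : ∀ u, 0 ≤ u → ∀ y, Gam (Lg K) (exp (u • Lg K) F) y ≤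
      C * Real.exp (-((2 * θ) * u)) := fun u hu y =>
    Gam_linear K hθ0.le hθ1 c0 hu hSpos.le s hsS y
  set η : ℝ := Real.sqrt (C / (2 * θ)) with hη
  have hη2 : η ^ 2 = C / (2 * θ) := Real.sq_sqrt (by positivity)
  have hexp0 : exp ((0 : ℝ) • Lg K) F = F := by simp
  have hV1 : ∑ y, pt K t x0 y * (F y) ^ 2 - (∑ y, pt K t x0 y * F y) ^ 2 ≤ η ^ 2 := by
    have h1 := var_bound (eventually_Lstep (q := q) K hθ0.le) (by positivity : 0 < 2 * θ) ht hC0
      hG x0
    rw [hexp0, mul_zero, neg_zero, Real.exp_zero, mul_one, add_zero] at h1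
    rw [sum_pt K t x0 (fun y => (F y) ^ 2), sum_pt K t x0 F, hη2]
    exact h1
  have hV2 : ∑ y, μ y * (F y) ^ 2 - (∑ y, μ y * F y) ^ 2 ≤ η ^ 2 := by
    have h1 := var_stat K hθ0 hθ1 hμ F (by positivity : 0 < 2 * θ) hC0 le_rfl hG
    rw [hexp0, mul_zero, neg_zero, Real.exp_zero, mul_one] at h1
    rw [hη2]
    exact h1
  have hb := tv_boost (fun y => pt_nonneg K hθ0.le ht x0 y) hμ.nonneg
    (sum_pt_one K hθ0.le ht x0) hμ.sum_one (Real.sqrt_nonneg _) (by norm_num : (0 : ℝ) < 1 / 2)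
    hV1 hV2 (by linarith)
  -- means
  have hm1 : ∑ y, pt K t x0 y * F y = ∑ v, |ell c0 v x0| := by
    rw [sum_pt K t x0 F, hF, exp_intertwine, hinv, J_apply]
    refine Finset.sum_congr rfl fun v _ => ?_
    simp only [hs0]
    rw [mul_comm]
    exact (self_mul_sign _)
  have hm2 : ∑ y, μ y * F y = 0 := by
    have : ∀ y, μ y * F y = ∑ v, s v * (μ y * ell c0 v y) := by
      intro y
      rw [hF, J_apply, Finset.mul_sum]
      exact Finset.sum_congr rfl fun v _ => by ring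
    simp_rw [this]
    rw [Finset.sum_comm]
    refine Finset.sum_eq_zero fun v _ => ?_
    rw [← Finset.mul_sum, stat_ell hθ0 hμ, mul_zero]
  rw [hm1, hm2, sub_zero] at hb
  have hD : n * (q : ℝ)⁻¹ ≤ ∑ v, |ell c0 v x0| := by
    calc n * (q : ℝ)⁻¹ = ∑ _v : V, (q : ℝ)⁻¹ := by
          rw [Finset.sum_const, Finset.card_univ, nsmul_eq_mul]
      _ ≤ ∑ v, |ell c0 v x0| := Finset.sum_le_sum fun v _ => cen_abs_ge hq _ _
  have hb2 : n * (q : ℝ)⁻¹ ≤ 4 * η := by
    have := le_of_abs_le hb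
    linarith
  have hb3 : (n * (q : ℝ)⁻¹) ^ 2 ≤ (4 * η) ^ 2 := pow_le_pow_left₀ (by positivity) hb2 2
  rw [mul_pow 4 η, hη2, hC] at hb3
  have hn0 : 0 < n := by linarith
  have hS2 : S ^ 2 = Real.exp (2 * (1 + Δ) * t) := by
    rw [hS, ← Real.exp_nat_mul]; congr 1; push_cast; ring
  rw [← hS2]
  have h8 : n ^ 2 ≤ n * (32 * q ^ 2 * Δ ^ 2 / θ * S ^ 2) := by
    have h9 : (n * (q : ℝ)⁻¹) ^ 2 * q ^ 2 = n ^ 2 := by field_simp
    have h10 : 4 ^ 2 * (n * (2 * S * Δ) ^ 2 / (2 * θ)) * q ^ 2 =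
        n * (32 * q ^ 2 * Δ ^ 2 / θ * S ^ 2) := by field_simp; ring
    rw [← h9, ← h10]
    exact mul_le_mul_of_nonneg_right hb3 (by positivity)
  nlinarith

end Pool.Agent.Lib.MP_1c1c61_pr
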