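import Pool.Agent.Lib.MP_1c1c61_pr.GradBound

open Filter Topology NormedSpace Function

namespace Pool.Agent.Lib.MP_1c1c61_pr

set_option linter.unusedSectionVars false

variable {V : Type*} [Fintype V] [DecidableEq V] {q : ℕ} {θ Δ : ℝ}

lemma Lg_apply (K : Kern V θ Δ) (f : (V → Fin q) → ℝ) (x : V → Fin q) :
    Lg K f x = θ * ∑ v, E v f x + ∑ v, ∑ w, K.κ v w * f (update x v (x w)) -
      Fintype.card V * f x := by
  have : Lg K f x = Npart V θ f x + Cpart K f x := by simp [Lg]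
  rw [this, Npart_apply, Cpart_apply]; ring

lemma Gam_eq [NeZero q] (K : Kern V θ Δ) (h : (V → Fin q) → ℝ) (x : V → Fin q) :
    Gam (Lg K) h x = ∑ v, (θ * ((q : ℝ)⁻¹ * ∑ c, (h (update x v c) - h x) ^ 2) +
      ∑ w, K.κ v w * (h (update x v (x w)) - h x) ^ 2) := by
  have hq : (q : ℝ) ≠ 0 := by exact_mod_cast NeZero.ne q
  unfold Gam
  rw [Lg_apply, Lg_apply]
  have hn : (Fintype.card V : ℝ) * h x ^ 2 = ∑ v : V, (θ * h x ^ 2 + ∑ w, K.κ v w * h x ^ 2) := by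
    simp_rw [← Finset.sum_mul, K.row]
    rw [Finset.sum_const, Finset.card_univ, nsmul_eq_mul]; ring
  have e1 : ∀ v, θ * ((q : ℝ)⁻¹ * ∑ c, (h (update x v c) - h x) ^ 2) =
      θ * E v (fun y => h y ^ 2) x - 2 * h x * (θ * E v h x) + θ * h x ^ 2 := by
    intro v
    have : ∑ c, (h (update x v c) - h x) ^ 2 =
        ∑ c, h (update x v c) ^ 2 - 2 * h x * ∑ c, h (update x v c) + q * h x ^ 2 := by
      have h1 : ∀ c : Fin q, (h (update x v c) - h x) ^ 2 =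
          h (update x v c) ^ 2 - 2 * h x * h (update x v c) + h x ^ 2 := fun c => by ring
      simp_rw [h1]
      rw [Finset.sum_add_distrib, Finset.sum_sub_distrib, ← Finset.mul_sum, Finset.sum_const,
        Finset.card_univ, Fintype.card_fin, nsmul_eq_mul]
    rw [this, E_apply, E_apply]
    field_simp
  have e2 : ∀ v, ∑ w, K.κ v w * (h (update x v (x w)) - h x) ^ 2 =
      ∑ w, K.κ v w * h (update x v (x w)) ^ 2 - 2 * h x * ∑ w, K.κ v w * h (update x v (x w))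
        + ∑ w, K.κ v w * h x ^ 2 := by
    intro v
    rw [Finset.mul_sum, ← Finset.sum_sub_distrib, ← Finset.sum_add_distrib]
    exact Finset.sum_congr rfl fun w _ => by ring
  simp_rw [e1, e2]
  have e3 : ∀ a : ℝ, a - Fintype.card V * h x ^ 2 - 2 * h x * (0 - Fintype.card V * h x) =
      a + Fintype.card V * h x ^ 2 := fun a => by ring
  simp only [Finset.sum_add_distrib, Finset.sum_sub_distrib, ← Finset.mul_sum] at hn ⊢
  linarith

lemma Gam_le [NeZero q] (K : Kern V θ Δ) (hθ0 : 0 ≤ θ) (h : (V → Fin q) → ℝ)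
    (x : V → Fin q) : ∃ c : V → Fin q, Gam (Lg K) h x ≤
      ∑ v, (h (update x v (c v)) - h x) ^ 2 := by
  have hq : (0 : ℝ) < q := by exact_mod_cast Nat.pos_of_ne_zero (NeZero.ne q)
  have hex : ∀ v, ∃ c : Fin q, ∀ c', (h (update x v c') - h x) ^ 2 ≤
      (h (update x v c) - h x) ^ 2 := by
    intro v
    obtain ⟨c, hc⟩ := Finite.exists_max (fun c : Fin q => (h (update x v c) - h x) ^ 2)
    exact ⟨c, hc⟩
  choose c hc using hex
  refine ⟨c, ?_⟩
  rw [Gam_eq]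
  refine Finset.sum_le_sum fun v _ => ?_
  have h1 : (q : ℝ)⁻¹ * ∑ c', (h (update x v c') - h x) ^ 2 ≤ (h (update x v (c v)) - h x) ^ 2 := by
    rw [inv_mul_le_iff₀ hq]
    calc ∑ c', (h (update x v c') - h x) ^ 2 ≤ ∑ _c' : Fin q, (h (update x v (c v)) - h x) ^ 2 :=
          Finset.sum_le_sum fun c' _ => hc v c'
      _ = q * (h (update x v (c v)) - h x) ^ 2 := by
          rw [Finset.sum_const, Finset.card_univ, Fintype.card_fin, nsmul_eq_mul]
  have h2 : ∑ w, K.κ v w * (h (update x v (x w)) - h x) ^ 2 ≤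
      (1 - θ) * (h (update x v (c v)) - h x) ^ 2 := by
    rw [← K.row v, Finset.sum_mul]
    exact Finset.sum_le_sum fun w _ => mul_le_mul_of_nonneg_left (hc v (x w)) (K.nonneg v w)
  have h3 := mul_le_mul_of_nonneg_left h1 hθ0
  linarith

/-- oscillation decay -/
lemma osc_bound [NeZero q] [Nonempty V] (K : Kern V θ Δ) (hθ0 : 0 ≤ θ) (hθ1 : θ ≤ 1)
    {t : ℝ} (ht : 0 ≤ t) (f : (V → Fin q) → ℝ) (hf : ∀ x, |f x| ≤ 1) (x y : V → Fin q) :
    exp (t • Lg K) f x - exp (t • Lg K) f y ≤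
      2 * (Real.exp (-(θ * t)) * ∑ v, K.d v) := by
  have hcard := card_pos_or V
  set n : ℝ := (Fintype.card V : ℝ) with hn
  set Ψ : ((V → Fin q) → ℝ) →ₗ[ℝ] ℝ := ev x - ev y with hΨ
  have hΨa : ∀ f, Ψ f = f x - f y := fun f => by simp [hΨ]
  have hlimit := tendsto_apply_of (tendsto_Lstep (q := q) K hθ0 ht) Ψ f
  rw [hΨa] at hlimit
  refine le_of_tendsto hlimit ?_
  have hev : ∀ᶠ k : ℕ in atTop, (t * n) ≤ k :=
    tendsto_natCast_atTop_atTop.eventually_ge_atTop (t * n)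
  filter_upwards [hev, eventually_gt_atTop 0] with k hk hk0
  have hk' : (0 : ℝ) < k := by exact_mod_cast hk0
  have h1 : t / k * n ≤ 1 := by
    rw [div_mul_eq_mul_div, div_le_one hk']; exact hk
  have h2 := phase2 K hθ0 hθ1 Ψ (κ0 := 0) (g := fun _ => 2) (fun _ => by norm_num) (by
    intro A f hf hfA
    rw [hΨa]
    rcases A.eq_empty_or_nonempty with h | h
    · subst h
      have : f x = f y := hfA fun i hi => by simp at hi
      simp [this]
    · have h3 := abs_le.mp (hf x)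
      have h4 := abs_le.mp (hf y)
      have h5 : (2 : ℝ) ≤ ∑ _v ∈ A, (2 : ℝ) := by
        rw [Finset.sum_const, nsmul_eq_mul]
        have : (1 : ℝ) ≤ A.card := by exact_mod_cast h.card_pos
        linarith
      linarith) (δ := t / k) (by positivity) h1 k f hf
  refine h2.trans ?_
  have h3 : (1 - θ * (t / k)) ^ k ≤ Real.exp (-(θ * t)) := by
    have h0 : 0 ≤ t / k := by positivity
    have h4 : 0 ≤ 1 - θ * (t / k) := by
      have : t / k ≤ 1 := by nlinarith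
      nlinarith
    have h5 : 1 - θ * (t / k) ≤ Real.exp (-(θ * (t / k))) := by
      have := Real.add_one_le_exp (-(θ * (t / k)))
      linarith
    calc (1 - θ * (t / k)) ^ k ≤ Real.exp (-(θ * (t / k))) ^ k := pow_le_pow_left₀ h4 h5 k
      _ = Real.exp (-(θ * t)) := by
          rw [← Real.exp_nat_mul]
          congr 1
          field_simp
  have h6 : 0 ≤ ∑ v, K.d v := Finset.sum_nonneg fun v _ => by linarith [K.one_le v]
  rw [zero_add, ← Finset.sum_mul]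
  have h7 := mul_le_mul_of_nonneg_right h3 h6
  nlinarith

/-- stationarity of a probability vector -/
structure IsStat (K : Kern V θ Δ) (μ : (V → Fin q) → ℝ) : Prop where
  nonneg : ∀ x, 0 ≤ μ x
  sum_one : ∑ x, μ x = 1
  inv : ∀ t : ℝ, 0 ≤ t → ∀ f : (V → Fin q) → ℝ, ∑ x, μ x * exp (t • Lg K) f x = ∑ x, μ x * f x

lemma abs_osc_bound [NeZero q] [Nonempty V] (K : Kern V θ Δ) (hθ0 : 0 ≤ θ) (hθ1 : θ ≤ 1)
    {t : ℝ} (ht : 0 ≤ t) (f : (V → Fin q) → ℝ) {c : ℝ} (hc : 0 < c) (hf : ∀ x, |f x| ≤ c)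
    (x y : V → Fin q) :
    |exp (t • Lg K) f x - exp (t • Lg K) f y| ≤
      2 * c * (Real.exp (-(θ * t)) * ∑ v, K.d v) := by
  have key : ∀ x y, exp (t • Lg K) f x - exp (t • Lg K) f y ≤
      2 * c * (Real.exp (-(θ * t)) * ∑ v, K.d v) := by
    intro x y
    have h1 := osc_bound K hθ0 hθ1 ht (c⁻¹ • f) (fun z => by
      rw [Pi.smul_apply, smul_eq_mul, abs_mul, abs_of_pos (inv_pos.mpr hc)]
      rw [inv_mul_le_iff₀ hc]; simpa using hf z) x y
    rw [map_smul, Pi.smul_apply, Pi.smul_apply, smul_eq_mul, smul_eq_mul, ← mul_sub,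
      inv_mul_le_iff₀ hc] at h1
    linarith
  rw [abs_le]
  constructor
  · linarith [key y x]
  · exact key x y

lemma mean_bound [NeZero q] [Nonempty V] (K : Kern V θ Δ) (hθ0 : 0 ≤ θ) (hθ1 : θ ≤ 1)
    {μ : (V → Fin q) → ℝ} (hμ : IsStat K μ)
    {t : ℝ} (ht : 0 ≤ t) (f : (V → Fin q) → ℝ) {c : ℝ} (hc : 0 < c) (hf : ∀ x, |f x| ≤ c)
    (x : V → Fin q) :
    |exp (t • Lg K) f x - ∑ y, μ y * f y| ≤
      2 * c * (Real.exp (-(θ * t)) * ∑ v, K.d v) := by
  rw [← hμ.inv t ht f]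
  have h1 : exp (t • Lg K) f x - ∑ y, μ y * exp (t • Lg K) f y =
      ∑ y, μ y * (exp (t • Lg K) f x - exp (t • Lg K) f y) := by
    simp_rw [mul_sub]
    rw [Finset.sum_sub_distrib, ← Finset.sum_mul, hμ.sum_one, one_mul]
  rw [h1]
  refine (Finset.abs_sum_le_sum_abs _ _).trans ?_
  calc ∑ y, |μ y * (exp (t • Lg K) f x - exp (t • Lg K) f y)|
      ≤ ∑ y, μ y * (2 * c * (Real.exp (-(θ * t)) * ∑ v, K.d v)) := by
        refine Finset.sum_le_sum fun y _ => ?_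
        rw [abs_mul, abs_of_nonneg (hμ.nonneg y)]
        exact mul_le_mul_of_nonneg_left (abs_osc_bound K hθ0 hθ1 ht f hc hf x y) (hμ.nonneg y)
    _ = _ := by rw [← Finset.sum_mul, hμ.sum_one, one_mul]

/-- variance bound in stationarity -/
lemma var_stat [NeZero q] [Nonempty V] (K : Kern V θ Δ) (hθ0 : 0 < θ) (hθ1 : θ ≤ 1)
    {μ : (V → Fin q) → ℝ} (hμ : IsStat K μ) (g : (V → Fin q) → ℝ) {C θ' s : ℝ} (hθ' : 0 < θ')
    (hC : 0 ≤ C) (hs : 0 ≤ s)
    (hG : ∀ u, s ≤ u → ∀ y, Gam (Lg K) (exp (u • Lg K) g) y ≤ C * Real.exp (-(θ' * u))) :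
    ∑ x, μ x * (exp (s • Lg K) g x) ^ 2 - (∑ x, μ x * exp (s • Lg K) g x) ^ 2 ≤
      C / θ' * Real.exp (-(θ' * s)) := by
  have hL := eventually_Lstep (q := q) K hθ0.le
  -- a bound for g
  obtain ⟨c, hc, hgc⟩ : ∃ c : ℝ, 0 < c ∧ ∀ x, |g x| ≤ c := by
    refine ⟨‖g‖ + 1, by positivity, fun x => ?_⟩
    have := norm_le_pi_norm g x
    rw [Real.norm_eq_abs] at this
    linarith
  set m := ∑ y, μ y * g y with hm
  have hmean : ∑ x, μ x * exp (s • Lg K) g x = m := hμ.inv s hs g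
  rw [hmean]
  -- bound for each T
  have hT : ∀ T : ℝ, 0 ≤ T → ∑ x, μ x * (exp (s • Lg K) g x) ^ 2 - m ^ 2 ≤
      C / θ' * Real.exp (-(θ' * s)) + (2 * c * (Real.exp (-(θ * (T + s))) * ∑ v, K.d v)) ^ 2 := by
    intro T hT
    have h1 := hμ.inv T hT (fun y => (exp (s • Lg K) g y) ^ 2)
    have h2 : ∀ x, exp (T • Lg K) (fun y => (exp (s • Lg K) g y) ^ 2) x ≤
        (exp ((T + s) • Lg K) g x) ^ 2 + C / θ' * Real.exp (-(θ' * s)) := by
      intro x
      have := var_bound hL hθ' hT hC hG x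
      linarith
    have h3 : ∀ x, (exp ((T + s) • Lg K) g x) ^ 2 ≤
        2 * m * (exp ((T + s) • Lg K) g x) - m ^ 2 +
          (2 * c * (Real.exp (-(θ * (T + s))) * ∑ v, K.d v)) ^ 2 := by
      intro x
      have h4 := mean_bound K hθ0.le hθ1 hμ (by linarith : 0 ≤ T + s) g hc hgc x
      rw [← hm] at h4
      have h5 : (exp ((T + s) • Lg K) g x - m) ^ 2 ≤
          (2 * c * (Real.exp (-(θ * (T + s))) * ∑ v, K.d v)) ^ 2 := by
        rw [← sq_abs]
        exact pow_le_pow_left₀ (abs_nonneg _) h4 2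
      nlinarith
    have h6 : ∑ x, μ x * (exp (s • Lg K) g x) ^ 2 ≤ ∑ x, μ x *
        (2 * m * (exp ((T + s) • Lg K) g x) + (- m ^ 2 +
          (2 * c * (Real.exp (-(θ * (T + s))) * ∑ v, K.d v)) ^ 2 +
            C / θ' * Real.exp (-(θ' * s)))) := by
      rw [← h1]
      refine Finset.sum_le_sum fun x _ => mul_le_mul_of_nonneg_left ?_ (hμ.nonneg x)
      linarith [h2 x, h3 x]
    have h7 : ∑ x, μ x *
        (2 * m * (exp ((T + s) • Lg K) g x) + (- m ^ 2 +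
          (2 * c * (Real.exp (-(θ * (T + s))) * ∑ v, K.d v)) ^ 2 +
            C / θ' * Real.exp (-(θ' * s)))) = 2 * m * m + (- m ^ 2 +
          (2 * c * (Real.exp (-(θ * (T + s))) * ∑ v, K.d v)) ^ 2 +
            C / θ' * Real.exp (-(θ' * s))) := by
      have h8 := hμ.inv (T + s) (by linarith) g
      rw [← hm] at h8
      simp_rw [mul_add]
      rw [Finset.sum_add_distrib]
      have h9 : ∑ x, μ x * (2 * m * exp ((T + s) • Lg K) g x) = 2 * m * m := by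
        calc ∑ x, μ x * (2 * m * exp ((T + s) • Lg K) g x)
            = ∑ x, (2 * m) * (μ x * exp ((T + s) • Lg K) g x) :=
              Finset.sum_congr rfl fun x _ => by ring
          _ = 2 * m * ∑ x, μ x * exp ((T + s) • Lg K) g x := (Finset.mul_sum _ _ _).symm
          _ = _ := by rw [h8]
      rw [h9]
      congr 1
      simp only [Finset.sum_add_distrib, ← Finset.sum_mul, hμ.sum_one, one_mul]
    rw [h7] at h6
    linarith
  -- let T → ∞
  have hlim : Tendsto (fun T : ℝ => C / θ' * Real.exp (-(θ' * s)) +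
      (2 * c * (Real.exp (-(θ * (T + s))) * ∑ v, K.d v)) ^ 2) atTop
      (𝓝 (C / θ' * Real.exp (-(θ' * s)) + (2 * c * (0 * ∑ v, K.d v)) ^ 2)) := by
    refine tendsto_const_nhds.add (Tendsto.pow (tendsto_const_nhds.mul
      (Tendsto.mul_const _ ?_)) 2)
    refine Real.tendsto_exp_atBot.comp ?_
    refine tendsto_neg_atTop_atBot.comp ?_
    exact (tendsto_atTop_add_const_right atTop s tendsto_id).const_mul_atTop hθ0
  rw [zero_mul, mul_zero, zero_pow two_ne_zero, add_zero] at hlim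
  refine ge_of_tendsto hlim ?_
  filter_upwards [eventually_ge_atTop 0] with T hT'
  exact hT T hT'

/-- transition probabilities -/
noncomputable def pt (K : Kern V θ Δ) (t : ℝ) (x y : V → Fin q) : ℝ :=
  exp (t • Lg K) (Pi.single y 1) x

lemma sum_pt (K : Kern V θ Δ) (t : ℝ) (x : V → Fin q) (f : (V → Fin q) → ℝ) :
    ∑ y, pt K t x y * f y = exp (t • Lg K) f x := by
  have h1 : f = ∑ y, f y • (Pi.single y (1 : ℝ) : (V → Fin q) → ℝ) := by
    ext z
    rw [Finset.sum_apply]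
    simp [Pi.single_apply]
  conv_rhs => rw [h1]
  rw [map_sum, Finset.sum_apply]
  refine Finset.sum_congr rfl fun y _ => ?_
  rw [map_smul, Pi.smul_apply, smul_eq_mul, mul_comm]; rfl

lemma pt_nonneg [NeZero q] [Nonempty V] (K : Kern V θ Δ) (hθ0 : 0 ≤ θ) {t : ℝ} (ht : 0 ≤ t)
    (x y : V → Fin q) : 0 ≤ pt K t x y :=
  (isMarkov_exp (eventually_Lstep K hθ0) ht).nonneg _ (fun z => by
    by_cases h : z = y
    · subst h; simp
    · simp [h]) x

lemma sum_pt_one [NeZero q] [Nonempty V] (K : Kern V θ Δ) (hθ0 : 0 ≤ θ) {t : ℝ} (ht : 0 ≤ t)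
    (x : V → Fin q) : ∑ y, pt K t x y = 1 := by
  have h1 := sum_pt K t x (fun _ => 1)
  simp only [mul_one] at h1
  rw [h1, (isMarkov_exp (eventually_Lstep K hθ0) ht).map_one]

/-- the constant of the variance decay -/
noncomputable def Cv (q : ℕ) (θ Δ n : ℝ) : ℝ := 2 * (q + 2) * (Δ * Xs θ Δ n) * Real.exp θ

lemma Gam_bound [NeZero q] [Nonempty V] (K : Kern V θ Δ) (hθ0 : 0 < θ) (hθ1 : θ ≤ 1)
    (hΔ : 1 ≤ Δ) (g : (V → Fin q) → ℝ) (hg : ∀ x, |g x| ≤ 1) {u : ℝ} (hu : 1 ≤ u)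
    (y : V → Fin q) : Gam (Lg K) (exp (u • Lg K) g) y ≤
      Cv q θ Δ (Fintype.card V) * Real.exp (-(θ * u)) := by
  obtain ⟨c, hc⟩ := Gam_le K hθ0.le (exp (u • Lg K) g) y
  refine hc.trans ?_
  have h1 := grad_bound K hθ0 hθ1 hΔ (t := u - 1) (by linarith) g hg c y
  have h2 : 1 + (u - 1) = u := by ring
  rw [h2] at h1
  refine h1.trans (le_of_eq ?_)
  unfold Cv
  have h3 : Real.exp (-(θ * (u - 1))) = Real.exp θ * Real.exp (-(θ * u)) := by
    rw [← Real.exp_add]; congr 1; ring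
  rw [h3]; ring

/-- the boosting statement for the noisy voter model -/
theorem boost [NeZero q] [Nonempty V] (K : Kern V θ Δ) (hθ0 : 0 < θ) (hθ1 : θ ≤ 1)
    (hΔ : 1 ≤ Δ) {μ : (V → Fin q) → ℝ} (hμ : IsStat K μ) (x0 : V → Fin q) {t s ε η : ℝ}
    (ht : 0 ≤ t) (hs : 1 ≤ s) (hε : 0 < ε) (hη : 0 ≤ η)
    (hη2 : Cv q θ Δ (Fintype.card V) / θ * Real.exp (-(θ * s)) ≤ η ^ 2)
    (htv : tv (pt K t x0) μ ≤ 1 - ε) :
    tv (pt K (t + s) x0) μ ≤ η / ε := by
  have hcard := card_pos_or V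
  have hL := eventually_Lstep (q := q) K hθ0.le
  have hX := Xs_nonneg hθ0 hθ1 (by linarith : 0 ≤ Δ) hcard
  have hCv : 0 ≤ Cv q θ Δ (Fintype.card V) := by unfold Cv; positivity
  obtain ⟨g, hg, hgeq⟩ := exists_tv_eq (pt K (t + s) x0) μ
  have hG : ∀ u, s ≤ u → ∀ y, Gam (Lg K) (exp (u • Lg K) g) y ≤
      Cv q θ Δ (Fintype.card V) * Real.exp (-(θ * u)) :=
    fun u hu y => Gam_bound K hθ0 hθ1 hΔ g hg (hs.trans hu) y
  have h1 : ∑ y, pt K t x0 y * (exp (s • Lg K) g y) ^ 2 -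
      (∑ y, pt K t x0 y * exp (s • Lg K) g y) ^ 2 ≤ η ^ 2 := by
    rw [sum_pt K t x0 (fun y => (exp (s • Lg K) g y) ^ 2), sum_pt K t x0 (exp (s • Lg K) g)]
    have h2 := var_bound hL hθ0 ht hCv hG x0
    rw [exp_add', mul_apply_eq_comp] at h2
    exact h2.trans hη2
  have h3 : ∑ y, μ y * (exp (s • Lg K) g y) ^ 2 -
      (∑ y, μ y * exp (s • Lg K) g y) ^ 2 ≤ η ^ 2 :=
    (var_stat K hθ0 hθ1 hμ g hθ0 hCv (by linarith) hG).trans hη2
  have h4 := tv_boost (fun y => pt_nonneg K hθ0.le ht x0 y) hμ.nonneg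
    (sum_pt_one K hθ0.le ht x0) hμ.sum_one hη hε h1 h3 htv
  rw [sum_pt K t x0 (exp (s • Lg K) g), hμ.inv s (by linarith) g, ← mul_apply_eq_comp,
    ← exp_add', ← sum_pt K (t + s) x0 g, ← hgeq] at h4
  have h5 := le_of_abs_le h4
  have h6 : 2 * η / ε = 2 * (η / ε) := by ring
  rw [h6] at h5
  linarith

/-- convergence to stationarity -/
theorem tv_conv [NeZero q] [Nonempty V] (K : Kern V θ Δ) (hθ0 : 0 < θ) (hθ1 : θ ≤ 1)
    {μ : (V → Fin q) → ℝ} (hμ : IsStat K μ) (x0 : V → Fin q) {t : ℝ} (ht : 0 ≤ t) :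
    tv (pt K t x0) μ ≤ Real.exp (-(θ * t)) * ∑ v, K.d v := by
  obtain ⟨g, hg, hgeq⟩ := exists_tv_eq (pt K t x0) μ
  have h1 := mean_bound K hθ0.le hθ1 hμ ht g one_pos hg x0
  rw [sum_pt, ] at hgeq
  rw [← hgeq] at h1
  have := le_of_abs_le h1
  linarith

/-- total variation distance to stationarity is nonincreasing -/
theorem tv_mono [NeZero q] [Nonempty V] (K : Kern V θ Δ) (hθ0 : 0 < θ)
    {μ : (V → Fin q) → ℝ} (hμ : IsStat K μ) (x0 : V → Fin q) {t s : ℝ} (hs : 0 ≤ s) :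
    tv (pt K (t + s) x0) μ ≤ tv (pt K t x0) μ := by
  obtain ⟨g, hg, hgeq⟩ := exists_tv_eq (pt K (t + s) x0) μ
  have hM := isMarkov_exp (eventually_Lstep (q := q) K hθ0.le) hs
  have h1 := sum_sub_le_tv (pt K t x0) μ (exp (s • Lg K) g) (hM.abs_le hg)
  rw [sum_pt K t x0 (exp (s • Lg K) g), hμ.inv s hs g, ← mul_apply_eq_comp,
    ← exp_add', ← sum_pt K (t + s) x0 g, ← hgeq] at h1
  have := le_of_abs_le h1
  linarith

end Pool.Agent.Lib.MP_1c1c61_pr
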