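import Pool.Agent.Lib.MP_1c1c61_pr.Semigroup

open Filter Topology NormedSpace Function

namespace Pool.Agent.Lib.MP_1c1c61_pr

variable {V : Type*} [Fintype V] [DecidableEq V] {q : ℕ}

/-- averaging over the colour at `v` -/
noncomputable def E (v : V) : Op (V → Fin q) :=
  LinearMap.toContinuousLinearMap
    { toFun := fun f x => (q : ℝ)⁻¹ * ∑ c, f (update x v c)
      map_add' := by
        intro f g; ext x
        simp only [Pi.add_apply, Finset.sum_add_distrib, mul_add]
      map_smul' := by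
        intro a f; ext x
        simp only [Pi.smul_apply, smul_eq_mul, RingHom.id_apply, ← Finset.mul_sum]
        ring }

@[simp] lemma E_apply (v : V) (f : (V → Fin q) → ℝ) (x : V → Fin q) :
    E v f x = (q : ℝ)⁻¹ * ∑ c, f (update x v c) := rfl

/-- the colour of `w` is copied to `v` -/
noncomputable def Cp (v w : V) : Op (V → Fin q) :=
  LinearMap.toContinuousLinearMap
    { toFun := fun f x => f (update x v (x w))
      map_add' := by intro f g; rfl
      map_smul' := by intro a f; rfl }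

@[simp] lemma Cp_apply (v w : V) (f : (V → Fin q) → ℝ) (x : V → Fin q) :
    Cp v w f x = f (update x v (x w)) := rfl

lemma isMarkov_Cp (v w : V) : IsMarkov (Cp v w : Op (V → Fin q)) :=
  ⟨rfl, fun f hf x => by simpa using hf _⟩

lemma isMarkov_E [NeZero q] (v : V) : IsMarkov (E v : Op (V → Fin q)) := by
  refine ⟨?_, fun f hf x => ?_⟩
  · ext x
    have : (q : ℝ) ≠ 0 := by exact_mod_cast NeZero.ne q
    simp [this]
  · rw [E_apply]
    exact mul_nonneg (by positivity) (Finset.sum_nonneg fun c _ => hf _)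

lemma E_comm (v w : V) : Commute (E v : Op (V → Fin q)) (E w) := by
  rcases eq_or_ne v w with h | h
  · subst h; exact Commute.refl _
  · refine ContinuousLinearMap.ext fun f => ?_
    ext x
    simp only [mul_apply_eq_comp, E_apply]
    congr 1
    rw [← Finset.mul_sum, ← Finset.mul_sum]
    congr 1
    rw [Finset.sum_comm]
    refine Finset.sum_congr rfl fun c _ => Finset.sum_congr rfl fun c' _ => ?_
    rw [update_comm h]

lemma E_idem [NeZero q] (v : V) : (E v * E v : Op (V → Fin q)) = E v := by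
  refine ContinuousLinearMap.ext fun f => ?_
  ext x
  have : (q : ℝ) ≠ 0 := by exact_mod_cast NeZero.ne q
  simp only [mul_apply_eq_comp, E_apply, update_idem]
  rw [Finset.sum_const, Finset.card_univ, Fintype.card_fin, nsmul_eq_mul]
  field_simp

lemma E_Cp_comm {u v w : V} (hv : u ≠ v) (hw : u ≠ w) :
    Commute (E u : Op (V → Fin q)) (Cp v w) := by
  refine ContinuousLinearMap.ext fun f => ?_
  ext x
  simp only [mul_apply_eq_comp, E_apply, Cp_apply]
  congr 1
  refine Finset.sum_congr rfl fun c _ => ?_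
  rw [update_of_ne hw.symm, update_comm hv]

/-- noise at `v`, keeping the colour with probability `ρ` -/
noncomputable def N (v : V) (ρ : ℝ) : Op (V → Fin q) := ρ • 1 + (1 - ρ) • E v

lemma N_apply (v : V) (ρ : ℝ) (f : (V → Fin q) → ℝ) (x : V → Fin q) :
    N v ρ f x = ρ * f x + (1 - ρ) * E v f x := by
  simp [N]

lemma N_one (v : V) : (N v 1 : Op (V → Fin q)) = 1 := by
  simp [N]

lemma N_mul [NeZero q] (v : V) (ρ σ : ℝ) : (N v ρ * N v σ : Op (V → Fin q)) = N v (ρ * σ) := by
  unfold N
  simp only [add_mul, mul_add, smul_mul_smul_comm, one_mul, mul_one, E_idem]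
  module

lemma N_comm (v w : V) (ρ σ : ℝ) : Commute (N v ρ : Op (V → Fin q)) (N w σ) := by
  unfold N
  refine Commute.add_left (((Commute.one_left _)).smul_left _) (Commute.smul_left ?_ _)
  refine Commute.add_right (((Commute.one_right _)).smul_right _) (Commute.smul_right ?_ _)
  exact E_comm v w

lemma N_Cp_comm {u v w : V} (ρ : ℝ) (h : (u ≠ v ∧ u ≠ w) ∨ ρ = 1) :
    Commute (N u ρ : Op (V → Fin q)) (Cp v w) := by
  rcases h with ⟨h1, h2⟩ | h
  · unfold N
    exact Commute.add_left (((Commute.one_left _)).smul_left _)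
      (Commute.smul_left (E_Cp_comm h1 h2) _)
  · subst h; rw [N_one]; exact Commute.one_left _

/-- convex combination of Markov operators -/
lemma IsMarkov.sum {Ω ι : Type*} [Fintype Ω] (s : Finset ι) (α : ι → ℝ) (T : ι → Op Ω)
    (hα : ∀ i ∈ s, 0 ≤ α i) (hα1 : ∑ i ∈ s, α i = 1) (hT : ∀ i ∈ s, IsMarkov (T i)) :
    IsMarkov (∑ i ∈ s, α i • T i) := by
  refine ⟨?_, fun f hf x => ?_⟩
  · ext x
    rw [_root_.sum_apply, Finset.sum_apply]
    calc ∑ i ∈ s, (α i • T i) (fun _ => 1) x = ∑ i ∈ s, α i := by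
          refine Finset.sum_congr rfl fun i hi => ?_
          have := congrFun (hT i hi).map_one x
          rw [_root_.smul_apply, Pi.smul_apply, this]
          simp
      _ = 1 := hα1
  · rw [_root_.sum_apply, Finset.sum_apply]
    refine Finset.sum_nonneg fun i hi => ?_
    exact mul_nonneg (hα i hi) ((hT i hi).nonneg f hf x)

lemma IsMarkov.add_smul {Ω : Type*} [Fintype Ω] {S T : Op Ω} {a b : ℝ} (ha : 0 ≤ a) (hb : 0 ≤ b)
    (hab : a + b = 1) (hS : IsMarkov S) (hT : IsMarkov T) : IsMarkov (a • S + b • T) := by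
  refine ⟨?_, fun f hf x => ?_⟩
  · ext x
    rw [_root_.add_apply, _root_.smul_apply,
      _root_.smul_apply, hS.map_one, hT.map_one]
    simpa using hab
  · exact add_nonneg (mul_nonneg ha (hS.nonneg f hf x)) (mul_nonneg hb (hT.nonneg f hf x))

lemma isMarkov_N [NeZero q] (v : V) {ρ : ℝ} (h0 : 0 ≤ ρ) (h1 : ρ ≤ 1) :
    IsMarkov (N v ρ : Op (V → Fin q)) :=
  IsMarkov.add_smul h0 (by linarith) (by ring) IsMarkov.id (isMarkov_E v)

/-- product noise along a list of vertices -/
noncomputable def Tl (l : List V) (ρ : V → ℝ) : Op (V → Fin q) := (l.map fun v => N v (ρ v)).prod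

@[simp] lemma Tl_nil (ρ : V → ℝ) : (Tl [] ρ : Op (V → Fin q)) = 1 := rfl

@[simp] lemma Tl_cons (v : V) (l : List V) (ρ : V → ℝ) :
    (Tl (v :: l) ρ : Op (V → Fin q)) = N v (ρ v) * Tl l ρ := by
  simp [Tl]

lemma Tl_N_comm (l : List V) (ρ : V → ℝ) (v : V) (σ : ℝ) :
    Commute (Tl l ρ : Op (V → Fin q)) (N v σ) := by
  induction l with
  | nil => exact Commute.one_left _
  | cons u l ih => rw [Tl_cons]; exact (N_comm u v _ _).mul_left ih

lemma Tl_mul [NeZero q] (l : List V) (ρ σ : V → ℝ) :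
    (Tl l ρ * Tl l σ : Op (V → Fin q)) = Tl l (fun v => ρ v * σ v) := by
  induction l with
  | nil => simp
  | cons u l ih =>
    rw [Tl_cons, Tl_cons, Tl_cons, ← ih, ← N_mul]
    have := (Tl_N_comm (q := q) l ρ u (σ u)).eq
    calc (N u (ρ u) * Tl l ρ) * (N u (σ u) * Tl l σ)
        = N u (ρ u) * (Tl l ρ * N u (σ u)) * Tl l σ := by noncomm_ring
      _ = N u (ρ u) * (N u (σ u) * Tl l ρ) * Tl l σ := by rw [this]
      _ = N u (ρ u) * N u (σ u) * (Tl l ρ * Tl l σ) := by noncomm_ring

lemma Tl_Cp_comm (l : List V) (ρ : V → ℝ) {v w : V} (hv : ρ v = 1) (hw : ρ w = 1) :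
    Commute (Tl l ρ : Op (V → Fin q)) (Cp v w) := by
  induction l with
  | nil => exact Commute.one_left _
  | cons u l ih =>
    rw [Tl_cons]
    refine (N_Cp_comm _ ?_).mul_left ih
    by_cases h1 : u = v
    · right; rw [h1, hv]
    · by_cases h2 : u = w
      · right; rw [h2, hw]
      · exact Or.inl ⟨h1, h2⟩

lemma isMarkov_Tl [NeZero q] (l : List V) {ρ : V → ℝ} (h0 : ∀ v, 0 ≤ ρ v) (h1 : ∀ v, ρ v ≤ 1) :
    IsMarkov (Tl l ρ : Op (V → Fin q)) := by
  induction l with
  | nil => exact IsMarkov.id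
  | cons u l ih => rw [Tl_cons]; exact (isMarkov_N u (h0 u) (h1 u)).mul ih

/-! ### dependence sets -/

lemma dependsOn_E {A : Finset V} {f : (V → Fin q) → ℝ} (hf : DependsOn f A) (v : V) :
    DependsOn (E v f) A := by
  intro x y hxy
  rw [E_apply, E_apply]
  congr 1
  refine Finset.sum_congr rfl fun c _ => hf ?_
  intro i hi
  by_cases h : i = v
  · subst h; simp
  · rw [update_of_ne h, update_of_ne h]; exact hxy i hi

lemma dependsOn_E_erase {A : Finset V} {f : (V → Fin q) → ℝ} (hf : DependsOn f A) (v : V) :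
    DependsOn (E v f) (A.erase v : Finset V) := by
  intro x y hxy
  rw [E_apply, E_apply]
  congr 1
  refine Finset.sum_congr rfl fun c _ => hf ?_
  intro i hi
  by_cases h : i = v
  · subst h; simp
  · rw [update_of_ne h, update_of_ne h]
    exact hxy i (by simpa [h] using hi)

lemma dependsOn_N {A : Finset V} {f : (V → Fin q) → ℝ} (hf : DependsOn f A) (v : V) (ρ : ℝ) :
    DependsOn (N v ρ f) A := by
  intro x y hxy
  rw [N_apply, N_apply, hf hxy, dependsOn_E hf v hxy]

lemma dependsOn_Tl {A : Finset V} (l : List V) (ρ : V → ℝ) {f : (V → Fin q) → ℝ}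
    (hf : DependsOn f A) : DependsOn (Tl l ρ f) A := by
  induction l with
  | nil => simpa using hf
  | cons u l ih => rw [Tl_cons, mul_apply_eq_comp]; exact dependsOn_N ih _ _

/-- how a copy event `v ← w` changes a dependence set -/
def cpSet (v w : V) (A : Finset V) : Finset V := if v ∈ A then insert w (A.erase v) else A

lemma dependsOn_Cp {A : Finset V} {f : (V → Fin q) → ℝ} (hf : DependsOn f A) (v w : V) :
    DependsOn (Cp v w f) (cpSet v w A : Finset V) := by
  intro x y hxy
  rw [Cp_apply, Cp_apply]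
  refine hf fun i hi => ?_
  have hi' : i ∈ A := hi
  unfold cpSet at hxy
  by_cases h : i = v
  · subst h
    rw [if_pos hi'] at hxy
    simp only [update_self]
    exact hxy w (by simp)
  · rw [update_of_ne h, update_of_ne h]
    apply hxy
    split_ifs
    · simp [h, hi']
    · exact hi

/-! ### the gradient inequality for product noise -/

/-- single site variance inequality -/
lemma single_site [NeZero q] (v : V) {ρ : ℝ} (h0 : 0 ≤ ρ) (h1 : ρ ≤ 1)
    (F : (V → Fin q) → ℝ) (x : V → Fin q) (c : Fin q) :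
    (1 - ρ) / (2 * q) * (N v ρ F (update x v c) - N v ρ F x) ^ 2 ≤
      N v ρ (fun y => F y ^ 2) x - (N v ρ F x) ^ 2 := by
  have hq : (0 : ℝ) < q := by exact_mod_cast Nat.pos_of_ne_zero (NeZero.ne q)
  set a := F x with ha
  set m := E v F x with hm
  have hEc : E v F (update x v c) = m := by
    simp [hm, E_apply]
  have hN1 : N v ρ F (update x v c) = ρ * F (update x v c) + (1 - ρ) * m := by
    rw [N_apply, hEc]
  have hN2 : N v ρ F x = ρ * a + (1 - ρ) * m := by rw [N_apply]
  set s := F (update x v c) with hs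
  set S := E v (fun y => F y ^ 2) x with hS
  have hN3 : N v ρ (fun y => F y ^ 2) x = ρ * a ^ 2 + (1 - ρ) * S := by rw [N_apply]
  -- S - m^2 >= (1/q) (s-m)^2
  have hvar : (1 / q : ℝ) * (s - m) ^ 2 ≤ S - m ^ 2 := by
    have hsum : S - m ^ 2 = (q : ℝ)⁻¹ * ∑ c', (F (update x v c') - m) ^ 2 := by
      have e1 : ∑ c', (F (update x v c') - m) ^ 2 =
          ∑ c', F (update x v c') ^ 2 - 2 * m * ∑ c', F (update x v c') + q * m ^ 2 := by
        have : ∀ c' : Fin q, (F (update x v c') - m) ^ 2 =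
            F (update x v c') ^ 2 - 2 * m * F (update x v c') + m ^ 2 := fun c' => by ring
        simp_rw [this]
        rw [Finset.sum_add_distrib, Finset.sum_sub_distrib, ← Finset.mul_sum, Finset.sum_const,
          Finset.card_univ, Fintype.card_fin, nsmul_eq_mul]
      have e2 : ∑ c', F (update x v c') = q * m := by
        rw [hm, E_apply]; field_simp
      have e3 : S = (q : ℝ)⁻¹ * ∑ c', F (update x v c') ^ 2 := by rw [hS, E_apply]
      rw [e1, e2, e3]
      field_simp
      ring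
    rw [hsum, one_div]
    refine mul_le_mul_of_nonneg_left ?_ (by positivity)
    exact Finset.single_le_sum (f := fun c' => (F (update x v c') - m) ^ 2)
      (fun c' _ => sq_nonneg _) (Finset.mem_univ c)
  rw [hN1, hN2, hN3]
  have hq1 : (1 / q : ℝ) ≤ 1 := by
    rw [div_le_one hq]; exact_mod_cast Nat.one_le_iff_ne_zero.mpr (NeZero.ne q)
  -- expand
  have e4 : ρ * a ^ 2 + (1 - ρ) * S - (ρ * a + (1 - ρ) * m) ^ 2 =
      (1 - ρ) * (ρ * (a - m) ^ 2 + (S - m ^ 2)) := by ring
  have e5 : (1 - ρ) / (2 * q) * (ρ * s + (1 - ρ) * m - (ρ * a + (1 - ρ) * m)) ^ 2 =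
      (1 - ρ) * ((1 / q) * (ρ ^ 2 * (s - a) ^ 2 / 2)) := by
    field_simp; ring
  rw [e4, e5]
  refine mul_le_mul_of_nonneg_left ?_ (by linarith)
  have e6 : ρ ^ 2 * (s - a) ^ 2 / 2 ≤ ρ * (a - m) ^ 2 + (s - m) ^ 2 := by
    have hρ2 : ρ ^ 2 ≤ ρ := by nlinarith
    have : (s - a) ^ 2 ≤ 2 * ((s - m) ^ 2 + (a - m) ^ 2) := by nlinarith [sq_nonneg ((s - m) + (a - m))]
    have h3 : ρ ^ 2 * (s - a) ^ 2 / 2 ≤ ρ ^ 2 * ((s - m) ^ 2 + (a - m) ^ 2) := by
      nlinarith [sq_nonneg ρ]
    nlinarith [sq_nonneg (s - m), sq_nonneg (a - m)]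
  calc (1 / q : ℝ) * (ρ ^ 2 * (s - a) ^ 2 / 2)
      ≤ (1 / q) * (ρ * (a - m) ^ 2 + (s - m) ^ 2) :=
        mul_le_mul_of_nonneg_left e6 (by positivity)
    _ = (1 / q) * (ρ * (a - m) ^ 2) + (1 / q) * (s - m) ^ 2 := by ring
    _ ≤ ρ * (a - m) ^ 2 + (S - m ^ 2) := by
        have : (1 / q : ℝ) * (ρ * (a - m) ^ 2) ≤ 1 * (ρ * (a - m) ^ 2) :=
          mul_le_mul_of_nonneg_right hq1 (by positivity)
        linarith

/-- `N v` commutes with the gradient at another vertex -/
lemma N_update {u v : V} (huv : u ≠ v) (ρ : ℝ) (F : (V → Fin q) → ℝ) (x : V → Fin q) (c : Fin q) :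
    N v ρ F (update x u c) - N v ρ F x = N v ρ (fun y => F (update y u c) - F y) x := by
  simp only [N_apply, E_apply]
  have : ∀ c', update (update x u c) v c' = update (update x v c') u c := fun c' =>
    update_comm huv _ _ _
  simp only [this, Finset.sum_sub_distrib]
  ring

lemma list_sum_smul_fun {Ω ι : Type*} (l : List ι) (a : ι → ℝ) (G : ι → Ω → ℝ) :
    (fun y => (l.map fun u => a u * G u y).sum) = (l.map fun u => (a u) • G u).sum := by
  ext y
  induction l with
  | nil => simp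
  | cons w l ih => simp [ih]

lemma list_sum_map_apply {Ω ι : Type*} [Fintype Ω] (T : Op Ω) (l : List ι) (a : ι → ℝ)
    (G : ι → Ω → ℝ) (x : Ω) :
    T (fun y => (l.map fun u => a u * G u y).sum) x = (l.map fun u => a u * T (G u) x).sum := by
  rw [list_sum_smul_fun, map_list_sum, List.map_map]
  induction l with
  | nil => simp
  | cons w l ih =>
    rw [List.map_cons, List.sum_cons, Pi.add_apply, ih, List.map_cons, List.sum_cons]
    simp

/-- gradient inequality for product noise -/
lemma grad_Tl [NeZero q] (l : List V) (hl : l.Nodup) {ρ : V → ℝ} (h0 : ∀ v, 0 ≤ ρ v)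
    (h1 : ∀ v, ρ v ≤ 1) (k : (V → Fin q) → ℝ) (c : V → Fin q) (x : V → Fin q) :
    (l.map fun v => (1 - ρ v) / (2 * q) * (Tl l ρ k (update x v (c v)) - Tl l ρ k x) ^ 2).sum ≤
      Tl l ρ (fun y => k y ^ 2) x - (Tl l ρ k x) ^ 2 := by
  have hq : (0 : ℝ) < q := by exact_mod_cast Nat.pos_of_ne_zero (NeZero.ne q)
  induction l generalizing x with
  | nil => simp
  | cons v l ih =>
    have hv : v ∉ l := (List.nodup_cons.mp hl).1
    have hl' : l.Nodup := (List.nodup_cons.mp hl).2
    rw [List.map_cons, List.sum_cons]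
    set F := (Tl l ρ : Op (V → Fin q)) k with hF
    have hMN : IsMarkov (N v (ρ v) : Op (V → Fin q)) := isMarkov_N v (h0 v) (h1 v)
    have e0 : (Tl (v :: l) ρ : Op (V → Fin q)) k = N v (ρ v) F := by
      rw [Tl_cons, mul_apply_eq_comp]
    have e1 : (Tl (v :: l) ρ : Op (V → Fin q)) (fun y => k y ^ 2) =
        N v (ρ v) (Tl l ρ (fun y => k y ^ 2)) := by
      rw [Tl_cons, mul_apply_eq_comp]
    rw [e0, e1]
    have s1 := single_site v (h0 v) (h1 v) F x (c v)
    have s2 : (l.map fun u => (1 - ρ u) / (2 * q) *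
        (N v (ρ v) F (update x u (c u)) - N v (ρ v) F x) ^ 2).sum ≤
        N v (ρ v) (Tl l ρ (fun y => k y ^ 2)) x - N v (ρ v) (fun y => F y ^ 2) x := by
      have s3 : N v (ρ v) (fun y => (l.map fun u => (1 - ρ u) / (2 * q) *
          (F (update y u (c u)) - F y) ^ 2).sum) x ≤
          N v (ρ v) (Tl l ρ (fun y => k y ^ 2)) x - N v (ρ v) (fun y => F y ^ 2) x := by
        have := hMN.mono (f := fun y => (l.map fun u => (1 - ρ u) / (2 * q) *
          (F (update y u (c u)) - F y) ^ 2).sum)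
          (g := (Tl l ρ (fun y => k y ^ 2)) - (fun y => F y ^ 2))
          (fun y => by simpa using ih hl' y) x
        rwa [map_sub, Pi.sub_apply] at this
      refine le_trans ?_ s3
      rw [list_sum_map_apply]
      refine List.sum_le_sum fun u hu => ?_
      have huv : u ≠ v := fun h => hv (h ▸ hu)
      refine mul_le_mul_of_nonneg_left ?_ (div_nonneg (by have := h1 u; linarith) (by positivity))
      rw [N_update huv]
      exact hMN.sq_le _ x
    linarith

end Pool.Agent.Lib.MP_1c1c61_pr
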