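import Mathlib

open Filter Topology NormedSpace

namespace Pool.Agent.Lib.MP_1c1c61_pr

section Chernoff

lemma pow_sub_pow_norm_le {𝔸 : Type*} [NormedRing 𝔸] {X Y : 𝔸} {C : ℝ} (hX : ‖X‖ ≤ 1) (m : ℕ)
    (hY : ∀ j < m, ‖Y ^ j‖ ≤ C) : ‖X ^ m - Y ^ m‖ ≤ m * (‖X - Y‖ * C) := by
  induction m with
  | zero => simp
  | succ j ih =>
    have h1 : X ^ (j + 1) - Y ^ (j + 1) = X * (X ^ j - Y ^ j) + (X - Y) * Y ^ j := by
      rw [pow_succ', pow_succ']; noncomm_ring
    have h2 := ih (fun i hi => hY i (Nat.lt_succ_of_lt hi))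
    have h3 := hY j (Nat.lt_succ_self j)
    calc ‖X ^ (j + 1) - Y ^ (j + 1)‖ = ‖X * (X ^ j - Y ^ j) + (X - Y) * Y ^ j‖ := by rw [h1]
      _ ≤ ‖X * (X ^ j - Y ^ j)‖ + ‖(X - Y) * Y ^ j‖ := norm_add_le _ _
      _ ≤ ‖X‖ * ‖X ^ j - Y ^ j‖ + ‖X - Y‖ * ‖Y ^ j‖ :=
        add_le_add (norm_mul_le _ _) (norm_mul_le _ _)
      _ ≤ 1 * (j * (‖X - Y‖ * C)) + ‖X - Y‖ * C := by
        gcongr
      _ = ((j + 1 : ℕ) : ℝ) * (‖X - Y‖ * C) := by push_cast; ring

theorem chernoff {𝔸 : Type*} [NormedRing 𝔸] [NormedAlgebra ℝ 𝔸] [CompleteSpace 𝔸] {A : ℝ → 𝔸} {L : 𝔸} (hA1 : ∀ᶠ δ in 𝓝[>] (0 : ℝ), ‖A δ‖ ≤ 1) (hA0 : A 0 = 1)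
    (hd : HasDerivAt A L 0) {t : ℝ} (ht : 0 ≤ t) :
    Tendsto (fun m : ℕ => (A (t / m)) ^ m) atTop (𝓝 (exp (t • L))) := by
  rcases ht.eq_or_lt with h0 | htpos
  · subst h0
    simp [hA0]
  let _ : NormedAlgebra ℚ 𝔸 := .restrictScalars ℚ ℝ 𝔸
  -- bound of exp on [0,t]
  have hcont : Continuous (fun s : ℝ => exp (s • L)) := by
    exact exp_continuous.comp (continuous_id.smul continuous_const)
  obtain ⟨C, hC⟩ : ∃ C, ∀ s ∈ Set.Icc (0 : ℝ) t, ‖exp (s • L)‖ ≤ C := by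
    obtain ⟨C, hC⟩ := (isCompact_Icc (a := (0 : ℝ)) (b := t)).exists_bound_of_continuousOn
      hcont.continuousOn
    exact ⟨C, hC⟩
  have hC0 : 0 ≤ C := (norm_nonneg _).trans (hC 0 ⟨le_rfl, ht⟩)
  set D : ℝ → 𝔸 := fun δ => A δ - exp (δ • L) with hD
  have hDd : HasDerivAt D 0 0 := by
    have h1 := hasDerivAt_exp_smul_const (𝕂 := ℝ) L (0 : ℝ)
    have h2 := hd.fun_sub h1
    simpa [hD] using h2
  have hD0 : D 0 = 0 := by simp [hD, hA0]
  -- limit of t/m
  have hlim : Tendsto (fun m : ℕ => t / (m : ℝ)) atTop (𝓝[>] 0) := by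
    rw [tendsto_nhdsWithin_iff]
    refine ⟨tendsto_const_div_atTop_nhds_zero_nat t, ?_⟩
    filter_upwards [eventually_gt_atTop 0] with m hm
    have : (0 : ℝ) < m := by exact_mod_cast hm
    exact div_pos htpos this
  have hlim0 : Tendsto (fun m : ℕ => t / (m : ℝ)) atTop (𝓝 0) :=
    tendsto_nhds_of_tendsto_nhdsWithin hlim
  have hsmall : Tendsto (fun m : ℕ => (m : ℝ) * ‖D (t / m)‖) atTop (𝓝 0) := by
    have h1 : (fun δ => D δ) =o[𝓝 0] (fun δ : ℝ => δ) := by
      have := hasDerivAt_iff_isLittleO.mp hDd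
      simpa [hD0] using this
    have h2 := (h1.comp_tendsto hlim0).norm_norm
    have h3 : Tendsto (fun m : ℕ => ‖D (t / m)‖ / ‖t / (m : ℝ)‖) atTop (𝓝 0) := by
      have := h2.tendsto_div_nhds_zero
      simpa [Function.comp] using this
    have h4 : Tendsto (fun m : ℕ => t * (‖D (t / m)‖ / ‖t / (m : ℝ)‖)) atTop (𝓝 (t * 0)) :=
      h3.const_mul t
    rw [mul_zero] at h4
    refine h4.congr' ?_
    filter_upwards [eventually_gt_atTop 0] with m hm
    have hm' : (0 : ℝ) < m := by exact_mod_cast hm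
    rw [Real.norm_of_nonneg (div_nonneg ht hm'.le)]
    field_simp
  rw [tendsto_iff_norm_sub_tendsto_zero]
  have hfin : Tendsto (fun m : ℕ => ((m : ℝ) * ‖D (t / m)‖) * C) atTop (𝓝 0) := by
    simpa using hsmall.mul_const C
  refine squeeze_zero' (Eventually.of_forall fun m => norm_nonneg _) ?_ hfin
  filter_upwards [eventually_gt_atTop 0, hlim.eventually hA1] with m hm hA
  have hm' : (0 : ℝ) < m := by exact_mod_cast hm
  have hexp : exp (t • L) = (exp ((t / m) • L)) ^ m := by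
    rw [← exp_nsmul]
    congr 1
    rw [← Nat.cast_smul_eq_nsmul ℝ, smul_smul]
    congr 1
    field_simp
  rw [hexp]
  have := pow_sub_pow_norm_le (X := A (t / m)) (Y := exp ((t / m) • L)) (C := C) hA m (by
    intro j hj
    rw [← exp_nsmul, ← Nat.cast_smul_eq_nsmul ℝ, smul_smul]
    apply hC
    have hj' : (j : ℝ) ≤ m := by exact_mod_cast hj.le
    constructor
    · positivity
    · calc (j : ℝ) * (t / m) ≤ m * (t / m) := by gcongr
        _ = t := by field_simp)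
  calc ‖A (t / m) ^ m - exp ((t / m) • L) ^ m‖ ≤ m * (‖A (t / m) - exp ((t / m) • L)‖ * C) := this
    _ = (m : ℝ) * ‖D (t / m)‖ * C := by simp [hD]; ring

end Chernoff

section Markov

/-- continuous linear operators on functions on a finite set -/
abbrev Op (Ω : Type*) [Fintype Ω] := (Ω → ℝ) →L[ℝ] (Ω → ℝ)

variable {Ω : Type*} [Fintype Ω]

structure IsMarkov (T : Op Ω) : Prop where
  map_one : T (fun _ => 1) = fun _ => 1
  nonneg : ∀ f : Ω → ℝ, (∀ x, 0 ≤ f x) → ∀ x, 0 ≤ T f x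

namespace IsMarkov

variable {T S : Op Ω}

lemma map_const (h : IsMarkov T) (c : ℝ) : T (fun _ => c) = fun _ => c := by
  have : (fun _ : Ω => c) = c • (fun _ : Ω => (1 : ℝ)) := by ext; simp
  rw [this, map_smul, h.map_one]

lemma mono (h : IsMarkov T) {f g : Ω → ℝ} (hfg : ∀ x, f x ≤ g x) (x : Ω) : T f x ≤ T g x := by
  have h1 := h.nonneg (g - f) (fun y => by simpa using hfg y) x
  rw [map_sub] at h1
  simpa using h1

lemma abs_le (h : IsMarkov T) {f : Ω → ℝ} {c : ℝ} (hf : ∀ x, |f x| ≤ c) (x : Ω) :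
    |T f x| ≤ c := by
  rw [_root_.abs_le]
  constructor
  · have := h.mono (f := fun _ => -c) (g := f) (fun y => (_root_.abs_le.mp (hf y)).1) x
    rwa [h.map_const] at this
  · have := h.mono (f := f) (g := fun _ => c) (fun y => (_root_.abs_le.mp (hf y)).2) x
    rwa [h.map_const] at this

lemma norm_le_one (h : IsMarkov T) : ‖T‖ ≤ 1 := by
  refine ContinuousLinearMap.opNorm_le_bound _ zero_le_one (fun f => ?_)
  rw [one_mul, pi_norm_le_iff_of_nonneg (norm_nonneg _)]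
  intro x
  rw [Real.norm_eq_abs]
  exact h.abs_le (fun y => by simpa using norm_le_pi_norm f y) x

lemma sq_le (h : IsMarkov T) (f : Ω → ℝ) (x : Ω) : (T f x) ^ 2 ≤ T (fun y => (f y) ^ 2) x := by
  set c := T f x with hc
  have h1 := h.nonneg (fun y => (f y - c) ^ 2) (fun y => sq_nonneg _) x
  have h2 : (fun y => (f y - c) ^ 2) = (fun y => (f y) ^ 2) - (2 * c) • f
      + fun _ => c ^ 2 := by
    ext y; simp; ring
  rw [h2, map_add, map_sub, map_smul, h.map_const] at h1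
  simp only [Pi.add_apply, Pi.sub_apply, Pi.smul_apply, smul_eq_mul, ← hc] at h1
  nlinarith

lemma id : IsMarkov (1 : Op Ω) := ⟨rfl, fun f hf x => by simpa using hf x⟩

lemma mul (hT : IsMarkov T) (hS : IsMarkov S) : IsMarkov (T * S) := by
  refine ⟨?_, ?_⟩
  · rw [mul_apply_eq_comp, hS.map_one, hT.map_one]
  · intro f hf x
    rw [mul_apply_eq_comp]
    exact hT.nonneg _ (hS.nonneg f hf) x

lemma pow (hT : IsMarkov T) (m : ℕ) : IsMarkov (T ^ m) := by
  induction m with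
  | zero => simpa using IsMarkov.id
  | succ m ih => rw [pow_succ]; exact ih.mul hT

lemma of_tendsto {Tn : ℕ → Op Ω} (h : Tendsto Tn atTop (𝓝 T))
    (hM : ∀ᶠ n in atTop, IsMarkov (Tn n)) : IsMarkov T := by
  have hpt : ∀ f x, Tendsto (fun n => Tn n f x) atTop (𝓝 (T f x)) := by
    intro f x
    have h1 : Continuous (fun S : Op Ω => S f x) :=
      (continuous_apply x).comp (ContinuousLinearMap.apply ℝ (Ω → ℝ) f).continuous
    exact (h1.tendsto T).comp h
  refine ⟨?_, ?_⟩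
  · ext x
    have h1 := hpt (fun _ => 1) x
    refine tendsto_nhds_unique h1 ?_
    refine tendsto_const_nhds.congr' ?_
    filter_upwards [hM] with n hn
    rw [hn.map_one]
  · intro f hf x
    refine ge_of_tendsto (hpt f x) ?_
    filter_upwards [hM] with n hn
    exact hn.nonneg f hf x

end IsMarkov

/-- If `1 + δ L` is Markov for small `δ ≥ 0` then `exp (t L)` is Markov. -/
lemma isMarkov_exp {L : Op Ω} (hL : ∀ᶠ δ in 𝓝[>] (0 : ℝ), IsMarkov (1 + δ • L)) {t : ℝ}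
    (ht : 0 ≤ t) : IsMarkov (exp (t • L)) := by
  have hd : HasDerivAt (fun δ : ℝ => (1 : Op Ω) + δ • L) L 0 := by
    have := ((hasDerivAt_id (0 : ℝ)).smul_const L).const_add (1 : Op Ω)
    simpa using this
  have h := chernoff (A := fun δ : ℝ => (1 : Op Ω) + δ • L) (L := L)
    (hL.mono fun δ h => h.norm_le_one) (by simp) hd ht
  rcases ht.eq_or_lt with h0 | htpos
  · subst h0; simpa using IsMarkov.id
  have hlim : Tendsto (fun m : ℕ => t / (m : ℝ)) atTop (𝓝[>] 0) := by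
    rw [tendsto_nhdsWithin_iff]
    refine ⟨tendsto_const_div_atTop_nhds_zero_nat t, ?_⟩
    filter_upwards [eventually_gt_atTop 0] with m hm
    have : (0 : ℝ) < m := by exact_mod_cast hm
    exact div_pos htpos this
  refine IsMarkov.of_tendsto h ?_
  filter_upwards [hlim.eventually hL] with m hm
  exact hm.pow m

/-- carre du champ -/
def Gam (L : Op Ω) (h : Ω → ℝ) (x : Ω) : ℝ := L (fun y => h y ^ 2) x - 2 * h x * L h x

lemma exp_add' (L : Op Ω) (s t : ℝ) : exp ((s + t) • L) = exp (s • L) * exp (t • L) := by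
  let _ : NormedAlgebra ℚ (Op Ω) := .restrictScalars ℚ ℝ (Op Ω)
  rw [add_smul, exp_add_of_commute]
  exact ((Commute.refl L).smul_left s).smul_right t

lemma hasDerivAt_exp' (L : Op Ω) (t : ℝ) : HasDerivAt (fun u : ℝ => exp (u • L)) (exp (t • L) * L) t :=
  hasDerivAt_exp_smul_const (𝕂 := ℝ) L t

lemma hasDerivAt_exp'' (L : Op Ω) (t : ℝ) : HasDerivAt (fun u : ℝ => exp (u • L)) (L * exp (t • L)) t :=
  hasDerivAt_exp_smul_const' (𝕂 := ℝ) L t

lemma hasDerivAt_var (L : Op Ω) (g : Ω → ℝ) (T r : ℝ) (x : Ω) :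
    HasDerivAt (fun u : ℝ => exp (u • L) (fun y => (exp ((T - u) • L) g y) ^ 2) x)
      (exp (r • L) (Gam L (exp ((T - r) • L) g)) x) r := by
  have h1 := hasDerivAt_exp' L r
  have h2 : HasDerivAt (fun u : ℝ => exp ((T - u) • L) g) (-(L (exp ((T - r) • L) g))) r := by
    have h3 : HasDerivAt (fun u : ℝ => T - u) (-1) r := by
      simpa using (hasDerivAt_id r).const_sub T
    have h4 := (hasDerivAt_exp'' L (T - r)).scomp r h3
    have h5 := h4.clm_apply (hasDerivAt_const r g)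
    simpa using h5
  have h2' := hasDerivAt_pi.mp h2
  have h6 : HasDerivAt (fun u : ℝ => (fun y => (exp ((T - u) • L) g y) ^ 2))
      (fun y => 2 * (exp ((T - r) • L) g y) * (-(L (exp ((T - r) • L) g) y))) r := by
    rw [hasDerivAt_pi]
    intro y
    have := (h2' y).fun_pow 2
    simpa using this
  have h7 := h1.clm_apply h6
  have h8 := (hasDerivAt_pi.mp h7) x
  have hval : exp (r • L) (Gam L (exp ((T - r) • L) g)) x =
      (((exp (r • L) * L) fun y => exp ((T - r) • L) g y ^ 2) +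
        (exp (r • L)) fun y => 2 * exp ((T - r) • L) g y * -L (exp ((T - r) • L) g) y) x := by
    rw [mul_apply_eq_comp, ← map_add]
    have : Gam L (exp ((T - r) • L) g) = (L fun y => exp ((T - r) • L) g y ^ 2) +
        fun y => 2 * exp ((T - r) • L) g y * -L (exp ((T - r) • L) g) y := by
      ext y
      simp only [Gam, Pi.add_apply]
      ring
    rw [this]
  rw [hval]
  exact h8

/-- variance bound under the semigroup started from a point -/
lemma var_bound {L : Op Ω} (hL : ∀ᶠ δ in 𝓝[>] (0 : ℝ), IsMarkov (1 + δ • L)) {g : Ω → ℝ}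
    {C θ s t : ℝ} (hθ : 0 < θ) (ht : 0 ≤ t) (hC : 0 ≤ C)
    (hG : ∀ u, s ≤ u → ∀ y, Gam L (exp (u • L) g) y ≤ C * Real.exp (-(θ * u))) (x : Ω) :
    exp (t • L) (fun y => (exp (s • L) g y) ^ 2) x - (exp ((t + s) • L) g x) ^ 2
      ≤ C / θ * Real.exp (-(θ * s)) := by
  set F : ℝ → ℝ := fun u => exp (u • L) (fun y => (exp ((t + s - u) • L) g y) ^ 2) x with hF
  set B : ℝ → ℝ := fun u => F 0 + (C / θ * Real.exp (-(θ * (t + s - u)))
    - C / θ * Real.exp (-(θ * (t + s)))) with hB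
  have hFd : ∀ r, HasDerivAt F (exp (r • L) (Gam L (exp ((t + s - r) • L) g)) x) r :=
    fun r => hasDerivAt_var L g (t + s) r x
  have hBd : ∀ r, HasDerivAt B (C * Real.exp (-(θ * (t + s - r)))) r := by
    intro r
    have h1 : HasDerivAt (fun u : ℝ => -(θ * (t + s - u))) θ r := by
      have := (((hasDerivAt_id r).const_sub (t + s)).const_mul θ).fun_neg
      simpa using this
    have h2 := ((h1.exp.const_mul (C / θ)).sub_const (C / θ * Real.exp (-(θ * (t + s))))).const_add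
      (F 0)
    have h3 : C * Real.exp (-(θ * (t + s - r))) =
        C / θ * (Real.exp (-(θ * (t + s - r))) * θ) := by
      field_simp
    rw [h3]
    exact h2
  have key := image_le_of_deriv_right_le_deriv_boundary (f := F)
    (f' := fun r => exp (r • L) (Gam L (exp ((t + s - r) • L) g)) x) (a := 0) (b := t)
    (fun r _ => (hFd r).continuousAt.continuousWithinAt)
    (fun r _ => (hFd r).hasDerivWithinAt) (B := B)
    (B' := fun r => C * Real.exp (-(θ * (t + s - r)))) (by simp [hB])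
    (fun r _ => (hBd r).continuousAt.continuousWithinAt)
    (fun r _ => (hBd r).hasDerivWithinAt) (by
      intro r hr
      have hM := isMarkov_exp hL hr.1
      have := hM.mono (f := Gam L (exp ((t + s - r) • L) g))
        (g := fun _ => C * Real.exp (-(θ * (t + s - r))))
        (fun y => hG _ (by linarith [hr.2]) y) x
      rwa [hM.map_const] at this)
  have hlast := key (Set.right_mem_Icc.mpr ht)
  have hF0 : F 0 = (exp ((t + s) • L) g x) ^ 2 := by simp [hF]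
  have hFt : F t = exp (t • L) (fun y => (exp (s • L) g y) ^ 2) x := by simp [hF]
  rw [← hF0, ← hFt]
  have hBt : B t = F 0 + (C / θ * Real.exp (-(θ * s))
    - C / θ * Real.exp (-(θ * (t + s)))) := by simp [hB]
  rw [hBt] at hlast
  have hpos : 0 ≤ C / θ * Real.exp (-(θ * (t + s))) := by positivity
  linarith

end Markov

section TV

variable {Ω : Type*} [Fintype Ω]

/-- total variation distance of two (probability) vectors -/
noncomputable def tv (ν μ : Ω → ℝ) : ℝ := (1 / 2) * ∑ x, |ν x - μ x|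

lemma tv_nonneg (ν μ : Ω → ℝ) : 0 ≤ tv ν μ := by
  unfold tv; positivity

lemma tv_comm (ν μ : Ω → ℝ) : tv ν μ = tv μ ν := by
  unfold tv; congr 1; exact Finset.sum_congr rfl fun x _ => abs_sub_comm _ _

lemma sum_sub_le_tv (ν μ g : Ω → ℝ) (hg : ∀ x, |g x| ≤ 1) :
    |∑ x, ν x * g x - ∑ x, μ x * g x| ≤ 2 * tv ν μ := by
  have h1 : 2 * tv ν μ = ∑ x, |ν x - μ x| := by unfold tv; ring
  rw [← Finset.sum_sub_distrib, h1]
  refine (Finset.abs_sum_le_sum_abs _ _).trans ?_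
  refine Finset.sum_le_sum fun x _ => ?_
  rw [← sub_mul, abs_mul]
  exact mul_le_of_le_one_right (abs_nonneg _) (hg x)

lemma exists_tv_eq (ν μ : Ω → ℝ) : ∃ g : Ω → ℝ, (∀ x, |g x| ≤ 1) ∧
    2 * tv ν μ = ∑ x, ν x * g x - ∑ x, μ x * g x := by
  refine ⟨fun x => if 0 ≤ ν x - μ x then 1 else -1, fun x => ?_, ?_⟩
  · dsimp only; split_ifs <;> simp
  · have h1 : 2 * tv ν μ = ∑ x, |ν x - μ x| := by unfold tv; ring
    rw [← Finset.sum_sub_distrib, h1]
    refine Finset.sum_congr rfl fun x _ => ?_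
    dsimp only
    split_ifs with h
    · rw [abs_of_nonneg (by linarith)]; ring
    · rw [abs_of_neg (by linarith)]; ring

/-- The boosting lemma. -/
lemma tv_boost {ν μ : Ω → ℝ} (hν : ∀ x, 0 ≤ ν x) (hμ : ∀ x, 0 ≤ μ x) (hν1 : ∑ x, ν x = 1)
    (hμ1 : ∑ x, μ x = 1) {h : Ω → ℝ} {η ε : ℝ} (hη : 0 ≤ η) (hε : 0 < ε)
    (hVν : ∑ x, ν x * (h x) ^ 2 - (∑ x, ν x * h x) ^ 2 ≤ η ^ 2)
    (hVμ : ∑ x, μ x * (h x) ^ 2 - (∑ x, μ x * h x) ^ 2 ≤ η ^ 2)
    (htv : tv ν μ ≤ 1 - ε) :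
    |∑ x, ν x * h x - ∑ x, μ x * h x| ≤ 2 * η / ε := by
  -- first absolute moments
  have key : ∀ ρ : Ω → ℝ, (∀ x, 0 ≤ ρ x) → ∑ x, ρ x = 1 →
      ∑ x, ρ x * (h x) ^ 2 - (∑ x, ρ x * h x) ^ 2 ≤ η ^ 2 →
      ∑ x, ρ x * |h x - ∑ y, ρ y * h y| ≤ η := by
    intro ρ hρ hρ1 hV
    set m := ∑ y, ρ y * h y with hm
    have h1 : ∑ x, ρ x * (h x - m) ^ 2 ≤ η ^ 2 := by
      have : ∑ x, ρ x * (h x - m) ^ 2 = ∑ x, ρ x * (h x) ^ 2 - m ^ 2 := by
        calc ∑ x, ρ x * (h x - m) ^ 2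
            = ∑ x, (ρ x * (h x) ^ 2 - 2 * m * (ρ x * h x) + m ^ 2 * ρ x) :=
              Finset.sum_congr rfl fun x _ => by ring
          _ = ∑ x, ρ x * (h x) ^ 2 - 2 * m * ∑ x, ρ x * h x + m ^ 2 * ∑ x, ρ x := by
              simp only [Finset.sum_add_distrib, Finset.sum_sub_distrib, ← Finset.mul_sum]
          _ = ∑ x, ρ x * (h x) ^ 2 - m ^ 2 := by rw [← hm, hρ1]; ring
      rw [this]; exact hV
    have h2 : (∑ x, ρ x * |h x - m|) ^ 2 ≤ (∑ x, ρ x) * ∑ x, ρ x * (h x - m) ^ 2 := by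
      refine Finset.sum_sq_le_sum_mul_sum_of_sq_le_mul _ (fun x _ => hρ x)
        (fun x _ => mul_nonneg (hρ x) (sq_nonneg _)) (fun x _ => ?_)
      rw [mul_pow, sq_abs]; exact le_of_eq (by ring)
    rw [hρ1, one_mul] at h2
    exact abs_le_of_sq_le_sq' (h2.trans h1) hη |>.2
  set a := ∑ x, ν x * h x with ha
  set b := ∑ x, μ x * h x with hb
  have k1 := key ν hν hν1 hVν
  have k2 := key μ hμ hμ1 hVμ
  rw [← ha] at k1
  rw [← hb] at k2
  -- the overlap
  have hmin : ∑ x, min (ν x) (μ x) = 1 - tv ν μ := by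
    have : ∀ x, min (ν x) (μ x) = (1 / 2) * (ν x + μ x - |ν x - μ x|) := by
      intro x
      rcases le_total (ν x) (μ x) with h | h
      · rw [min_eq_left h, abs_of_nonpos (by linarith)]; ring
      · rw [min_eq_right h, abs_of_nonneg (by linarith)]; ring
    simp_rw [this]
    rw [← Finset.mul_sum, Finset.sum_sub_distrib, Finset.sum_add_distrib, hν1, hμ1]
    unfold tv; ring
  have hmass : ε ≤ ∑ x, min (ν x) (μ x) := by rw [hmin]; linarith
  have hmin0 : ∀ x, 0 ≤ min (ν x) (μ x) := fun x => le_min (hν x) (hμ x)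
  have e1 : |∑ x, min (ν x) (μ x) * (h x - a)| ≤ η := by
    refine (Finset.abs_sum_le_sum_abs _ _).trans (le_trans ?_ k1)
    refine Finset.sum_le_sum fun x _ => ?_
    rw [abs_mul, abs_of_nonneg (hmin0 x)]
    exact mul_le_mul_of_nonneg_right (min_le_left _ _) (abs_nonneg _)
  have e2 : |∑ x, min (ν x) (μ x) * (h x - b)| ≤ η := by
    refine (Finset.abs_sum_le_sum_abs _ _).trans (le_trans ?_ k2)
    refine Finset.sum_le_sum fun x _ => ?_
    rw [abs_mul, abs_of_nonneg (hmin0 x)]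
    exact mul_le_mul_of_nonneg_right (min_le_right _ _) (abs_nonneg _)
  have e3 : ∀ a b : ℝ, (∑ x, min (ν x) (μ x)) * (a - b) =
      ∑ x, min (ν x) (μ x) * (h x - b) - ∑ x, min (ν x) (μ x) * (h x - a) := by
    intro a b
    rw [← Finset.sum_sub_distrib, Finset.sum_mul]
    exact Finset.sum_congr rfl fun x _ => by ring
  have e4 : (∑ x, min (ν x) (μ x)) * |a - b| ≤ 2 * η := by
    have : (∑ x, min (ν x) (μ x)) * |a - b| = |(∑ x, min (ν x) (μ x)) * (a - b)| := by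
      rw [abs_mul, abs_of_nonneg (Finset.sum_nonneg fun x _ => hmin0 x)]
    rw [this, e3]
    refine (abs_sub _ _).trans ?_
    linarith
  rw [le_div_iff₀ hε]
  calc |a - b| * ε ≤ |a - b| * ∑ x, min (ν x) (μ x) :=
        mul_le_mul_of_nonneg_left hmass (abs_nonneg _)
    _ = (∑ x, min (ν x) (μ x)) * |a - b| := mul_comm _ _
    _ ≤ 2 * η := e4

end TV

end Pool.Agent.Lib.MP_1c1c61_pr
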